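import Pool.Agent.Run7.h954.FP.Loop
set_option autoImplicit false

/-!
The regulators on the fibre products: the limit is a rational multiple of a power of `2 π`.
-/

namespace Pool.Agent.Run7.h954.FP

open Pool.Agent.TH826.MK

open Pool.Agent.N65.TL

open Pool.Agent.N65.TE (RE det_RE zm)

open Polynomial

/-- the determinant of a matrix with rational entries -/
theorem det_rat {ι : Type*} [Fintype ι] [DecidableEq ι] {M : Matrix ι ι ℝ}
    (h : ∀ i j, ∃ r : ℚ, M i j = r) : ∃ r : ℚ, M.det = r := by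
  choose f hf using h
  refine ⟨(Matrix.of f).det, ?_⟩
  have h1 : M = (Matrix.of f).map (Rat.castHom ℝ) := by
    ext i j
    rw [hf i j]
    rfl
  rw [h1]
  exact ((Rat.castHom ℝ).map_det (Matrix.of f)).symm

theorem RE_rat {s t : ℕ} (al v : Fin (s + 1) → ℤ) (i0 : Fin (s + 1)) (be v' : Fin (t + 1) → ℤ)
    (i0' : Fin (t + 1)) (N : ℕ) (i j) : ∃ r : ℚ, RE al v i0 be v' i0' N i j = r := by
  unfold RE
  rw [Matrix.submatrix_apply]
  generalize (esum s t).symm i = a
  generalize Pool.Agent.N65.TE.colE s t j = b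
  rcases a with a | a <;> rcases b with b | b
  · rw [Matrix.fromBlocks_apply₁₁]
    unfold zm
    rw [Matrix.of_apply]
    refine Fin.cases ?_ (fun l => ?_) b
    · exact ⟨(al a : ℚ) * N, by simp⟩
    · exact ⟨(bdir v i0 l a : ℚ), by simp⟩
  · exact ⟨0, by simp⟩
  · exact ⟨0, by simp⟩
  · rw [Matrix.fromBlocks_apply₂₂]
    unfold zmat
    rw [Matrix.of_apply]
    refine Fin.cases ?_ (fun l => ?_) b
    · exact ⟨(be a : ℚ) / dot be v', by simp⟩
    · exact ⟨(bdir v' i0' l a : ℚ), by simp⟩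

/-- The regulators. -/
theorem exists_reg_rat {K : Type*} [Field K] {s t : ℕ} {W : LP K (s + 1)} {V : LP K (t + 1)}
    (hW : Interior W) (hV : Interior V) {N : ℕ} (hN : 0 < N) :
    ∃ r : ℚ, r ≠ 0 ∧ ∀ (B : Type*) [CommRing B] [Algebra K B] (F G : B) (σ : K →+* ℂ),
      PoleLoops σ F N → ∀ ε : ℝ, 0 < ε → ∃ C : ℝ, ∀ c : K, C ≤ ‖σ c‖ →
        HasReg W V F (G + algebraMap K B c) σ (Real.log ‖σ c‖)
          ((2 * Real.pi) ^ (s + (t + 1)) * r) ε := by
  have hex : ∀ {n : ℕ} {a v : Fin (n + 1) → ℤ}, 0 < dot a v → ∃ i0, v i0 ≠ 0 := by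
    intro n a v h
    by_contra hcon
    push Not at hcon
    have h1 : dot a v = 0 := Finset.sum_eq_zero fun i _ => by rw [hcon i, mul_zero]
    omega
  obtain ⟨al, v, hv, hpos, hmax⟩ := exists_vertex hW
  obtain ⟨be, v', hv', hpos', hmax'⟩ := exists_vertex hV
  obtain ⟨i0, hi0⟩ := hex hpos
  obtain ⟨i0', hi0'⟩ := hex hpos'
  obtain ⟨r, hr⟩ := det_rat (RE_rat al v i0 be v' i0' N)
  refine ⟨r, ?_, fun B _ _ F G σ hloop ε hε => ?_⟩
  · rintro rfl
    rw [Rat.cast_zero] at hr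
    exact det_RE hpos hi0 hpos' hi0' hN hr
  · rw [← hr]
    exact exists_torus σ G hloop hv hpos hmax i0 hv' hpos' hmax' i0' hε

end Pool.Agent.Run7.h954.FP
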