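import Pool.Agent.N65.TE.Defs
set_option autoImplicit false

/-!
The fibre products of the fibrations `W(z) = F(P)` and `V(y) = G(P)` over an affine curve: definitions.
-/

namespace Pool.Agent.Run7.h954.FP

open Pool.Agent.TH826.MK (KQ symb Unramified Torus)

open Pool.Agent.N65.TL

open Polynomial

section conditions

variable {K : Type*} [Field K]

/-- The coefficient of `x^i w^j` of a polynomial in `w` whose coefficients are polynomials
in `x`. -/
noncomputable def cf (P : K[X][X]) (i j : ℕ) : K := (P.coeff j).coeff i

/-- The polynomial is `w^n + ε x^m` plus terms of smaller weight (the weight of `x^i w^j` is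
`n i + m j`), with a root of unity `ε`, and has integral coefficients. -/
structure CurveType (n m : ℕ) (H : K[X][X]) : Prop where
  /-- the exponent of `w` is positive -/
  npos : 0 < n
  /-- the exponent of `x` is positive -/
  mpos : 0 < m
  /-- integral coefficients -/
  int : ∀ i j, IsIntegral ℤ (cf H i j)
  /-- the coefficient of `w^n` -/
  topw : cf H 0 n = 1
  /-- the coefficient of `x^m` -/
  topx : ∃ k : ℕ, k ≠ 0 ∧ cf H m 0 ^ k = 1
  /-- the other terms have smaller weight -/
  low : ∀ i j, (i, j) ≠ (0, n) → (i, j) ≠ (m, 0) → cf H i j ≠ 0 → n * i + m * j < n * m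

/-- The polynomial is `ε x^a w^b` plus terms of smaller weight, with a root of unity `ε`; the
leading term has positive weight, and all coefficients are integral. -/
def IsLead (n m : ℕ) (F : K[X][X]) (a b : ℕ) : Prop :=
  0 < n * a + m * b ∧ (∃ k : ℕ, k ≠ 0 ∧ cf F a b ^ k = 1) ∧
    ∀ i j, (i, j) ≠ (a, b) → cf F i j ≠ 0 → n * i + m * j < n * a + m * b

/-- A polynomial with integral coefficients whose leading term (with respect to the weights) is
unique, of positive weight, and has a root of unity as coefficient. -/
structure MonicFn (n m : ℕ) (F : K[X][X]) : Prop where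
  /-- integral coefficients -/
  int : ∀ i j, IsIntegral ℤ (cf F i j)
  /-- the leading term -/
  lead : ∃ a b, IsLead n m F a b

end conditions

section ring

variable (K : Type*) [Field K] (B : Type*) [CommRing B] [Algebra K B] (s t : ℕ)

/-- The Laurent polynomials in `z_0, ..., z_s` over the ring `B` of functions of the base. -/
def ZRing (B : Type*) [CommRing B] (s : ℕ) : Type _ := LP B (s + 1)

noncomputable instance (B : Type*) [CommRing B] (s : ℕ) : CommRing (ZRing B s) :=
  AddMonoidAlgebra.commRing

/-- The functions on the base. -/
noncomputable def zx (s : ℕ) : B →+* ZRing B s := AddMonoidAlgebra.singleZeroRingHom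

/-- The Laurent polynomials in `y_0, ..., y_t` over the Laurent polynomials in `z_0, ..., z_s` over
the ring of functions of the base. -/
def YRing (B : Type*) [CommRing B] (s t : ℕ) : Type _ := LP (ZRing B s) (t + 1)

noncomputable instance (B : Type*) [CommRing B] (s t : ℕ) : CommRing (YRing B s t) :=
  AddMonoidAlgebra.commRing

/-- The Laurent polynomials in `z` over the functions on the base. -/
noncomputable def yz (t : ℕ) : ZRing B s →+* YRing B s t := AddMonoidAlgebra.singleZeroRingHom

/-- The functions on the base. -/
noncomputable def yx : B →+* YRing B s t := (yz B s t).comp (zx B s)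

variable {K}

/-- The Laurent polynomials in `z` with constant coefficients. -/
noncomputable def inz (W : LP K (s + 1)) : YRing B s t :=
  yz B s t (AddMonoidAlgebra.mapRingHom (Fin (s + 1) → ℤ) (algebraMap K B) W)

/-- The Laurent polynomials in `y` with constant coefficients. -/
noncomputable def iny (V : LP K (t + 1)) : YRing B s t :=
  AddMonoidAlgebra.mapRingHom (Fin (t + 1) → ℤ) ((zx B s).comp (algebraMap K B)) V

variable {B} {s t} (W : LP K (s + 1)) (V : LP K (t + 1)) (F G : B)

/-- The ideal generated by `W(z) - F` and `V(y) - G`. -/
noncomputable def pideal : Ideal (YRing B s t) :=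
  Ideal.span {inz B s t W - yx B s t F, iny B s t V - yx B s t G}

/-- The coordinate ring of the fibre product `W(z) = F`, `V(y) = G`, `z_i ≠ 0`, `y_j ≠ 0`. -/
def PRing : Type _ := YRing B s t ⧸ pideal W V F G

noncomputable instance : CommRing (PRing W V F G) := Ideal.Quotient.commRing (pideal W V F G)

/-- The restriction of functions to the fibre product. -/
noncomputable def pmk : YRing B s t →+* PRing W V F G := Ideal.Quotient.mk (pideal W V F G)

/-- The functions on the base as functions on the fibre product. -/
noncomputable def px : B →+* PRing W V F G := (pmk W V F G).comp (yx B s t)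

/-- The constants as functions on the fibre product. -/
noncomputable def pcst : K →+* PRing W V F G := (px W V F G).comp (algebraMap K B)

/-- The units `z_i`. -/
noncomputable def pz (i : Fin (s + 1)) : (PRing W V F G)ˣ :=
  Units.map ((pmk W V F G).comp (yz B s t) : ZRing B s →* PRing W V F G)
    (zlau i : (LP B (s + 1))ˣ)

/-- The units `y_j`. -/
noncomputable def py (j : Fin (t + 1)) : (PRing W V F G)ˣ :=
  Units.map (pmk W V F G : YRing B s t →* PRing W V F G) (zlau j : (LP (ZRing B s) (t + 1))ˣ)

/-- The symbol `{z_0, ..., z_s, y_0, ..., y_t}`. -/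
noncomputable def psym : KQ (PRing W V F G) (s + (t + 1) + 1) :=
  symb fun l => Sum.elim (pz W V F G) (py W V F G) ((esum s t).symm l)

/-- There is a torus in the complex points (over `σ`) of the fibre product, such that the quotient of
the regulator of the symbol `{z_0, ..., z_s, y_0, ..., y_t}` on this torus and of `τ` differs from
`q` by at most `ε`. -/
def HasReg (σ : K →+* ℂ) (τ q ε : ℝ) : Prop :=
  ∃ Γ : Torus (PRing W V F G) (s + (t + 1)), (∀ θ (x : K), Γ.e θ (pcst W V F G x) = σ x) ∧
    |Γ.reg (psym W V F G) / τ - q| ≤ ε

/-- The symbol `{z_0, ..., z_s, y_0, ..., y_t}` has an unramified image in the Milnor K-theory of all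
fields `L` with a homomorphism from the coordinate ring. -/
def Unram.{u, v, b} {K : Type u} [Field K] {B : Type b} [CommRing B] [Algebra K B] {s t : ℕ}
    (W : LP K (s + 1)) (V : LP K (t + 1)) (F G : B) : Prop :=
  ∀ (L : Type v) [Field L] (f : PRing W V F G →+* L), KQ.map _ f (psym W V F G) ∈ Unramified L _

end ring

end Pool.Agent.Run7.h954.FP
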