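import Pool.Agent.Run7.h954.FP.PDefs
set_option autoImplicit false

/-!
Fibrations over products of plane curves: definitions, and the symbols are unramified.
-/

namespace Pool.Agent.Run7.h954.FP

open Pool.Agent.TH826.MK (KQ symb Unramified Torus)

open Pool.Agent.N65.TL

open Polynomial

section base

variable {K : Type*} [Field K] {N : ℕ}

/-- The polynomial `P(x_k, w_k)`; the further coordinate is `X none`. -/
noncomputable def oemb (k : Fin N) : K[X][X] →+* MvPolynomial (Option (Fin N × Bool)) K :=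
  eval₂RingHom (eval₂RingHom MvPolynomial.C (MvPolynomial.X (some (k, false))))
    (MvPolynomial.X (some (k, true)))

/-- The polynomials `H_k(x_k, w_k)` and `X none * ∏_k ∏_i L_{k,i}(x_k, w_k) - 1`. -/
def Data.ogens (D : Data K N) : Set (MvPolynomial (Option (Fin N × Bool)) K) :=
  insert (MvPolynomial.X none * ∏ k, ∏ i, oemb k (D.L k i) - 1)
    (Set.range fun k => oemb k (D.H k))

/-- The coordinate ring of the open part `∏_k ∏_i L_{k,i}(P_k) ≠ 0` of the product of the
curves. -/
def Data.BRing (D : Data K N) : Type _ :=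
  MvPolynomial (Option (Fin N × Bool)) K ⧸ Ideal.span D.ogens

noncomputable instance (D : Data K N) : CommRing D.BRing :=
  Ideal.Quotient.commRing (Ideal.span D.ogens)

/-- The restriction of polynomials to the open part of the product of the curves. -/
noncomputable def Data.bmk (D : Data K N) :
    MvPolynomial (Option (Fin N × Bool)) K →+* D.BRing := Ideal.Quotient.mk (Ideal.span D.ogens)

noncomputable instance (D : Data K N) : Algebra K D.BRing :=
  (D.bmk.comp MvPolynomial.C).toAlgebra

theorem Data.bmk_eqn (D : Data K N) :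
    D.bmk (MvPolynomial.X none) * ∏ k, ∏ i, D.bmk (oemb k (D.L k i)) = 1 := by
  have h : D.bmk (MvPolynomial.X none * ∏ k, ∏ i, oemb k (D.L k i) - 1) = 0 :=
    Ideal.Quotient.eq_zero_iff_mem.2 (Ideal.subset_span (Set.mem_insert _ _))
  rw [map_sub, map_one, sub_eq_zero, map_mul, map_prod] at h
  simp only [map_prod] at h
  exact h

theorem Data.bmk_H (D : Data K N) (k : Fin N) : D.bmk (oemb k (D.H k)) = 0 :=
  Ideal.Quotient.eq_zero_iff_mem.2 (Ideal.subset_span (Set.mem_insert_of_mem _ ⟨k, rfl⟩))

theorem Data.isUnit_bL (D : Data K N) (k : Fin N) (i : Fin (D.r k + 1)) :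
    IsUnit (D.bmk (oemb k (D.L k i))) := by
  refine isUnit_of_dvd_one ?_
  rw [← D.bmk_eqn]
  refine Dvd.dvd.mul_left ?_ _
  exact (Finset.dvd_prod_of_mem (fun i => D.bmk (oemb k (D.L k i))) (Finset.mem_univ i)).trans
    (Finset.dvd_prod_of_mem (fun k => ∏ i, D.bmk (oemb k (D.L k i))) (Finset.mem_univ k))

/-- The units `L_{k,i}`. -/
noncomputable def Data.bL (D : Data K N) (k : Fin N) (i : Fin (D.r k + 1)) : (D.BRing)ˣ :=
  (D.isUnit_bL k i).unit

/-- The units `u_{k,i} = L_{k,i}^{d_{k,0}} / L_{k,0}^{d_{k,i}}`, `1 ≤ i ≤ r_k`. -/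
noncomputable def Data.bu (D : Data K N) (k : Fin N) (i : Fin (D.r k)) : (D.BRing)ˣ :=
  D.bL k i.succ ^ D.d k 0 / D.bL k 0 ^ D.d k i.succ

/-- The function `Φ = λ ∏_k ∏_i L_{k,i}(P_k)^(w_{k,i} + 1)`. -/
noncomputable def Data.Phi (D : Data K N) (w : ∀ k, Fin (D.r k + 1) → ℕ) (lam : K) : D.BRing :=
  algebraMap K D.BRing lam * ∏ k, ∏ i, (D.bL k i : D.BRing) ^ (w k i + 1)

end base

section ring

variable {K : Type*} [Field K] {B : Type*} [CommRing B] [Algebra K B] {s : ℕ}

/-- The Laurent polynomial `W(z)` over the base with the ring of functions `B`. -/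
noncomputable def gW (B : Type*) [CommRing B] [Algebra K B] (W : LP K (s + 1)) : ZRing B s :=
  AddMonoidAlgebra.mapRingHom (Fin (s + 1) → ℤ) (algebraMap K B) W

/-- The ideal generated by `W(z) - Φ`. -/
noncomputable def gideal (W : LP K (s + 1)) (Φ : B) : Ideal (ZRing B s) :=
  Ideal.span {gW B W - zx B s Φ}

/-- The coordinate ring of `W(z) = Φ`, `z_i ≠ 0`, over the base with the ring of functions `B`. -/
def GRing (W : LP K (s + 1)) (Φ : B) : Type _ := ZRing B s ⧸ gideal W Φ

variable (W : LP K (s + 1)) (Φ : B)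

noncomputable instance GRing.instRing : CommRing (GRing W Φ) :=
  Ideal.Quotient.commRing (gideal W Φ)

/-- The restriction of functions. -/
noncomputable def gmk : ZRing B s →+* GRing W Φ := Ideal.Quotient.mk (gideal W Φ)

/-- The functions on the base. -/
noncomputable def gb : B →+* GRing W Φ := (gmk W Φ).comp (zx B s)

/-- The constants. -/
noncomputable def gcst : K →+* GRing W Φ := (gb W Φ).comp (algebraMap K B)

/-- The units `z_i`. -/
noncomputable def gz (i : Fin (s + 1)) : (GRing W Φ)ˣ :=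
  Units.map (gmk W Φ : ZRing B s →* GRing W Φ) (zlau i : (LP B (s + 1))ˣ)

theorem gmk_W : gmk W Φ (gW B W) = gb W Φ Φ := by
  have h : gmk W Φ (gW B W - zx B s Φ) = 0 :=
    Ideal.Quotient.eq_zero_iff_mem.2 (Ideal.subset_span rfl)
  rw [map_sub, sub_eq_zero] at h
  exact h

theorem lev_gz {L : Type*} [CommRing L] (f : GRing W Φ →+* L) : lev (f.comp (gcst W Φ))
    (fun i => Units.map (f : GRing W Φ →* L) (gz W Φ i)) W = f (gb W Φ Φ) := by
  rw [← gmk_W]
  have h3 : f (gmk W Φ (gW B W)) = _ := hom_eq_lev (R := B) (f.comp (gmk W Φ))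
    (AddMonoidAlgebra.mapRingHom (Fin (s + 1) → ℤ) (algebraMap K B) W)
  rw [h3, lev_map]
  rfl

end ring

section fam

variable {K : Type*} [Field K] {s d : ℕ} (D : Data K (d + 1)) (W : LP K (s + 1))
  (w : ∀ k, Fin (D.r k + 1) → ℕ) (lam : K)

/-- The coordinate ring of the open part `∏_k ∏_i L_{k,i}(P_k) ≠ 0` of the fibration
`W(z) = λ ∏_k ∏_i L_{k,i}(P_k)^(w_{k,i} + 1)`, `z_i ≠ 0`, over the product of the curves. -/
def Data.FibRing : Type _ := GRing W (D.Phi w lam)

noncomputable instance Data.instFibRing : CommRing (D.FibRing W w lam) :=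
  GRing.instRing W (D.Phi w lam)

/-- The constants. -/
noncomputable def Data.fcst : K →+* D.FibRing W w lam := gcst W (D.Phi w lam)

/-- The units `z_i`. -/
noncomputable def Data.fz (i : Fin (s + 1)) : (D.FibRing W w lam)ˣ := gz W (D.Phi w lam) i

/-- The units `u_{k,i}`. -/
noncomputable def Data.fu (k : Fin (d + 1)) (i : Fin (D.r k)) : (D.FibRing W w lam)ˣ :=
  Units.map (gb W (D.Phi w lam) : D.BRing →* GRing W (D.Phi w lam)) (D.bu k i)

/-- The symbols `{z_0, ..., z_s, u_{0,T_0}, ..., u_{d,T_d}}`. -/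
noncomputable def Data.fsym (T : ∀ k, Fin (D.r k)) :
    KQ (D.FibRing W w lam) (s + (d + 1) + 1) :=
  symb fun l => Sum.elim (D.fz W w lam) (fun k => D.fu W w lam k (T k)) ((esum s d).symm l)

end fam

section unram

open scoped WithZero

open Pool.Agent.TH826.MK

open Pool.Agent.N65.TD (exists_max_dot val_mon)

theorem ev_oemb {K : Type*} [Field K] {N : ℕ} {L : Type*} [CommRing L]
    (f : MvPolynomial (Option (Fin N × Bool)) K →+* L) (k : Fin N) (P : K[X][X]) :
    f (oemb k P) = ev2 (f.comp MvPolynomial.C) (f (MvPolynomial.X (some (k, false))))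
      (f (MvPolynomial.X (some (k, true)))) P := by
  have h : f.comp (oemb k) = ev2 (f.comp MvPolynomial.C) (f (MvPolynomial.X (some (k, false))))
      (f (MvPolynomial.X (some (k, true)))) := by
    unfold ev2 oemb
    refine Polynomial.ringHom_ext' (Polynomial.ringHom_ext' ?_ ?_) ?_
    · ext c
      simp only [RingHom.comp_apply, coe_eval₂RingHom, eval₂_C]
    · simp only [RingHom.comp_apply, coe_eval₂RingHom, eval₂_C, eval₂_X]
    · simp only [RingHom.comp_apply, coe_eval₂RingHom, eval₂_X]
  exact RingHom.congr_fun h P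

/-- a product of elements of value at most one which is a unit -/
theorem prod_unit {L : Type*} [Field L] {ι : Type*} [Fintype ι] (v : Valuation L ℤᵐ⁰)
    {x : ι → L} (hx : ∀ i, v (x i) ≤ 1) {c : L} (hc : v c ≤ 1) (h : v (c * ∏ i, x i) = 1)
    (i : ι) : v (x i) = 1 := by
  classical
  refine le_antisymm (hx i) ?_
  rw [← h, map_mul, map_prod, ← Finset.mul_prod_erase Finset.univ _ (Finset.mem_univ i)]
  calc v c * (v (x i) * ∏ j ∈ Finset.univ.erase i, v (x j)) ≤ 1 * (v (x i) * 1) :=
        mul_le_mul' hc (mul_le_mul' le_rfl (Finset.prod_le_one' fun j _ => hx j))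
    _ = v (x i) := by rw [one_mul, mul_one]

/-- The symbols are unramified. -/
theorem Data.funram {K : Type*} [Field K] {s d : ℕ} {D : Data K (d + 1)} (hD : D.Adm)
    {W : LP K (s + 1)} (hWi : Interior W) (hWt : Tame W) (w : ∀ k, Fin (D.r k + 1) → ℕ)
    {lam : K} (hlam : IsIntegral ℤ lam) {L : Type*} [Field L] (f : D.FibRing W w lam →+* L)
    (T : ∀ k, Fin (D.r k)) : KQ.map _ f (D.fsym W w lam T) ∈ Unramified L _ := by
  classical
  unfold Data.fsym
  rw [KQ.map_symb]
  change symb (fun l => Units.map (f : D.FibRing W w lam →* L)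
    (Sum.elim (gz W (D.Phi w lam)) (fun k => Units.map
      (gb W (D.Phi w lam) : D.BRing →* GRing W (D.Phi w lam)) (D.bu k (T k)))
    ((esum s d).symm l))) ∈ Unramified L _
  unfold Unramified
  simp only [Submodule.mem_iInf]
  intro v _
  set f' : GRing W (D.Phi w lam) →+* L := f with hf'
  set ψ : D.BRing →+* L := f'.comp (gb W (D.Phi w lam)) with hψ
  set φ : K →+* L := ψ.comp (algebraMap K D.BRing) with hφ
  set x : Fin (d + 1) → L := fun k => ψ (D.bmk (MvPolynomial.X (some (k, false)))) with hx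
  set y : Fin (d + 1) → L := fun k => ψ (D.bmk (MvPolynomial.X (some (k, true)))) with hy
  have hev : ∀ k (P : K[X][X]), ψ (D.bmk (oemb k P)) = ev2 φ (x k) (y k) P := fun k P =>
    ev_oemb (ψ.comp D.bmk) k P
  have h0 : ∀ k, ev2 φ (x k) (y k) (D.H k) = 0 := fun k => by
    rw [← hev, D.bmk_H, map_zero]
  set a : Fin (s + (d + 1) + 1) → Lˣ := fun l => Units.map (f : D.FibRing W w lam →* L)
    (Sum.elim (gz W (D.Phi w lam)) (fun k => Units.map
      (gb W (D.Phi w lam) : D.BRing →* GRing W (D.Phi w lam)) (D.bu k (T k)))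
    ((esum s d).symm l)) with ha
  have haz : (fun i => a (esum s d (Sum.inl i))) = fun i =>
      Units.map (f' : GRing W (D.Phi w lam) →* L) (gz W (D.Phi w lam) i) := by
    funext i
    rw [ha]
    simp only [Equiv.symm_apply_apply, Sum.elim_inl]
    rfl
  have hbL : ∀ k i, ψ (D.bL k i : D.BRing) = ev2 φ (x k) (y k) (D.L k i) := fun k i => hev k _
  have hbL0 : ∀ k i, ev2 φ (x k) (y k) (D.L k i) ≠ 0 := fun k i => by
    rw [← hbL]
    exact ((D.bL k i).isUnit.map ψ).ne_zero
  have hau : ∀ k, ((a (esum s d (Sum.inr k)) : Lˣ) : L) =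
      ev2 φ (x k) (y k) (D.L k (T k).succ) ^ D.d k 0 /
        ev2 φ (x k) (y k) (D.L k 0) ^ D.d k (T k).succ := by
    intro k
    have h1 : a (esum s d (Sum.inr k)) = Units.map (ψ : D.BRing →* L) (D.bu k (T k)) := by
      rw [ha]
      simp only [Equiv.symm_apply_apply, Sum.elim_inr]
      rfl
    rw [h1]
    unfold Data.bu
    rw [_root_.map_div, map_pow, map_pow, Units.val_div_eq_div_val, Units.val_pow_eq_pow_val,
      Units.val_pow_eq_pow_val]
    have h2 : ∀ i, ((Units.map (ψ : D.BRing →* L) (D.bL k i) : Lˣ) : L) =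
      ev2 φ (x k) (y k) (D.L k i) := fun i => hbL k i
    rw [h2, h2]
  by_cases hp : ∃ k, ¬ (v (x k) ≤ 1 ∧ v (y k) ≤ 1)
  · obtain ⟨k, hk⟩ := hp
    obtain ⟨e, he, h1⟩ := pole_quot (v := v) (hD.curve k) (h0 k) hk (hD.int k (T k).succ)
      (hD.int k 0) (hD.lead k (T k).succ) (hD.lead k 0) (hbL0 k 0)
    refine mem_of_pow v a (esum s d (Sum.inr k)) (hD.curve k).npos he ?_
    rw [hau]
    exact h1
  · push Not at hp
    have hle : ∀ k i, v (ev2 φ (x k) (y k) (D.L k i)) ≤ 1 := fun k i =>
      val_ev_le φ v (hD.int k i) (hp k).1 (hp k).2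
    have hlamv : v (φ lam) ≤ 1 := val_le_one_of_integral v (map_isIntegral_int φ hlam)
    have hPhi : ψ (D.Phi w lam) = φ lam * ∏ k, ∏ i,
        ev2 φ (x k) (y k) (D.L k i) ^ (w k i + 1) := by
      unfold Data.Phi
      rw [map_mul, map_prod]
      simp only [map_prod, map_pow, hbL]
      rfl
    have hlev : lev φ (fun i => a (esum s d (Sum.inl i))) W = ψ (D.Phi w lam) := by
      rw [haz]
      exact lev_gz W (D.Phi w lam) f'
    have hpr : ∀ k, v (∏ i, ev2 φ (x k) (y k) (D.L k i) ^ (w k i + 1)) ≤ 1 := fun k => by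
      rw [map_prod]
      exact Finset.prod_le_one' fun i _ => by
        rw [map_pow]
        exact pow_le_one' (hle k i) _
    have hWle : v (lev φ (fun i => a (esum s d (Sum.inl i))) W) ≤ 1 := by
      rw [hlev, hPhi, map_mul, map_prod]
      exact mul_le_one' hlamv (Finset.prod_le_one' fun k _ => hpr k)
    have hinj : Function.Injective fun i => esum s d (Sum.inl i) := fun i j h =>
      Sum.inl_injective ((esum s d).injective h)
    choose k hk using fun j => exists_ord v (a (esum s d (Sum.inl j)))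
    by_cases hk0 : k = 0
    · -- all `z_j` are units
      have hz1 : ∀ j, v (a (esum s d (Sum.inl j)) : L) = 1 := by
        intro j
        rw [hk, hk0]
        rfl
      obtain ⟨m0, hm0, -⟩ := hWi (Pi.single 0 1) (by
        intro h
        have := congrFun h 0
        simp at this)
      have hmon : v ((mon (fun j => a (esum s d (Sum.inl j))) m0 : Lˣ) : L) = 1 := by
        rw [val_mon v _ hk, hk0]
        simp
      rcases lt_or_eq_of_le hWle with hlt | heq
      · exact mem_unitPart_of_tame φ v a hinj hWt hm0 (by rw [hmon]; exact hlt)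
      · rw [hlev, hPhi] at heq
        have h2 : ∀ k, v (∏ i, ev2 φ (x k) (y k) (D.L k i) ^ (w k i + 1)) = 1 :=
          prod_unit v hpr hlamv heq
        have h3 : ∀ k i, v (ev2 φ (x k) (y k) (D.L k i)) = 1 := by
          intro k i
          have h4 := prod_unit v (x := fun i => ev2 φ (x k) (y k) (D.L k i) ^ (w k i + 1))
            (fun i => by
              rw [map_pow]
              exact pow_le_one' (hle k i) _) (c := 1) (by rw [map_one]) (by
              rw [one_mul]
              exact h2 k) i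
          rw [map_pow] at h4
          refine le_antisymm (hle k i) ?_
          by_contra hcon
          rw [not_le] at hcon
          have h5 : v (ev2 φ (x k) (y k) (D.L k i)) ^ (w k i + 1) < 1 :=
            pow_lt_one' hcon (Nat.succ_ne_zero _)
          rw [h4] at h5
          exact lt_irrefl _ h5
        refine Submodule.subset_span ⟨a, fun l => ?_, rfl⟩
        obtain ⟨r, rfl⟩ := (esum s d).surjective l
        rcases r with i | k
        · exact hz1 i
        · rw [hau, map_div₀, map_pow, map_pow, h3, h3, one_pow, one_pow, div_one]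
    · obtain ⟨m0, hm0, hpos⟩ := hWi k hk0
      refine mem_unitPart_of_tame φ v a hinj hWt hm0 (lt_of_le_of_lt hWle ?_)
      rw [val_mon v _ hk, ← WithZero.exp_zero, WithZero.exp_lt_exp]
      exact hpos

end unram

end Pool.Agent.Run7.h954.FP
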