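import Pool.Agent.Run7.h954.FP.Points
import Pool.Agent.N65.TE.Root
import Pool.Agent.N65.TE.Mat
set_option autoImplicit false

/-!
The regulators of the symbols on the fibre products over a base with loops around a pole.
-/

namespace Pool.Agent.Run7.h954.FP

open Filter Topology

open Pool.Agent.TH826.MK

open Pool.Agent.TH826.SX (pairing_close good_circ lw_circ circ_ne_zero)

open Pool.Agent.N65.TL

open Pool.Agent.N65.TD

open Pool.Agent.N65.TE (exists_small_root RE det_RE RE_z_zero RE_z_succ RE_y_zero RE_y_succ)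

variable {K : Type*} [Field K] {B : Type*} [CommRing B] [Algebra K B] {s t : ℕ}

/-- There are loops of points over `σ` with large values of `F`. -/
def PoleLoops (σ : K →+* ℂ) (F : B) (N : ℕ) : Prop :=
  ∀ (k : ℕ), 0 < k → ∀ α : ℂ, α ≠ 0 → ∀ R η : ℝ, 0 < η → ∃ (C : ℝ) (M : B → ℝ), 0 ≤ C ∧
    (∀ b, 0 ≤ M b) ∧
    ∀ (D : ℕ) (j0 : Fin D), ∃ (E : (Fin D → ℝ) → B →+* ℂ) (Λ : (Fin D → ℝ) → ℂ),
      (∀ θ, (E θ).comp (algebraMap K B) = σ) ∧ (∀ b, ContDiff ℝ 2 fun θ => E θ b) ∧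
      (∀ θ j, E (θ + Pi.single j 1) = E θ) ∧ Good Λ ∧ Per Λ ∧ (∀ θ, R ≤ ‖Λ θ‖) ∧
      (∀ θ, |Real.log ‖Λ θ‖| ≤ C) ∧
      (∀ j θ, ‖lw Λ j θ - 2 * Real.pi * Complex.I * (if j = j0 then (N : ℂ) else 0)‖ ≤ η) ∧
      (∀ θ, α * Λ θ ^ k = E θ F) ∧ ∀ b, (∀ θ, ‖E θ b‖ ≤ M b) ∧
        ∀ θ j, ‖fderiv ℝ (fun θ => E θ b) θ (Pi.single j 1)‖ ≤ M b

theorem exists_torus (σ : K →+* ℂ) {W : LP K (s + 1)} {V : LP K (t + 1)} {F : B} (G : B) {N : ℕ}
    (hloop : PoleLoops σ F N) {al v : Fin (s + 1) → ℤ} (hv : W.coeff v ≠ 0)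
    (hpos : 0 < dot al v) (hmax : ∀ m, W.coeff m ≠ 0 → m ≠ v → dot al m < dot al v)
    (i0 : Fin (s + 1)) {be v' : Fin (t + 1) → ℤ} (hv' : V.coeff v' ≠ 0) (hpos' : 0 < dot be v')
    (hmax' : ∀ m, V.coeff m ≠ 0 → m ≠ v' → dot be m < dot be v') (i0' : Fin (t + 1)) {ε : ℝ}
    (hε : 0 < ε) : ∃ C : ℝ, ∀ c : K, C ≤ ‖σ c‖ →
      HasReg W V F (G + algebraMap K B c) σ (Real.log ‖σ c‖)
        ((2 * Real.pi) ^ (s + (t + 1)) * (RE al v i0 be v' i0' N).det) ε := by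
  classical
  have hpi := Real.pi_pos
  have hnpi : ‖(2 * Real.pi * Complex.I : ℂ)‖ = 2 * Real.pi := by
    rw [norm_mul, norm_mul, Complex.norm_I, Complex.norm_real, Complex.norm_ofNat, mul_one,
      Real.norm_eq_abs, abs_of_pos Real.pi_pos]
  set k1 : ℕ := (dot al v).toNat with hk1
  have hk1z : (k1 : ℤ) = dot al v := Int.toNat_of_nonneg hpos.le
  have hk10 : 0 < k1 := by omega
  have hk1R : (1 : ℝ) ≤ k1 := by exact_mod_cast hk10
  set k2 : ℕ := (dot be v').toNat with hk2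
  have hk2z : (k2 : ℤ) = dot be v' := Int.toNat_of_nonneg hpos'.le
  have hk20 : 0 < k2 := by omega
  have hk2R : (0 : ℝ) < k2 := by exact_mod_cast hk20
  have hk2R1 : (1 : ℝ) ≤ k2 := by exact_mod_cast hk20
  have hk2zR : ((dot be v' : ℤ) : ℝ) = k2 := by
    rw [← hk2z]
    simp
  have hσv : σ (W.coeff v) ≠ 0 := (map_ne_zero σ).2 hv
  have hσv' : σ (V.coeff v') ≠ 0 := (map_ne_zero σ).2 hv'
  obtain ⟨δ, hδ, hclose⟩ := pairing_close (RE al v i0 be v' i0' N) hε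
  set A : ℝ := 1 + ∑ i, |(al i : ℝ)| + ∑ i, |(be i : ℝ)| with hA
  have hsa : 0 ≤ ∑ i, |(al i : ℝ)| := Finset.sum_nonneg fun i _ => abs_nonneg _
  have hsb : 0 ≤ ∑ i, |(be i : ℝ)| := Finset.sum_nonneg fun i _ => abs_nonneg _
  have hA1 : 1 ≤ A := by linarith
  have hAi : ∀ i, |(al i : ℝ)| ≤ A := by
    intro i
    have h2 : |(al i : ℝ)| ≤ ∑ i, |(al i : ℝ)| :=
      Finset.single_le_sum (f := fun i => |(al i : ℝ)|) (fun i _ => abs_nonneg _)
        (Finset.mem_univ i)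
    linarith
  have hBi : ∀ i, |(be i : ℝ)| ≤ A := by
    intro i
    have h2 : |(be i : ℝ)| ≤ ∑ i, |(be i : ℝ)| :=
      Finset.single_le_sum (f := fun i => |(be i : ℝ)|) (fun i _ => abs_nonneg _)
        (Finset.mem_univ i)
    linarith
  set δ0 : ℝ := δ / (4 * A) with hδ0
  have hδ0pos : 0 < δ0 := div_pos hδ (by linarith)
  have hδle : 3 * (A * δ0) < δ := by
    have h2 : δ = 4 * (A * δ0) := by
      rw [hδ0]
      field_simp
    have h3 : 0 < A * δ0 := by positivity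
    linarith
  have hδA : δ0 ≤ A * δ0 := le_mul_of_one_le_left hδ0pos.le hA1
  obtain ⟨η2, hη2, hroot2⟩ := exists_small_root hk20 hδ0pos
  set B1 : ℝ := 2 * Real.pi * N + δ0 with hB1
  have hB10 : 0 ≤ B1 := by positivity
  obtain ⟨R1, hR1, hz1⟩ := exists_z σ hv hpos hmax i0 hB10 hδ0pos
  obtain ⟨R2, hR2, hz2⟩ := exists_z σ hv' hpos' hmax' i0' hδ0pos.le hδ0pos
  set j0 : Fin (s + (t + 1)) := Fin.natAdd s (0 : Fin (t + 1)) with hj0
  obtain ⟨CΛ, MB, hCΛ0, hMB0, hex⟩ := hloop k1 hk10 (σ (W.coeff v)) hσv R1 δ0 hδ0pos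
  obtain ⟨E, Λ1, hEσ, hEc, hEp, hΛ1g, hΛ1p, hΛ1R, hΛ1abs, hΛ1lw, hΛ1k, hMB⟩ :=
    hex (s + (t + 1)) j0
  have hΛ1B : ∀ j θ, ‖lw Λ1 j θ‖ ≤ B1 := by
    intro j θ
    have h1 := norm_sub_norm_le (lw Λ1 j θ)
      (2 * Real.pi * Complex.I * (if j = j0 then (N : ℂ) else 0))
    have h2 := hΛ1lw j θ
    have h3 : ‖(2 * Real.pi * Complex.I * (if j = j0 then (N : ℂ) else 0) : ℂ)‖ ≤
        2 * Real.pi * N := by
      rw [norm_mul, hnpi]
      refine mul_le_mul_of_nonneg_left ?_ (by positivity)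
      split_ifs
      · rw [Complex.norm_natCast]
      · rw [norm_zero]
        positivity
    rw [hB1]
    linarith
  obtain ⟨Z, hZg, hZp, hZlog, hZlw, hZeq⟩ := hz1 (s + (t + 1)) (Fin.castAdd (t + 1)) Λ1 hΛ1g
    hΛ1p hΛ1R hΛ1B
  -- constants
  set MG : ℝ := MB G with hMG
  have hMG0 : 0 ≤ MG := hMB0 G
  set C2 : ℝ := |Real.log ‖σ (V.coeff v')‖| + δ0 with hC2
  have hC20 : 0 ≤ C2 := by positivity
  have hlogR2 : 0 ≤ Real.log R2 := Real.log_nonneg hR2
  set M : ℝ := (A * CΛ + δ0) / δ0 + (A * C2 + δ0) / δ0 + k2 * (Real.log R2 + C2) + 1 with hM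
  have hM1 : 0 ≤ (A * CΛ + δ0) / δ0 := by positivity
  have hM2 : 0 ≤ (A * C2 + δ0) / δ0 := by positivity
  have hM3 : 0 ≤ k2 * (Real.log R2 + C2) := by positivity
  have hMGη : 0 ≤ MG / η2 := by positivity
  refine ⟨Real.exp M + 1 + MG / η2, fun c hc => ?_⟩
  have hln : 0 < ‖σ c‖ := by linarith [Real.exp_pos M]
  have hc0 : σ c ≠ 0 := norm_pos_iff.1 hln
  set T : ℝ := Real.log ‖σ c‖ with hT
  have hTM : M ≤ T := by
    rw [hT, Real.le_log_iff_exp_le hln]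
    linarith
  have hTpos : 0 < T := by linarith
  have hT0 : T ≠ 0 := hTpos.ne'
  have hMGc : MG / ‖σ c‖ ≤ η2 := by
    rw [div_le_iff₀ hln]
    have h1 : MG / η2 ≤ ‖σ c‖ := by linarith [Real.exp_pos M]
    rw [div_le_iff₀ hη2] at h1
    linarith
  set u2 : (Fin (s + (t + 1)) → ℝ) → ℂ := fun θ => E θ G / σ c with hu2
  have hu2c : ContDiff ℝ 2 u2 := (hEc G).div_const _
  have hu2n : ∀ θ, ‖u2 θ‖ ≤ η2 := by
    intro θ
    refine le_trans ?_ hMGc
    simp only [hu2]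
    rw [norm_div]
    exact div_le_div_of_nonneg_right ((hMB G).1 θ) (norm_nonneg _)
  have hu2d : ∀ θ j, ‖fderiv ℝ u2 θ (Pi.single j 1)‖ ≤ η2 := by
    intro θ j
    refine le_trans ?_ hMGc
    have hd : DifferentiableAt ℝ (fun θ => E θ G) θ := (hEc G).differentiable (by norm_num) θ
    have h1 : fderiv ℝ u2 θ (Pi.single j 1) =
        (σ c)⁻¹ * fderiv ℝ (fun θ => E θ G) θ (Pi.single j 1) := by
      have h2 : u2 = fun θ => (σ c)⁻¹ * E θ G := by
        funext θ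
        simp only [hu2]
        rw [div_eq_inv_mul]
      rw [h2, fderiv_const_mul hd]
      rfl
    rw [h1, norm_mul, norm_inv, inv_mul_eq_div]
    exact div_le_div_of_nonneg_right ((hMB G).2 θ j) (norm_nonneg _)
  obtain ⟨g2, hg2, hdep2, hlog2, hlw2, heq2⟩ := hroot2 _ u2 hu2c hu2n hu2d
  obtain ⟨κ2, hκ2⟩ := IsAlgClosed.exists_pow_nat_eq (σ c / σ (V.coeff v')) hk20
  have hκ20 : κ2 ≠ 0 := by
    rintro rfl
    rw [zero_pow hk20.ne'] at hκ2
    exact (div_ne_zero hc0 hσv') hκ2.symm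
  have hlogκ : Real.log ‖κ2‖ = (T - Real.log ‖σ (V.coeff v')‖) / k2 := by
    have h1 : (k2 : ℝ) * Real.log ‖κ2‖ = T - Real.log ‖σ (V.coeff v')‖ := by
      rw [← Real.log_pow, ← norm_pow, hκ2, norm_div, Real.log_div hln.ne'
        (norm_ne_zero_iff.2 hσv')]
    rw [← h1]
    field_simp
  set Λ2 : (Fin (s + (t + 1)) → ℝ) → ℂ := fun θ => κ2 * g2 θ with hΛ2
  have hΛ2g : Good Λ2 := (good_const hκ20).mul hg2
  have hΛ2p : Per Λ2 := by
    intro θ j
    have h1 : g2 (θ + Pi.single j 1) = g2 θ := hdep2 _ _ (by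
      simp only [hu2]
      rw [hEp θ j])
    simp only [hΛ2]
    rw [h1]
  have hΛ2log : ∀ θ, |Real.log ‖Λ2 θ‖ - T / k2| ≤ C2 := by
    intro θ
    have h1 : Real.log ‖Λ2 θ‖ = Real.log ‖κ2‖ + Real.log ‖g2 θ‖ := by
      simp only [hΛ2]
      rw [norm_mul, Real.log_mul (norm_ne_zero_iff.2 hκ20) (norm_ne_zero_iff.2 (hg2.ne_zero θ))]
    rw [h1, hlogκ]
    have h2 : (T - Real.log ‖σ (V.coeff v')‖) / k2 + Real.log ‖g2 θ‖ - T / k2 =
        -(Real.log ‖σ (V.coeff v')‖ / k2) + Real.log ‖g2 θ‖ := by ring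
    rw [h2]
    refine (abs_add_le _ _).trans (add_le_add ?_ (hlog2 θ))
    rw [abs_neg, abs_div, abs_of_pos hk2R]
    exact div_le_self (abs_nonneg _) hk2R1
  have hΛ2R : ∀ θ, R2 ≤ ‖Λ2 θ‖ := by
    intro θ
    have h1 := (abs_le.1 (hΛ2log θ)).1
    have h2 : Real.log R2 ≤ Real.log ‖Λ2 θ‖ := by
      have h3 : Real.log R2 + C2 ≤ T / k2 := by
        rw [le_div_iff₀ hk2R]
        linarith
      linarith
    exact (Real.log_le_log_iff (by linarith) (norm_pos_iff.2 (hΛ2g.ne_zero θ))).1 h2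
  have hΛ2lw : ∀ j θ, ‖lw Λ2 j θ‖ ≤ δ0 := by
    intro j θ
    have h1 := lw_mul (good_const (d := s + (t + 1)) hκ20) hg2 j θ
    rw [lw_const, zero_add] at h1
    have h2 : lw Λ2 j θ = _ := h1
    rw [h2]
    exact hlw2 j θ
  have hΛ2k : ∀ θ, σ (V.coeff v') * Λ2 θ ^ k2 = E θ (G + algebraMap K B c) := by
    intro θ
    have h1 : E θ G = σ c * u2 θ := by
      simp only [hu2]
      field_simp
    have h2 : E θ (algebraMap K B c) = σ c := RingHom.congr_fun (hEσ θ) c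
    rw [map_add, h2, h1]
    have h3 := heq2 θ
    simp only [hΛ2]
    rw [mul_pow, hκ2, h3]
    field_simp
    ring
  obtain ⟨Y, hYg, hYp, hYlog, hYlw, hYeq⟩ := hz2 (s + (t + 1)) (fun l => Fin.natAdd s l.succ) Λ2
    hΛ2g hΛ2p hΛ2R hΛ2lw
  have hPt : ∀ θ, PPt σ W V F (G + algebraMap K B c) (E θ) (fun i => Z i θ) fun i => Y i θ :=
    fun θ =>
    { he := hEσ θ
      nez := fun i => (hZg i).ne_zero θ
      ney := fun i => (hYg i).ne_zero θ
      eqz := (hZeq θ).trans (hΛ1k θ)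
      eqy := (hYeq θ).trans (hΛ2k θ) }
  set Γ := mkP hEc hZg hYg hPt hEp hZp hYp with hΓ
  refine ⟨Γ, fun θ x => (hPt θ).ev_cst x, ?_⟩
  unfold psym
  rw [Torus.reg_symb]
  set ent : Fin (s + (t + 1) + 1) → (PRing W V F (G + algebraMap K B c))ˣ := fun l =>
    Sum.elim (pz W V F (G + algebraMap K B c)) (py W V F (G + algebraMap K B c))
      ((esum s t).symm l) with hent
  have hzfn : ∀ i, Γ.fn (ent (esum s t (Sum.inl i)) : PRing W V F (G + algebraMap K B c)) =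
      Z i := by
    intro i
    funext θ
    simp only [hent, Equiv.symm_apply_apply, Sum.elim_inl]
    exact (hPt θ).ev_z i
  have hyfn : ∀ i, Γ.fn (ent (esum s t (Sum.inr i)) : PRing W V F (G + algebraMap K B c)) =
      Y i := by
    intro i
    funext θ
    simp only [hent, Equiv.symm_apply_apply, Sum.elim_inr]
    exact (hPt θ).ev_y i
  have hite : ∀ (P : Prop) [Decidable P] (x : ℝ),
      ((if P then x else 0 : ℝ) : ℂ) = if P then (x : ℂ) else 0 := by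
    intro P _ x
    split_ifs <;> simp
  refine hclose _ _ hT0 (fun l => Γ.good _) (fun l θ => ?_) (fun l j θ => ?_)
  · obtain ⟨r, rfl⟩ := (esum s t).surjective l
    rcases r with i | i
    · rw [RE_z_zero, congrFun (hzfn i) θ, sub_zero]
      refine lt_of_le_of_lt ?_ hδle
      have h1 := hZlog i θ
      have h2 := hΛ1abs θ
      have h3 : Real.log ‖Z i θ‖ = (Real.log ‖Z i θ‖ - al i * Real.log ‖Λ1 θ‖) +
          al i * Real.log ‖Λ1 θ‖ := by ring
      rw [h3, abs_div, abs_of_pos hTpos, div_le_iff₀ hTpos]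
      refine (abs_add_le _ _).trans ?_
      rw [abs_mul]
      have h4 : |(al i : ℝ)| * |Real.log ‖Λ1 θ‖| ≤ A * CΛ :=
        mul_le_mul (hAi i) h2 (abs_nonneg _) (by linarith)
      have h5 : (A * CΛ + δ0) / δ0 ≤ T := by linarith
      rw [div_le_iff₀ hδ0pos] at h5
      have h6 : T * δ0 ≤ 3 * (A * δ0) * T := by
        have : δ0 ≤ 3 * (A * δ0) := by linarith
        nlinarith
      linarith
    · rw [RE_y_zero, congrFun (hyfn i) θ, hk2zR]
      refine lt_of_le_of_lt ?_ hδle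
      have h1 := hYlog i θ
      have h2 := hΛ2log θ
      have h3 : Real.log ‖Y i θ‖ / T - be i / k2 =
          ((Real.log ‖Y i θ‖ - be i * Real.log ‖Λ2 θ‖) +
            be i * (Real.log ‖Λ2 θ‖ - T / k2)) / T := by
        field_simp
        ring
      rw [h3, abs_div, abs_of_pos hTpos, div_le_iff₀ hTpos]
      refine (abs_add_le _ _).trans ?_
      rw [abs_mul]
      have h4 : |(be i : ℝ)| * |Real.log ‖Λ2 θ‖ - T / k2| ≤ A * C2 :=
        mul_le_mul (hBi i) h2 (abs_nonneg _) (by linarith)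
      have h5 : (A * C2 + δ0) / δ0 ≤ T := by linarith
      rw [div_le_iff₀ hδ0pos] at h5
      have h6 : T * δ0 ≤ 3 * (A * δ0) * T := by
        have : δ0 ≤ 3 * (A * δ0) := by linarith
        nlinarith
      linarith
  · obtain ⟨r, rfl⟩ := (esum s t).surjective l
    rcases r with i | i
    · rw [RE_z_succ, hzfn i]
      refine lt_of_le_of_lt ?_ hδle
      have h1 := hZlw i j θ
      have h2 := hΛ1lw j θ
      simp only [Complex.ofReal_add, Complex.ofReal_mul, Complex.ofReal_sum, hite,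
        Complex.ofReal_natCast, Complex.ofReal_intCast]
      have e1 : lw (Z i) j θ - 2 * Real.pi * Complex.I *
          (al i * (if j = Fin.natAdd s 0 then (N : ℂ) else 0) +
            ∑ l, if j = Fin.castAdd (t + 1) l then (bdir v i0 l i : ℂ) else 0) =
          (lw (Z i) j θ - (al i * lw Λ1 j θ + 2 * Real.pi * Complex.I *
            ∑ l, if j = Fin.castAdd (t + 1) l then (bdir v i0 l i : ℂ) else 0)) +
          al i * (lw Λ1 j θ - 2 * Real.pi * Complex.I * (if j = j0 then (N : ℂ) else 0)) := by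
        rw [hj0]
        ring
      rw [e1]
      refine (norm_add_le _ _).trans ?_
      rw [norm_mul, Complex.norm_intCast]
      have h4 : |(al i : ℝ)| * ‖lw Λ1 j θ - 2 * Real.pi * Complex.I *
          (if j = j0 then (N : ℂ) else 0)‖ ≤ A * δ0 :=
        mul_le_mul (hAi i) h2 (norm_nonneg _) (by linarith)
      linarith
    · rw [RE_y_succ, hyfn i]
      refine lt_of_le_of_lt ?_ hδle
      have h1 := hYlw i j θ
      have h2 := hΛ2lw j θ
      simp only [Complex.ofReal_sum, hite, Complex.ofReal_intCast]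
      have e1 : lw (Y i) j θ - 2 * Real.pi * Complex.I *
          (∑ l : Fin t, if j = Fin.natAdd s l.succ then (bdir v' i0' l i : ℂ) else 0) =
          (lw (Y i) j θ - (be i * lw Λ2 j θ + 2 * Real.pi * Complex.I *
            ∑ l : Fin t, if j = Fin.natAdd s l.succ then (bdir v' i0' l i : ℂ) else 0)) +
          be i * lw Λ2 j θ := by
        ring
      rw [e1]
      refine (norm_add_le _ _).trans ?_
      rw [norm_mul, Complex.norm_intCast]
      have h4 : |(be i : ℝ)| * ‖lw Λ2 j θ‖ ≤ A * δ0 :=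
        mul_le_mul (hBi i) h2 (norm_nonneg _) (by linarith)
      linarith

/-- The regulators. -/
theorem exists_reg {W : LP K (s + 1)} {V : LP K (t + 1)} (hW : Interior W) (hV : Interior V)
    {F : B} (G : B) (σ : K →+* ℂ) {N : ℕ} (hN : 0 < N) (hloop : PoleLoops σ F N) :
    ∃ q : ℝ, q ≠ 0 ∧ ∀ ε : ℝ, 0 < ε → ∃ C : ℝ, ∀ c : K, C ≤ ‖σ c‖ →
      HasReg W V F (G + algebraMap K B c) σ (Real.log ‖σ c‖) q ε := by
  have hex : ∀ {n : ℕ} {a v : Fin (n + 1) → ℤ}, 0 < dot a v → ∃ i0, v i0 ≠ 0 := by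
    intro n a v h
    by_contra hcon
    push Not at hcon
    have h1 : dot a v = 0 := Finset.sum_eq_zero fun i _ => by rw [hcon i, mul_zero]
    omega
  obtain ⟨al, v, hv, hpos, hmax⟩ := exists_vertex hW
  obtain ⟨be, v', hv', hpos', hmax'⟩ := exists_vertex hV
  obtain ⟨i0, hi0⟩ := hex hpos
  obtain ⟨i0', hi0'⟩ := hex hpos'
  refine ⟨(2 * Real.pi) ^ (s + (t + 1)) * (RE al v i0 be v' i0' N).det,
    mul_ne_zero (pow_ne_zero _ (by have := Real.pi_pos; positivity))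
      (det_RE hpos hi0 hpos' hi0' hN), fun ε hε => ?_⟩
  exact exists_torus σ G hloop hv hpos hmax i0 hv' hpos' hmax' i0' hε

end Pool.Agent.Run7.h954.FP
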