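import Pool.Agent.Run7.h954.FP.PDefs
import Pool.Agent.Run7.h954.FP.Reg
set_option autoImplicit false

/-!
Tori on the hypersurfaces in products of plane curves, and the regulators.
-/

namespace Pool.Agent.Run7.h954.FP

open Filter Topology

open Pool.Agent.TH826.MK (KQ symb Torus Good Per lw circ lw_mul lw_prod lw_const good_const
  norm_circ pairing)

open Pool.Agent.TH826.SX (pairing_close good_circ lw_circ circ_ne_zero good_om lw_prod_circ
  good_prod_circ)

open Pool.Agent.N65.TL (good_inv lw_inv per_circ)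

open Pool.Agent.TH577.UA (good_pow lw_pow)

open Polynomial

variable {K : Type*} [Field K] {N : ℕ}

section pts

variable {σ : K →+* ℂ} {D : Data K N} {lam : K}

/-- The complex points. -/
structure XPt (σ : K →+* ℂ) (D : Data K N) (lam : K) (p : Fin N → ℂ × ℂ) : Prop where
  curve : ∀ k, ev2 σ (p k).1 (p k).2 (D.H k) = 0
  eqn : σ lam * ∏ k, ∏ i, ev2 σ (p k).1 (p k).2 (D.L k i) = 1

/-- the coordinates -/
def crd (p : Fin N → ℂ × ℂ) (i : Fin N × Bool) : ℂ := if i.2 then (p i.1).2 else (p i.1).1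

/-- evaluation of polynomials -/
noncomputable def pev (σ : K →+* ℂ) (p : Fin N → ℂ × ℂ) : MvPolynomial (Fin N × Bool) K →+* ℂ :=
  MvPolynomial.eval₂Hom σ (crd p)

theorem pev_emb (p : Fin N → ℂ × ℂ) (k : Fin N) (P : K[X][X]) :
    pev σ p (emb k P) = ev2 σ (p k).1 (p k).2 P := by
  rw [ev_emb]
  have h1 : (pev σ p).comp MvPolynomial.C = σ := by
    ext c
    simp [pev]
  have h2 : pev σ p (MvPolynomial.X (k, false)) = (p k).1 := by
    simp [pev, crd]
  have h3 : pev σ p (MvPolynomial.X (k, true)) = (p k).2 := by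
    simp [pev, crd]
  rw [h1, h2, h3]

variable {p : Fin N → ℂ × ℂ}

/-- evaluation at a point -/
noncomputable def XPt.ev (h : XPt σ D lam p) : D.XRing lam →+* ℂ :=
  Ideal.Quotient.lift (Ideal.span (D.gens lam)) (pev σ p) (by
    intro q hq
    have hle : Ideal.span (D.gens lam) ≤ RingHom.ker (pev σ p) := by
      rw [Ideal.span_le]
      intro q hq
      rcases hq with rfl | ⟨k, rfl⟩
      · show pev σ p _ = 0
        rw [map_sub, map_mul, map_prod, map_one]
        simp only [map_prod, pev_emb]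
        have h1 : pev σ p (MvPolynomial.C lam) = σ lam := by simp [pev]
        rw [h1, h.eqn, sub_self]
      · show pev σ p _ = 0
        rw [pev_emb, h.curve]
    exact hle hq)

theorem XPt.ev_mk (h : XPt σ D lam p) (P : MvPolynomial (Fin N × Bool) K) :
    h.ev (D.xmk lam P) = pev σ p P := Ideal.Quotient.lift_mk _ _ _

theorem XPt.ev_cst (h : XPt σ D lam p) (c : K) : h.ev (D.xcst lam c) = σ c := by
  unfold Data.xcst
  rw [RingHom.comp_apply, h.ev_mk]
  simp [pev]

theorem XPt.ev_Lu (h : XPt σ D lam p) (k : Fin N) (i : Fin (D.r k + 1)) :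
    h.ev (D.Lu lam k i : D.XRing lam) = ev2 σ (p k).1 (p k).2 (D.L k i) := by
  have h1 : ((D.Lu lam k i : (D.XRing lam)ˣ) : D.XRing lam) = D.xmk lam (emb k (D.L k i)) := rfl
  rw [h1, h.ev_mk, pev_emb]

theorem XPt.ev_u (h : XPt σ D lam p) (k : Fin N) (i : Fin (D.r k)) :
    h.ev (D.u lam k i : D.XRing lam) = ev2 σ (p k).1 (p k).2 (D.L k i.succ) ^ D.d k 0 *
      (ev2 σ (p k).1 (p k).2 (D.L k 0) ^ D.d k i.succ)⁻¹ := by
  have h1 := map_units_inv (h.ev : D.XRing lam →* ℂ) (D.Lu lam k 0 ^ D.d k i.succ)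
  unfold Data.u
  rw [div_eq_mul_inv, Units.val_mul, map_mul]
  congr 1
  · rw [Units.val_pow_eq_pow_val, map_pow, h.ev_Lu]
  · refine h1.trans ?_
    congr 1
    show h.ev ((D.Lu lam k 0 ^ D.d k i.succ : (D.XRing lam)ˣ) : D.XRing lam) = _
    rw [Units.val_pow_eq_pow_val, map_pow, h.ev_Lu]

theorem XPt.congr {p' : Fin N → ℂ × ℂ} (h : XPt σ D lam p) (h' : XPt σ D lam p') (hp : p = p') :
    h.ev = h'.ev := by
  subst hp
  rfl

/-- a torus in the hypersurface -/
noncomputable def mkX {e : ℕ} {P : (Fin e → ℝ) → Fin N → ℂ × ℂ}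
    (hP : ∀ k, ContDiff ℝ 2 fun θ => P θ k) (h : ∀ θ, XPt σ D lam (P θ))
    (hper : ∀ θ j, P (θ + Pi.single j 1) = P θ) : Torus (D.XRing lam) e where
  e θ := (h θ).ev
  smooth b := by
    obtain ⟨Q, rfl⟩ : ∃ Q, D.xmk lam Q = b := Ideal.Quotient.mk_surjective b
    have e1 : (fun θ => (h θ).ev (D.xmk lam Q)) = fun θ =>
        ∑ d ∈ Q.support, σ (Q.coeff d) * ∏ i ∈ d.support, crd (P θ) i ^ (d i) := by
      funext θ
      rw [(h θ).ev_mk]
      exact MvPolynomial.eval₂_eq _ _ _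
    rw [e1]
    refine ContDiff.sum fun d _ => contDiff_const.mul (contDiff_prod fun i _ => ContDiff.pow ?_ _)
    unfold crd
    by_cases hi : i.2
    · simp only [hi, if_true]
      exact (hP i.1).snd
    · simp only [hi, if_false]
      exact (hP i.1).fst
  periodic θ j := XPt.congr _ _ (hper θ j)

end pts

section mat

variable {n : ℕ}

/-- the matrix of the orders -/
noncomputable def RX (e : Fin (n + 1) → ℝ) : Matrix (Fin (n + 1)) (Fin (n + 1)) ℝ :=
  Matrix.of fun l => Fin.cons (if l = 0 then -e l else 0) fun j =>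
    if l = 0 then -e l else if l = j.succ then e l else 0

theorem det_RX (e : Fin (n + 1) → ℝ) : (RX e).det = -∏ l, e l := by
  rw [Matrix.det_of_upperTriangular]
  · rw [Fin.prod_univ_succ, Fin.prod_univ_succ (f := e)]
    have h1 : RX e 0 0 = -e 0 := by
      unfold RX
      rw [Matrix.of_apply, Fin.cons_zero, if_pos rfl]
    have h2 : ∀ i : Fin n, RX e i.succ i.succ = e i.succ := by
      intro i
      unfold RX
      rw [Matrix.of_apply, Fin.cons_succ, if_neg (Fin.succ_ne_zero i), if_pos rfl]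
    rw [h1, Finset.prod_congr rfl fun i _ => h2 i, neg_mul]
  · intro i j hij
    have hij' : j < i := hij
    have hi0 : i ≠ 0 := (Fin.pos_iff_ne_zero.1 ((Fin.zero_le j).trans_lt hij'))
    unfold RX
    rw [Matrix.of_apply]
    revert hij'
    refine Fin.cases (fun _ => ?_) (fun j' hj => ?_) j
    · rw [Fin.cons_zero, if_neg hi0]
    · rw [Fin.cons_succ, if_neg hi0, if_neg hj.ne']

end mat

section small

theorem exists_pos_le {ι : Type*} [Finite ι] {r : ι → ℝ} (hr : ∀ i, 0 < r i) :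
    ∃ ρ : ℝ, 0 < ρ ∧ ∀ i, ρ ≤ r i := by
  have := Fintype.ofFinite ι
  classical
  rcases isEmpty_or_nonempty ι with h | h
  · exact ⟨1, one_pos, fun i => (h.false i).elim⟩
  · obtain ⟨i, hi⟩ := Finite.exists_min r
    exact ⟨r i, hr i, hi⟩

theorem exists_ge {ι : Type*} [Finite ι] (c : ι → ℝ) : ∃ C : ℝ, 0 ≤ C ∧ ∀ i, c i ≤ C := by
  rcases isEmpty_or_nonempty ι with h | h
  · exact ⟨0, le_rfl, fun i => (h.false i).elim⟩
  · obtain ⟨i, hi⟩ := Finite.exists_max c
    exact ⟨max (c i) 0, le_max_right _ _, fun j => (hi j).trans (le_max_left _ _)⟩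

end small

/-- The regulators of the symbols are asymptotic to a diagonal matrix. -/
theorem exists_tori {n : ℕ} (D : Data K (n + 1)) (σ : K →+* ℂ) (hz : D.Zeros σ) {ε : ℝ}
    (hε : 0 < ε) : ∃ C : ℝ, ∀ lam : K, C ≤ ‖σ lam‖ →
      ∃ Γ : (∀ k, Fin (D.r k)) → Torus (D.XRing lam) n,
        (∀ T θ (x : K), (Γ T).e θ (D.xcst lam x) = σ x) ∧
        ∀ T T', |(Γ T).reg (D.sym lam T') / Real.log ‖σ lam‖ -
          (2 * Real.pi) ^ n * (if T = T' then -∏ k, (D.d k 0 : ℝ) else 0)| ≤ ε := by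
  classical
  have hpi := Real.pi_pos
  have hnpi : ‖(2 * Real.pi * Complex.I : ℂ)‖ = 2 * Real.pi := by
    rw [norm_mul, norm_mul, Complex.norm_I, Complex.norm_real, Complex.norm_ofNat, mul_one,
      Real.norm_eq_abs, abs_of_pos Real.pi_pos]
  -- the matrices
  set eo : (∀ k, Fin (D.r k)) → (∀ k, Fin (D.r k)) → Fin (n + 1) → ℝ := fun T T' k =>
    if T k = T' k then (D.d k 0 : ℝ) else 0 with heo
  have hdet : ∀ T T', (RX (eo T T')).det = if T = T' then -∏ k, (D.d k 0 : ℝ) else 0 := by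
    intro T T'
    rw [det_RX]
    split_ifs with h
    · subst h
      simp only [heo, if_true]
    · obtain ⟨k, hk⟩ : ∃ k, T k ≠ T' k := by
        by_contra hcon
        push Not at hcon
        exact h (funext hcon)
      rw [Finset.prod_eq_zero (Finset.mem_univ k) (by simp only [heo, if_neg hk]), neg_zero]
  choose δ hδ hclose using fun q : (∀ k, Fin (D.r k)) × (∀ k, Fin (D.r k)) =>
    pairing_close (RX (eo q.1 q.2)) hε
  obtain ⟨δ1, hδ1, hδ1le⟩ := exists_pos_le hδ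
  -- the degrees
  obtain ⟨dm, hdm0, hdm⟩ := exists_ge fun q : Σ k, Fin (D.r k + 1) => (D.d q.1 q.2 : ℝ)
  have hdm' : ∀ k i, (D.d k i : ℝ) ≤ dm := fun k i => hdm ⟨k, i⟩
  set δ0 : ℝ := δ1 / (4 * (dm + 1)) with hδ0
  have hδ0pos : 0 < δ0 := by positivity
  have hδ0le : 2 * (dm * δ0) < δ1 := by
    have h1 : δ0 * (4 * (dm + 1)) = δ1 := by
      rw [hδ0]
      field_simp
    nlinarith
  -- the germs
  choose x0 w0 hH hL hJ hne using hz
  choose φ hφc hφ A hAc hA0 hA using fun q : Σ k, Fin (D.r k) =>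
    exists_zero_germ σ (H := D.H q.1) (D.L q.1) q.2.succ (hH q.1 q.2) (hL q.1 q.2) (hJ q.1 q.2)
      (hne q.1 q.2)
  choose rA CA hrA hCA hcomp using fun q : Σ q : (Σ k, Fin (D.r k)), Fin (D.r q.1 + 1) =>
    exists_comp (hAc q.1 q.2) (hA0 q.1 q.2) (B := 2 * Real.pi) (by positivity) hδ0pos
  obtain ⟨ρA, hρA, hρAle⟩ := exists_pos_le hrA
  obtain ⟨C1, hC10, hC1⟩ := exists_ge CA
  have hev : ∀ q : Σ k, Fin (D.r k), ∃ r > 0, ∀ s : ℂ, dist s 0 < r →
      ContDiffAt ℂ 2 (φ q) s ∧ (ev2 σ (φ q s).1 (φ q s).2 (D.H q.1) = 0 ∧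
        ∏ j, ev2 σ (φ q s).1 (φ q s).2 (D.L q.1 j) = s) ∧
      ∀ j, ev2 σ (φ q s).1 (φ q s).2 (D.L q.1 j) = (if j = q.2.succ then s else 1) * A q j s :=
    fun q => Metric.eventually_nhds_iff.1
      (((hφc q).eventually (by norm_num)).and ((hφ q).and (hA q)))
  choose rB hrB hball using hev
  obtain ⟨ρB, hρB, hρBle⟩ := exists_pos_le hrB
  set ρ : ℝ := min ρA (ρB / 2) with hρdef
  have hρ : 0 < ρ := lt_min hρA (by linarith)
  set M : ℝ := n * |Real.log ρ| + 2 * (dm * (n * |Real.log ρ| + C1 + |Real.log ρ|)) / δ1 + 1 +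
    dm * (n * |Real.log ρ|) / δ1 with hM
  have hM0 : 0 ≤ M := by positivity
  refine ⟨Real.exp (4 * M + 1) + (ρ ^ (n + 1))⁻¹ + 1, fun lam hlam => ?_⟩
  have hln : 0 < ‖σ lam‖ := by
    have := Real.exp_pos (4 * M + 1)
    have : 0 < (ρ ^ (n + 1))⁻¹ := by positivity
    linarith
  have hlam0 : σ lam ≠ 0 := norm_pos_iff.1 hln
  set τ : ℝ := Real.log ‖σ lam‖ with hτ
  have hτM : 4 * M + 1 ≤ τ := by
    rw [hτ, Real.le_log_iff_exp_le hln]
    have : 0 < (ρ ^ (n + 1))⁻¹ := by positivity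
    linarith
  have hτpos : 0 < τ := by linarith
  have hτ0 : τ ≠ 0 := hτpos.ne'
  -- the parameters
  set s : Fin (n + 1) → (Fin n → ℝ) → ℂ :=
    Fin.cons (α := fun _ => (Fin n → ℝ) → ℂ) (fun θ => (σ lam)⁻¹ / ∏ j, circ ρ (θ j))
      (fun j θ => circ ρ (θ j)) with hs
  have hs0 : s 0 = fun θ => (σ lam)⁻¹ / ∏ j, circ ρ (θ j) := rfl
  have hss : ∀ k : Fin n, s k.succ = fun θ => circ ρ (θ k) := fun k => rfl
  have hsg : ∀ k, Good (s k) := by
    intro k
    refine Fin.cases ?_ (fun j => ?_) k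
    · rw [hs0]
      exact good_om hρ (inv_ne_zero hlam0)
    · rw [hss]
      exact good_circ hρ j
  have hcp : ∀ θ : Fin n → ℝ, ‖∏ j, circ ρ (θ j)‖ = ρ ^ n := by
    intro θ
    rw [norm_prod, Finset.prod_congr rfl fun j _ => norm_circ hρ.le _, Finset.prod_const,
      Finset.card_univ, Fintype.card_fin]
  have hs0n : ∀ θ, ‖s 0 θ‖ = (‖σ lam‖ * ρ ^ n)⁻¹ := by
    intro θ
    rw [hs0]
    simp only
    rw [norm_div, norm_inv, hcp, mul_inv]
    rfl
  have hsle : ∀ k θ, ‖s k θ‖ ≤ ρ := by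
    intro k θ
    refine Fin.cases ?_ (fun j => ?_) k
    · rw [hs0n, inv_le_comm₀ (by positivity) hρ]
      have h1 : (ρ ^ (n + 1))⁻¹ ≤ ‖σ lam‖ := by
        have := Real.exp_pos (4 * M + 1)
        linarith
      calc ρ⁻¹ = (ρ ^ (n + 1))⁻¹ * ρ ^ n := by
            rw [pow_succ]
            field_simp
        _ ≤ ‖σ lam‖ * ρ ^ n := mul_le_mul_of_nonneg_right h1 (by positivity)
    · rw [hss]
      simp only
      rw [norm_circ hρ.le]
  have hslw0 : ∀ j θ, lw (s 0) j θ = -(2 * Real.pi * Complex.I) := by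
    intro j θ
    have e : s 0 = fun θ => (σ lam)⁻¹ * (∏ j, circ ρ (θ j))⁻¹ := by
      rw [hs0]
      funext θ
      rw [div_eq_mul_inv]
    rw [e, lw_mul (good_const (inv_ne_zero hlam0)) (good_inv (good_prod_circ hρ)), lw_const,
      zero_add, lw_inv (good_prod_circ hρ), lw_prod_circ hρ]
  have hslws : ∀ (k : Fin n) j θ, lw (s k.succ) j θ =
      if j = k then 2 * Real.pi * Complex.I else 0 := by
    intro k j θ
    rw [hss]
    exact lw_circ hρ k j θ
  have hslw : ∀ k j θ, ‖lw (s k) j θ‖ ≤ 2 * Real.pi := by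
    intro k j θ
    refine Fin.cases ?_ (fun k' => ?_) k
    · rw [hslw0, norm_neg, hnpi]
    · rw [hslws]
      split_ifs
      · rw [hnpi]
      · rw [norm_zero]
        positivity
  have hsper : ∀ k θ j, s k (θ + Pi.single j 1) = s k θ := by
    intro k θ j
    have h1 : ∀ i : Fin n, circ ρ ((θ + Pi.single j 1 : Fin n → ℝ) i) = circ ρ (θ i) := fun i =>
      per_circ ρ i θ j
    refine Fin.cases ?_ (fun k' => ?_) k
    · rw [hs0]
      simp only [h1]
    · rw [hss]
      exact h1 k'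
  have hslog : ∀ θ, Real.log ‖s 0 θ‖ = -τ - n * Real.log ρ := by
    intro θ
    rw [hs0n, Real.log_inv, Real.log_mul hln.ne' (by positivity), Real.log_pow]
    ring
  have hballs : ∀ k θ, dist (s k θ) 0 < ρB := by
    intro k θ
    rw [dist_zero_right]
    have h1 := (hsle k θ).trans (min_le_right ρA (ρB / 2))
    linarith
  -- the points
  set P : (∀ k, Fin (D.r k)) → (Fin n → ℝ) → Fin (n + 1) → ℂ × ℂ := fun T θ k =>
    φ ⟨k, T k⟩ (s k θ) with hP
  have hPc : ∀ T k, ContDiff ℝ 2 fun θ => P T θ k := by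
    intro T k
    rw [contDiff_iff_contDiffAt]
    intro θ
    exact (((hball ⟨k, T k⟩ _ ((hballs k θ).trans_le (hρBle _))).1).restrict_scalars ℝ).comp θ
      (hsg k).smooth.contDiffAt
  have hPpt : ∀ T θ, XPt σ D lam (P T θ) := by
    intro T θ
    refine ⟨fun k => (hball ⟨k, T k⟩ _ ((hballs k θ).trans_le (hρBle _))).2.1.1, ?_⟩
    have h1 : ∀ k, ∏ i, ev2 σ (P T θ k).1 (P T θ k).2 (D.L k i) = s k θ := fun k =>
      (hball ⟨k, T k⟩ _ ((hballs k θ).trans_le (hρBle _))).2.1.2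
    rw [Finset.prod_congr rfl fun k _ => h1 k, Fin.prod_univ_succ]
    have h2 : s 0 θ = (σ lam)⁻¹ / ∏ j, circ ρ (θ j) := rfl
    have h3 : ∀ k : Fin n, s k.succ θ = circ ρ (θ k) := fun k => rfl
    rw [h2, Finset.prod_congr rfl fun k _ => h3 k]
    have h4 : ∏ j, circ ρ (θ j) ≠ 0 := (good_prod_circ hρ).ne_zero θ
    field_simp
  have hPper : ∀ T θ j, P T (θ + Pi.single j 1) = P T θ := by
    intro T θ j
    funext k
    simp only [hP]
    rw [hsper]
  -- the functions `L_j`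
  have hg : ∀ T k (j : Fin (D.r k + 1)),
      Good (fun θ => ev2 σ (P T θ k).1 (P T θ k).2 (D.L k j)) ∧
      (∀ θ, |Real.log ‖ev2 σ (P T θ k).1 (P T θ k).2 (D.L k j)‖ -
        (if j = (T k).succ then Real.log ‖s k θ‖ else 0)| ≤ C1) ∧
      ∀ i θ, ‖lw (fun θ => ev2 σ (P T θ k).1 (P T θ k).2 (D.L k j)) i θ -
        (if j = (T k).succ then lw (s k) i θ else 0)‖ ≤ δ0 := by
    intro T k j
    have hval : (fun θ => ev2 σ (P T θ k).1 (P T θ k).2 (D.L k j)) = fun θ =>
        (if j = (T k).succ then s k θ else 1) * A ⟨k, T k⟩ j (s k θ) := by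
      funext θ
      exact (hball ⟨k, T k⟩ _ ((hballs k θ).trans_le (hρBle _))).2.2 j
    obtain ⟨a1, a2, a3⟩ := hcomp ⟨⟨k, T k⟩, j⟩ n (s k) (hsg k)
      (fun θ => (hsle k θ).trans ((min_le_left _ _).trans (hρAle ⟨⟨k, T k⟩, j⟩)))
      (fun i θ => hslw k i θ)
    have a4 := hC1 ⟨⟨k, T k⟩, j⟩
    by_cases hj : j = (T k).succ
    · simp only [if_pos hj] at hval ⊢
      rw [hval]
      refine ⟨(hsg k).mul a1, fun θ => ?_, fun i θ => ?_⟩
      · have h1 : ev2 σ (P T θ k).1 (P T θ k).2 (D.L k j) = s k θ * A ⟨k, T k⟩ j (s k θ) :=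
          congrFun hval θ
        rw [h1, norm_mul, Real.log_mul (norm_ne_zero_iff.2 ((hsg k).ne_zero θ))
          (norm_ne_zero_iff.2 (a1.ne_zero θ)), add_sub_cancel_left]
        exact (a2 θ).trans a4
      · rw [lw_mul (hsg k) a1, add_sub_cancel_left]
        exact a3 i θ
    · simp only [if_neg hj, one_mul] at hval ⊢
      rw [hval]
      refine ⟨a1, fun θ => ?_, fun i θ => ?_⟩
      · have h1 : ev2 σ (P T θ k).1 (P T θ k).2 (D.L k j) = A ⟨k, T k⟩ j (s k θ) :=
          congrFun hval θ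
        rw [h1, sub_zero]
        exact (a2 θ).trans a4
      · rw [sub_zero]
        exact a3 i θ
  refine ⟨fun T => mkX (hPc T) (hPpt T) (hPper T), fun T θ x => (hPpt T θ).ev_cst x,
    fun T T' => ?_⟩
  rw [← hdet]
  unfold Data.sym
  rw [Torus.reg_symb]
  set Γ := mkX (hPc T) (hPpt T) (hPper T) with hΓ
  have hfn : ∀ k, Γ.fn (D.u lam k (T' k) : D.XRing lam) = fun θ =>
      ev2 σ (P T θ k).1 (P T θ k).2 (D.L k (T' k).succ) ^ D.d k 0 *
        (ev2 σ (P T θ k).1 (P T θ k).2 (D.L k 0) ^ D.d k (T' k).succ)⁻¹ := by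
    intro k
    funext θ
    exact (hPpt T θ).ev_u k (T' k)
  have h0T : ∀ k, (0 : Fin (D.r k + 1)) ≠ (T k).succ := fun k => (Fin.succ_ne_zero _).symm
  have hcast : ∀ k, ((T' k).succ = (T k).succ) ↔ T k = T' k := fun k => by
    rw [Fin.succ_inj, eq_comm]
  -- the logarithms and the logarithmic derivatives of the entries
  have hlogu : ∀ k θ, |Real.log ‖Γ.fn (D.u lam k (T' k) : D.XRing lam) θ‖ -
      eo T T' k * Real.log ‖s k θ‖| ≤ 2 * (dm * C1) := by
    intro k θ
    obtain ⟨g1, l1, -⟩ := hg T k (T' k).succ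
    obtain ⟨g2, l2, -⟩ := hg T k 0
    have l1' := l1 θ
    have l2' := l2 θ
    rw [if_neg (h0T k), sub_zero] at l2'
    rw [congrFun (hfn k) θ, norm_mul, norm_inv, norm_pow, norm_pow,
      Real.log_mul (pow_ne_zero _ (norm_ne_zero_iff.2 (g1.ne_zero θ)))
        (inv_ne_zero (pow_ne_zero _ (norm_ne_zero_iff.2 (g2.ne_zero θ)))), Real.log_inv,
      Real.log_pow, Real.log_pow]
    have e1 : (D.d k 0 : ℝ) * Real.log ‖ev2 σ (P T θ k).1 (P T θ k).2 (D.L k (T' k).succ)‖ +
        -((D.d k (T' k).succ : ℝ) * Real.log ‖ev2 σ (P T θ k).1 (P T θ k).2 (D.L k 0)‖) -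
        eo T T' k * Real.log ‖s k θ‖ =
        (D.d k 0 : ℝ) * (Real.log ‖ev2 σ (P T θ k).1 (P T θ k).2 (D.L k (T' k).succ)‖ -
          (if (T' k).succ = (T k).succ then Real.log ‖s k θ‖ else 0)) -
        (D.d k (T' k).succ : ℝ) * Real.log ‖ev2 σ (P T θ k).1 (P T θ k).2 (D.L k 0)‖ := by
      simp only [heo, hcast]
      split_ifs <;> ring
    rw [e1]
    refine (abs_sub _ _).trans ?_
    rw [abs_mul, abs_mul, Nat.abs_cast, Nat.abs_cast]
    have b1 := mul_le_mul (hdm' k 0) l1' (abs_nonneg _) hdm0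
    have b2 := mul_le_mul (hdm' k (T' k).succ) l2' (abs_nonneg _) hdm0
    linarith
  have hlwu : ∀ k j θ, ‖lw (Γ.fn (D.u lam k (T' k) : D.XRing lam)) j θ -
      eo T T' k * lw (s k) j θ‖ ≤ 2 * (dm * δ0) := by
    intro k j θ
    obtain ⟨g1, -, l1⟩ := hg T k (T' k).succ
    obtain ⟨g2, -, l2⟩ := hg T k 0
    have l1' := l1 j θ
    have l2' := l2 j θ
    rw [if_neg (h0T k), sub_zero] at l2'
    rw [hfn, lw_mul (good_pow g1 _) (good_inv (good_pow g2 _)), lw_inv (good_pow g2 _), lw_pow g1,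
      lw_pow g2]
    set a := lw (fun θ => ev2 σ (P T θ k).1 (P T θ k).2 (D.L k (T' k).succ)) j θ with ha
    set b := lw (fun θ => ev2 σ (P T θ k).1 (P T θ k).2 (D.L k 0)) j θ with hb
    have e1 : (D.d k 0 : ℂ) * a + -((D.d k (T' k).succ : ℂ) * b) - eo T T' k * lw (s k) j θ =
        (D.d k 0 : ℂ) * (a - (if (T' k).succ = (T k).succ then lw (s k) j θ else 0)) -
        (D.d k (T' k).succ : ℂ) * b := by
      simp only [heo, hcast]
      split_ifs
      · push_cast
        ring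
      · push_cast
        ring
    rw [e1]
    refine (norm_sub_le _ _).trans ?_
    rw [norm_mul, norm_mul, Complex.norm_natCast, Complex.norm_natCast]
    have b1 := mul_le_mul (hdm' k 0) l1' (norm_nonneg _) hdm0
    have b2 := mul_le_mul (hdm' k (T' k).succ) l2' (norm_nonneg _) hdm0
    linarith
  have heo1 : ∀ k, |eo T T' k| ≤ dm := by
    intro k
    simp only [heo]
    split_ifs
    · rw [abs_of_nonneg (Nat.cast_nonneg' _)]
      exact hdm' k 0
    · rw [abs_zero]
      exact hdm0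
  have hτδ : 2 * (dm * (n * |Real.log ρ| + C1 + |Real.log ρ|)) < δ1 * τ := by
    have h1 : 2 * (dm * (n * |Real.log ρ| + C1 + |Real.log ρ|)) / δ1 ≤ M := by
      have h2 : 0 ≤ (n : ℝ) * |Real.log ρ| := by positivity
      have h3 : 0 ≤ dm * (n * |Real.log ρ|) / δ1 := by positivity
      linarith
    rw [div_le_iff₀ hδ1] at h1
    have h2 : M < τ := by linarith
    have h3 : δ1 * M < δ1 * τ := mul_lt_mul_of_pos_left h2 hδ1
    linarith
  refine hclose (T, T') _ _ hτ0 (fun l => Γ.good _) (fun l θ => ?_) (fun l j θ => ?_)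
  · refine lt_of_lt_of_le ?_ (hδ1le (T, T'))
    have h1 := hlogu l θ
    have h2 : ∃ c : ℝ, |c| ≤ n * |Real.log ρ| + |Real.log ρ| ∧
        Real.log ‖s l θ‖ = (if l = 0 then -τ else 0) + c := by
      refine Fin.cases ?_ (fun k => ?_) l
      · refine ⟨-(n * Real.log ρ), ?_, ?_⟩
        · rw [abs_neg, abs_mul, abs_of_nonneg (Nat.cast_nonneg' n)]
          have := abs_nonneg (Real.log ρ)
          linarith
        · rw [hslog, if_pos rfl]
          ring
      · refine ⟨Real.log ρ, ?_, ?_⟩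
        · have : 0 ≤ (n : ℝ) * |Real.log ρ| := by positivity
          linarith
        · rw [if_neg (Fin.succ_ne_zero k), zero_add]
          have h3 : s k.succ θ = circ ρ (θ k) := rfl
          rw [h3, norm_circ hρ.le]
    obtain ⟨c, hc, hc2⟩ := h2
    have hR : RX (eo T T') l 0 = if l = 0 then -eo T T' l else 0 := rfl
    rw [hR, abs_lt]
    have h4 : Real.log ‖Γ.fn (D.u lam l (T' l) : D.XRing lam) θ‖ / τ -
        (if l = 0 then -eo T T' l else 0) =
        ((Real.log ‖Γ.fn (D.u lam l (T' l) : D.XRing lam) θ‖ - eo T T' l * Real.log ‖s l θ‖) +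
          eo T T' l * c) / τ := by
      rw [hc2]
      split_ifs
      · field_simp
        ring
      · field_simp
        ring
    rw [h4, ← abs_lt, abs_div, abs_of_pos hτpos, div_lt_iff₀ hτpos]
    refine lt_of_le_of_lt (abs_add_le _ _) ?_
    rw [abs_mul]
    have h5 : |eo T T' l| * |c| ≤ dm * (n * |Real.log ρ| + |Real.log ρ|) :=
      mul_le_mul (heo1 l) hc (abs_nonneg _) hdm0
    have h6 : 0 ≤ dm * (n * |Real.log ρ| + |Real.log ρ|) := by positivity
    nlinarith
  · refine lt_of_lt_of_le (lt_of_le_of_lt ?_ hδ0le) (hδ1le (T, T'))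
    have h1 := hlwu l j θ
    have h2 : (eo T T' l : ℂ) * lw (s l) j θ =
        2 * Real.pi * Complex.I * (RX (eo T T') l j.succ : ℝ) := by
      have hR : RX (eo T T') l j.succ =
        if l = 0 then -eo T T' l else if l = j.succ then eo T T' l else 0 := rfl
      rw [hR]
      revert h1
      refine Fin.cases (fun _ => ?_) (fun k _ => ?_) l
      · rw [hslw0, if_pos rfl]
        push_cast
        ring
      · rw [hslws, if_neg (Fin.succ_ne_zero k)]
        by_cases hjk : j = k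
        · rw [if_pos hjk, if_pos (by rw [hjk])]
          ring
        · rw [if_neg hjk, if_neg (fun h => hjk (Fin.succ_injective _ h).symm)]
          push_cast
          ring
    rw [← h2]
    exact h1

end Pool.Agent.Run7.h954.FP
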