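import Pool.Agent.Run7.h954.FP.GDefs
import Pool.Agent.Run7.h954.FP.PReg
import Pool.Agent.Run7.h954.FP.Fin
set_option autoImplicit false

/-!
Tori on the fibrations over products of plane curves, and the regulators.
-/

namespace Pool.Agent.Run7.h954.FP

open Filter Topology

open Pool.Agent.TH826.MK (KQ symb Torus Good Per lw circ lw_mul lw_prod lw_const good_const
  norm_circ pairing good_prod)

open Pool.Agent.TH826.SX (pairing_close good_circ lw_circ circ_ne_zero)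

open Pool.Agent.N65.TL

open Pool.Agent.N65.TD (lev_mk0)

open Pool.Agent.N65.TE (exists_small_root castAdd_ne_natAdd)

open Pool.Agent.TH577.UA (good_pow lw_pow)

open Polynomial

section gpt

variable {K : Type*} [Field K] {B : Type*} [CommRing B] [Algebra K B] {s : ℕ}
  {W : LP K (s + 1)} {Φ : B} {σ : K →+* ℂ}

/-- The complex points of `W(z) = Φ`. -/
structure GPt (σ : K →+* ℂ) (W : LP K (s + 1)) (Φ : B) (e : B →+* ℂ)
    (z : Fin (s + 1) → ℂ) : Prop where
  he : e.comp (algebraMap K B) = σ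
  nez : ∀ i, z i ≠ 0
  eqz : ∑ m ∈ W.coeff.support, σ (W.coeff m) * ∏ i, z i ^ (m i) = e Φ

variable {e : B →+* ℂ} {z : Fin (s + 1) → ℂ}

/-- evaluation on the Laurent polynomials in `z` -/
noncomputable def GPt.evZ (h : GPt σ W Φ e z) : ZRing B s →+* ℂ :=
  lev e fun i => Units.mk0 (z i) (h.nez i)

theorem GPt.evZ_zx (h : GPt σ W Φ e z) (P : B) : h.evZ (zx B s P) = e P := by
  refine (lev_single _ _ 0 P).trans ?_
  rw [mon_zero, Units.val_one, mul_one]

theorem GPt.evZ_W (h : GPt σ W Φ e z) : h.evZ (gW B W) = e Φ := by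
  rw [← h.eqz]
  refine (lev_map e _ (algebraMap K B) W).trans ?_
  rw [h.he]
  exact lev_mk0 h.nez W

/-- evaluation at a point -/
noncomputable def GPt.ev (h : GPt σ W Φ e z) : GRing W Φ →+* ℂ :=
  Ideal.Quotient.lift (gideal W Φ) h.evZ (by
    intro p hp
    have hle : gideal W Φ ≤ RingHom.ker h.evZ := by
      unfold gideal
      rw [Ideal.span_le]
      intro q hq
      rw [Set.mem_singleton_iff] at hq
      subst hq
      show h.evZ _ = 0
      rw [map_sub, h.evZ_W, h.evZ_zx, sub_self]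
    exact hle hp)

theorem GPt.ev_mk (h : GPt σ W Φ e z) (P : ZRing B s) : h.ev (gmk W Φ P) = h.evZ P :=
  Ideal.Quotient.lift_mk _ _ _

theorem GPt.ev_b (h : GPt σ W Φ e z) (P : B) : h.ev (gb W Φ P) = e P := by
  unfold gb
  rw [RingHom.comp_apply, h.ev_mk, h.evZ_zx]

theorem GPt.ev_cst (h : GPt σ W Φ e z) (c : K) : h.ev (gcst W Φ c) = σ c := by
  unfold gcst
  rw [RingHom.comp_apply, h.ev_b]
  exact RingHom.congr_fun h.he c

theorem GPt.ev_z (h : GPt σ W Φ e z) (i : Fin (s + 1)) : h.ev (gz W Φ i : GRing W Φ) = z i := by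
  show h.ev (gmk W Φ (((zlau i : (LP B (s + 1))ˣ) : LP B (s + 1)) : ZRing B s)) = _
  rw [h.ev_mk]
  refine (lev_single _ _ (Pi.single i 1) 1).trans ?_
  rw [map_one, one_mul, mon_single, Units.val_mk0]

theorem GPt.congr {e' : B →+* ℂ} {z' : Fin (s + 1) → ℂ} (h : GPt σ W Φ e z)
    (h' : GPt σ W Φ e' z') (hx : e = e') (hz : z = z') : h.ev = h'.ev := by
  subst hx
  subst hz
  rfl

/-- a torus -/
noncomputable def mkG {D : ℕ} {E : (Fin D → ℝ) → B →+* ℂ} {Z : Fin (s + 1) → (Fin D → ℝ) → ℂ}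
    (hX : ∀ b, ContDiff ℝ 2 fun θ => E θ b) (hZ : ∀ i, Good (Z i))
    (h : ∀ θ, GPt σ W Φ (E θ) (fun i => Z i θ))
    (hXp : ∀ θ j, E (θ + Pi.single j 1) = E θ) (hZp : ∀ i, Per (Z i)) :
    Torus (GRing W Φ) D where
  e θ := (h θ).ev
  smooth b := by
    obtain ⟨P, rfl⟩ : ∃ P : LP B (s + 1), gmk W Φ (P : ZRing B s) = b :=
      Ideal.Quotient.mk_surjective b
    have e1 : (fun θ => (h θ).ev (gmk W Φ (P : ZRing B s))) = fun θ =>
        ∑ m ∈ P.coeff.support, E θ (P.coeff m) * ∏ i, Z i θ ^ (m i) := by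
      funext θ
      refine ((h θ).ev_mk _).trans ((lev_eq _ _ P).trans (Finset.sum_congr rfl fun m _ => ?_))
      congr 1
      unfold mon
      rw [Units.coe_prod]
      exact Finset.prod_congr rfl fun i _ => by rw [Units.val_zpow_eq_zpow_val, Units.val_mk0]
    rw [e1]
    exact ContDiff.sum fun m _ => (hX _).mul (contDiff_prod fun i _ => contDiff_zpow' (hZ i) _)
  periodic θ j := GPt.congr _ _ (hXp θ j) (funext fun i => hZp i θ j)

end gpt

section opt

variable {K : Type*} [Field K] {N : ℕ} {σ : K →+* ℂ} {D : Data K N}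

/-- The complex points of the open part of the product of the curves. -/
structure OPt (σ : K →+* ℂ) (D : Data K N) (p : Fin N → ℂ × ℂ) : Prop where
  curve : ∀ k, ev2 σ (p k).1 (p k).2 (D.H k) = 0
  ne : ∀ k i, ev2 σ (p k).1 (p k).2 (D.L k i) ≠ 0

/-- the coordinates -/
noncomputable def ocrd (σ : K →+* ℂ) (D : Data K N) (p : Fin N → ℂ × ℂ)
    (i : Option (Fin N × Bool)) : ℂ :=
  i.elim (∏ k, ∏ i, ev2 σ (p k).1 (p k).2 (D.L k i))⁻¹ fun i => crd p i

/-- evaluation of polynomials -/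
noncomputable def opev (σ : K →+* ℂ) (D : Data K N) (p : Fin N → ℂ × ℂ) :
    MvPolynomial (Option (Fin N × Bool)) K →+* ℂ := MvPolynomial.eval₂Hom σ (ocrd σ D p)

theorem opev_emb (p : Fin N → ℂ × ℂ) (k : Fin N) (P : K[X][X]) :
    opev σ D p (oemb k P) = ev2 σ (p k).1 (p k).2 P := by
  rw [ev_oemb]
  have h1 : (opev σ D p).comp MvPolynomial.C = σ := by
    ext c
    simp [opev]
  have h2 : opev σ D p (MvPolynomial.X (some (k, false))) = (p k).1 := by
    simp [opev, ocrd, crd]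
  have h3 : opev σ D p (MvPolynomial.X (some (k, true))) = (p k).2 := by
    simp [opev, ocrd, crd]
  rw [h1, h2, h3]

variable {p : Fin N → ℂ × ℂ}

/-- evaluation at a point -/
noncomputable def OPt.ev (h : OPt σ D p) : D.BRing →+* ℂ :=
  Ideal.Quotient.lift (Ideal.span D.ogens) (opev σ D p) (by
    intro q hq
    have hle : Ideal.span D.ogens ≤ RingHom.ker (opev σ D p) := by
      rw [Ideal.span_le]
      intro q hq
      rcases hq with rfl | ⟨k, rfl⟩
      · show opev σ D p _ = 0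
        rw [map_sub, map_mul, map_prod, map_one]
        simp only [map_prod, opev_emb]
        have h1 : opev σ D p (MvPolynomial.X none) =
          (∏ k, ∏ i, ev2 σ (p k).1 (p k).2 (D.L k i))⁻¹ := by simp [opev, ocrd]
        rw [h1, inv_mul_cancel₀, sub_self]
        exact Finset.prod_ne_zero_iff.2 fun k _ => Finset.prod_ne_zero_iff.2 fun i _ => h.ne k i
      · show opev σ D p _ = 0
        rw [opev_emb, h.curve]
    exact hle hq)

theorem OPt.ev_mk (h : OPt σ D p) (P : MvPolynomial (Option (Fin N × Bool)) K) :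
    h.ev (D.bmk P) = opev σ D p P := Ideal.Quotient.lift_mk _ _ _

theorem OPt.ev_cst (h : OPt σ D p) : h.ev.comp (algebraMap K D.BRing) = σ := by
  refine RingHom.ext fun c => ?_
  have h1 : algebraMap K D.BRing c = D.bmk (MvPolynomial.C c) := rfl
  rw [RingHom.comp_apply, h1, h.ev_mk]
  simp [opev]

theorem OPt.ev_L (h : OPt σ D p) (k : Fin N) (i : Fin (D.r k + 1)) :
    h.ev (D.bL k i : D.BRing) = ev2 σ (p k).1 (p k).2 (D.L k i) := by
  have h1 : ((D.bL k i : (D.BRing)ˣ) : D.BRing) = D.bmk (oemb k (D.L k i)) := rfl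
  rw [h1, h.ev_mk, opev_emb]

theorem OPt.ev_u (h : OPt σ D p) (k : Fin N) (i : Fin (D.r k)) :
    h.ev (D.bu k i : D.BRing) = ev2 σ (p k).1 (p k).2 (D.L k i.succ) ^ D.d k 0 *
      (ev2 σ (p k).1 (p k).2 (D.L k 0) ^ D.d k i.succ)⁻¹ := by
  have h1 := map_units_inv (h.ev : D.BRing →* ℂ) (D.bL k 0 ^ D.d k i.succ)
  unfold Data.bu
  rw [div_eq_mul_inv, Units.val_mul, map_mul]
  congr 1
  · rw [Units.val_pow_eq_pow_val, map_pow, h.ev_L]
  · refine h1.trans ?_
    congr 1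
    show h.ev ((D.bL k 0 ^ D.d k i.succ : (D.BRing)ˣ) : D.BRing) = _
    rw [Units.val_pow_eq_pow_val, map_pow, h.ev_L]

theorem OPt.ev_Phi (h : OPt σ D p) (w : ∀ k, Fin (D.r k + 1) → ℕ) (lam : K) :
    h.ev (D.Phi w lam) = σ lam * ∏ k, ∏ i, ev2 σ (p k).1 (p k).2 (D.L k i) ^ (w k i + 1) := by
  unfold Data.Phi
  rw [map_mul, map_prod]
  simp only [map_prod, map_pow, h.ev_L]
  congr 1
  exact RingHom.congr_fun h.ev_cst lam

theorem OPt.congr {p' : Fin N → ℂ × ℂ} (h : OPt σ D p) (h' : OPt σ D p') (hp : p = p') :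
    h.ev = h'.ev := by
  subst hp
  rfl

theorem contDiff_opt {e : ℕ} {P : (Fin e → ℝ) → Fin N → ℂ × ℂ}
    (hP : ∀ k, ContDiff ℝ 2 fun θ => P θ k) (h : ∀ θ, OPt σ D (P θ)) (b : D.BRing) :
    ContDiff ℝ 2 fun θ => (h θ).ev b := by
  obtain ⟨Q, rfl⟩ : ∃ Q, D.bmk Q = b := Ideal.Quotient.mk_surjective b
  have e1 : (fun θ => (h θ).ev (D.bmk Q)) = fun θ =>
      ∑ d ∈ Q.support, σ (Q.coeff d) * ∏ i ∈ d.support, ocrd σ D (P θ) i ^ (d i) := by
    funext θ
    rw [(h θ).ev_mk]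
    exact MvPolynomial.eval₂_eq _ _ _
  rw [e1]
  refine ContDiff.sum fun d _ => contDiff_const.mul (contDiff_prod fun i _ => ContDiff.pow ?_ _)
  unfold ocrd
  rcases i with _ | i
  · simp only [Option.elim_none]
    have h1 : ∀ k i, ContDiff ℝ 2 fun θ => ev2 σ (P θ k).1 (P θ k).2 (D.L k i) := fun k i =>
      ((contDiff_ev2 σ (D.L k i)).restrict_scalars ℝ).comp (hP k)
    refine ContDiff.inv (contDiff_prod fun k _ => contDiff_prod fun i _ => h1 k i) fun θ => ?_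
    exact Finset.prod_ne_zero_iff.2 fun k _ => Finset.prod_ne_zero_iff.2 fun i _ => (h θ).ne k i
  · simp only [Option.elim_some]
    unfold crd
    by_cases hi : i.2
    · simp only [hi, if_true]
      exact (hP i.1).snd
    · simp only [hi, if_false]
      exact (hP i.1).fst

end opt

section mat

variable {s d : ℕ}

/-- the matrix of the orders of the entries -/
noncomputable def RG (al v : Fin (s + 1) → ℤ) (i0 : Fin (s + 1)) (c e : Fin (d + 1) → ℝ) :
    Matrix (Fin (s + (d + 1) + 1)) (Fin (s + (d + 1) + 1)) ℝ :=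
  (Matrix.fromBlocks (zmat al v i0) (Matrix.of fun i k => (al i : ℝ) * c k) 0
    (Matrix.diagonal e)).submatrix (esum s d).symm (esum s d).symm

variable {al v : Fin (s + 1) → ℤ} {i0 : Fin (s + 1)} {c e : Fin (d + 1) → ℝ}

theorem det_RG : (RG al v i0 c e).det = (zmat al v i0).det * ∏ k, e k := by
  unfold RG
  rw [Matrix.det_submatrix_equiv_self, Matrix.det_fromBlocks_zero₂₁, Matrix.det_diagonal]

theorem RG_z_zero (i : Fin (s + 1)) :
    RG al v i0 c e (esum s d (Sum.inl i)) 0 = (al i : ℝ) / dot al v := by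
  unfold RG
  rw [Matrix.submatrix_apply, Equiv.symm_apply_apply, ← esum_zero (s := s) (d := d),
    Equiv.symm_apply_apply, Matrix.fromBlocks_apply₁₁]
  rfl

theorem RG_u_zero (k : Fin (d + 1)) : RG al v i0 c e (esum s d (Sum.inr k)) 0 = 0 := by
  unfold RG
  rw [Matrix.submatrix_apply, Equiv.symm_apply_apply, ← esum_zero (s := s) (d := d),
    Equiv.symm_apply_apply, Matrix.fromBlocks_apply₂₁]
  rfl

theorem RG_z_succ (i : Fin (s + 1)) (j : Fin (s + (d + 1))) :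
    RG al v i0 c e (esum s d (Sum.inl i)) j.succ =
      al i * (∑ k, if j = Fin.natAdd s k then c k else 0) +
        ∑ l, if j = Fin.castAdd (d + 1) l then (bdir v i0 l i : ℝ) else 0 := by
  unfold RG
  rw [Matrix.submatrix_apply, Equiv.symm_apply_apply]
  refine Fin.addCases (fun l => ?_) (fun k => ?_) j
  · rw [← esum_castAdd, Equiv.symm_apply_apply, Matrix.fromBlocks_apply₁₁,
      Finset.sum_eq_zero (s := Finset.univ) (f := fun k => if Fin.castAdd (d + 1) l =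
        Fin.natAdd s k then c k else 0) (fun k _ => if_neg (castAdd_ne_natAdd l k)), mul_zero,
      zero_add, Finset.sum_eq_single l]
    · rw [if_pos rfl]
      rfl
    · intro l' _ hl'
      rw [if_neg fun h => hl' (Fin.castAdd_injective _ _ h).symm]
    · intro h
      exact absurd (Finset.mem_univ _) h
  · rw [← esum_natAdd, Equiv.symm_apply_apply, Matrix.fromBlocks_apply₁₂,
      Finset.sum_eq_zero (s := Finset.univ) (f := fun l => if Fin.natAdd s k =
        Fin.castAdd (d + 1) l then (bdir v i0 l i : ℝ) else 0)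
        (fun l _ => if_neg (fun h => castAdd_ne_natAdd l k h.symm)), add_zero,
      Finset.sum_eq_single k]
    · rw [if_pos rfl]
      rfl
    · intro k' _ hk'
      rw [if_neg fun h => hk' (Fin.natAdd_injective _ _ h).symm]
    · intro h
      exact absurd (Finset.mem_univ _) h

theorem RG_u_succ (k : Fin (d + 1)) (j : Fin (s + (d + 1))) :
    RG al v i0 c e (esum s d (Sum.inr k)) j.succ = if j = Fin.natAdd s k then e k else 0 := by
  unfold RG
  rw [Matrix.submatrix_apply, Equiv.symm_apply_apply]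
  refine Fin.addCases (fun l => ?_) (fun k' => ?_) j
  · rw [← esum_castAdd, Equiv.symm_apply_apply, Matrix.fromBlocks_apply₂₁,
      if_neg (castAdd_ne_natAdd l k)]
    rfl
  · rw [← esum_natAdd, Equiv.symm_apply_apply, Matrix.fromBlocks_apply₂₂, Matrix.diagonal_apply]
    by_cases h : k = k'
    · rw [if_pos h, if_pos (by rw [h])]
    · rw [if_neg h, if_neg fun h' => h (Fin.natAdd_injective _ _ h').symm]

end mat

/-- The regulators of the symbols are asymptotic to a diagonal matrix. -/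
theorem exists_gtori {K : Type*} [Field K] {s d : ℕ} (D : Data K (d + 1))
    (w : ∀ k, Fin (D.r k + 1) → ℕ) (σ : K →+* ℂ) (hz : D.Zeros σ) {W : LP K (s + 1)}
    {al v : Fin (s + 1) → ℤ} (hv : W.coeff v ≠ 0) (hpos : 0 < dot al v)
    (hmax : ∀ m, W.coeff m ≠ 0 → m ≠ v → dot al m < dot al v) (i0 : Fin (s + 1)) {ε : ℝ}
    (hε : 0 < ε) : ∃ C : ℝ, ∀ lam : K, C ≤ ‖σ lam‖ →
      ∃ Γ : (∀ k, Fin (D.r k)) → Torus (D.FibRing W w lam) (s + (d + 1)),
        (∀ T θ (x : K), (Γ T).e θ (D.fcst W w lam x) = σ x) ∧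
        ∀ T T', |(Γ T).reg (D.fsym W w lam T') / Real.log ‖σ lam‖ -
          (2 * Real.pi) ^ (s + (d + 1)) * (if T = T' then
            (zmat al v i0).det * ∏ k, (-(((dot al v).toNat : ℝ) * D.d k 0)) else 0)| ≤ ε := by
  classical
  have hpi := Real.pi_pos
  have hnpi : ‖(2 * Real.pi * Complex.I : ℂ)‖ = 2 * Real.pi := by
    rw [norm_mul, norm_mul, Complex.norm_I, Complex.norm_real, Complex.norm_ofNat, mul_one,
      Real.norm_eq_abs, abs_of_pos Real.pi_pos]
  set k1 : ℕ := (dot al v).toNat with hk1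
  have hk1z : (k1 : ℤ) = dot al v := Int.toNat_of_nonneg hpos.le
  have hk10 : 0 < k1 := by omega
  have hk1R : (1 : ℝ) ≤ k1 := by exact_mod_cast hk10
  have hk1zR : ((dot al v : ℤ) : ℝ) = k1 := by
    rw [← hk1z]
    simp
  have hσv : σ (W.coeff v) ≠ 0 := (map_ne_zero σ).2 hv
  -- the matrices
  set eo : (∀ k, Fin (D.r k)) → (∀ k, Fin (D.r k)) → Fin (d + 1) → ℝ := fun T T' k =>
    if T k = T' k then -((k1 : ℝ) * D.d k 0) else 0 with heo
  set cc : (∀ k, Fin (D.r k)) → Fin (d + 1) → ℝ := fun T k =>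
    -((w k (T k).succ : ℝ) + 1) with hcc
  have hdet : ∀ T T', (RG al v i0 (cc T) (eo T T')).det = if T = T' then
      (zmat al v i0).det * ∏ k, (-((k1 : ℝ) * D.d k 0)) else 0 := by
    intro T T'
    rw [det_RG]
    split_ifs with h
    · subst h
      simp only [heo, if_true]
    · obtain ⟨k, hk⟩ : ∃ k, T k ≠ T' k := by
        by_contra hcon
        push Not at hcon
        exact h (funext hcon)
      rw [Finset.prod_eq_zero (Finset.mem_univ k) (by simp only [heo, if_neg hk]), mul_zero]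
  choose δ hδ hclose using fun q : (∀ k, Fin (D.r k)) × (∀ k, Fin (D.r k)) =>
    pairing_close (RG al v i0 (cc q.1) (eo q.1 q.2)) hε
  obtain ⟨δ1, hδ1, hδ1le⟩ := exists_pos_le hδ
  -- the degrees
  obtain ⟨dm, hdm0, hdm⟩ := exists_ge fun q : Σ k, Fin (D.r k + 1) => (D.d q.1 q.2 : ℝ)
  have hdm' : ∀ k i, (D.d k i : ℝ) ≤ dm := fun k i => hdm ⟨k, i⟩
  obtain ⟨wm, hwm0, hwm⟩ := exists_ge fun q : Σ k, Fin (D.r k + 1) => ((w q.1 q.2 : ℝ) + 1)
  have hwm' : ∀ k i, (w k i : ℝ) + 1 ≤ wm := fun k i => hwm ⟨k, i⟩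
  set Aa : ℝ := 1 + ∑ i, |(al i : ℝ)| with hAa
  have hsa : 0 ≤ ∑ i, |(al i : ℝ)| := Finset.sum_nonneg fun i _ => abs_nonneg _
  have hAa1 : 1 ≤ Aa := by linarith
  have hAi : ∀ i, |(al i : ℝ)| ≤ Aa := by
    intro i
    have h2 : |(al i : ℝ)| ≤ ∑ i, |(al i : ℝ)| :=
      Finset.single_le_sum (f := fun i => |(al i : ℝ)|) (fun i _ => abs_nonneg _)
        (Finset.mem_univ i)
    linarith
  set nn : ℝ := (d : ℝ) + 1 with hnn
  have hnn1 : 1 ≤ nn := by
    have : (0 : ℝ) ≤ d := Nat.cast_nonneg' d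
    linarith
  set δ0 : ℝ := δ1 / (8 * (dm + 1) * (Aa * nn)) with hδ0
  have hδ0pos : 0 < δ0 := by positivity
  have hδ0eq : δ0 * (8 * (dm + 1) * (Aa * nn)) = δ1 := by
    rw [hδ0]
    field_simp
  have hAn : 1 ≤ Aa * nn := by nlinarith
  have hδ0le : 2 * (dm * δ0) < δ1 := by
    have h2 : δ0 * (8 * (dm + 1)) ≤ δ0 * (8 * (dm + 1) * (Aa * nn)) := by
      refine mul_le_mul_of_nonneg_left ?_ hδ0pos.le
      exact le_mul_of_one_le_right (by positivity) hAn
    nlinarith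
  have hδ0le' : δ0 + Aa * (nn * δ0) < δ1 := by
    have h2 : δ0 * (8 * (Aa * nn)) ≤ δ0 * (8 * (dm + 1) * (Aa * nn)) := by
      refine mul_le_mul_of_nonneg_left ?_ hδ0pos.le
      refine mul_le_mul_of_nonneg_right ?_ (by positivity)
      linarith
    have h3 : δ0 ≤ δ0 * (Aa * nn) := le_mul_of_one_le_right hδ0pos.le hAn
    nlinarith
  -- the germs
  choose x0 w0 hH hL hJ hne using hz
  choose φ hφc hφ A hAc hA0 hA using fun q : Σ k, Fin (D.r k) =>
    exists_zero_germ σ (H := D.H q.1) (D.L q.1) q.2.succ (hH q.1 q.2) (hL q.1 q.2) (hJ q.1 q.2)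
      (hne q.1 q.2)
  choose rA CA hrA hCA hcomp using fun q : Σ q : (Σ k, Fin (D.r k)), Fin (D.r q.1 + 1) =>
    exists_comp (hAc q.1 q.2) (hA0 q.1 q.2) (B := 2 * Real.pi * k1) (by positivity) hδ0pos
  obtain ⟨ρA, hρA, hρAle⟩ := exists_pos_le hrA
  obtain ⟨C1, hC10, hC1⟩ := exists_ge CA
  have hev : ∀ q : Σ k, Fin (D.r k), ∃ r > 0, ∀ s : ℂ, dist s 0 < r →
      ContDiffAt ℂ 2 (φ q) s ∧ (ev2 σ (φ q s).1 (φ q s).2 (D.H q.1) = 0 ∧
        ∏ j, ev2 σ (φ q s).1 (φ q s).2 (D.L q.1 j) = s) ∧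
      ∀ j, ev2 σ (φ q s).1 (φ q s).2 (D.L q.1 j) = (if j = q.2.succ then s else 1) * A q j s :=
    fun q => Metric.eventually_nhds_iff.1
      (((hφc q).eventually (by norm_num)).and ((hφ q).and (hA q)))
  choose rB hrB hball using hev
  obtain ⟨ρB, hρB, hρBle⟩ := exists_pos_le hrB
  -- the functions `Ψ`
  set Ψ : (Σ k, Fin (D.r k)) → ℂ → ℂ := fun q x => ∏ j, A q j x ^ (w q.1 j + 1) with hΨ
  have hΨc : ∀ q, ContDiffAt ℂ 2 (Ψ q) 0 := fun q =>
    contDiffAt_prod fun j _ => (hAc q j).pow _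
  have hΨ0 : ∀ q, Ψ q 0 ≠ 0 := fun q =>
    Finset.prod_ne_zero_iff.2 fun j _ => pow_ne_zero _ (hA0 q j)
  obtain ⟨η1, hη1, hroot⟩ := exists_small_root hk10 hδ0pos
  choose ρC hρC1 hsm using fun q => exists_sm (E := fun x => Ψ q x / Ψ q 0 - 1)
    (((hΨc q).div_const _).sub contDiffAt_const) (by
      show Ψ q 0 / Ψ q 0 - 1 = 0
      rw [div_self (hΨ0 q), sub_self]) hk10 hη1
  obtain ⟨ρD, hρD0, hρD⟩ := exists_ge ρC
  set ρ : ℝ := 1 + ρD + 1 / ρA + 2 / ρB with hρdef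
  have hρ1 : 1 ≤ ρ := by
    have : 0 < 1 / ρA := by positivity
    have : 0 < 2 / ρB := by positivity
    linarith
  have hρ : 0 < ρ := by linarith
  have hlogρ : 0 ≤ Real.log ρ := Real.log_nonneg hρ1
  have hinv : (ρ⁻¹) ^ k1 ≤ ρ⁻¹ := inv_pow_le hk10 hρ1
  have hinvA : (ρ⁻¹) ^ k1 ≤ ρA := by
    refine hinv.trans ?_
    rw [inv_le_comm₀ hρ hρA, ← one_div]
    have : 0 < 2 / ρB := by positivity
    linarith
  have hinvB : (ρ⁻¹) ^ k1 < ρB := by
    refine hinv.trans_lt ?_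
    rw [inv_lt_comm₀ hρ hρB, ← one_div]
    have h1 : 0 < 1 / ρA := by positivity
    have h2 : 1 / ρB ≤ 2 / ρB := div_le_div_of_nonneg_right (by norm_num) hρB.le
    linarith
  set B1 : ℝ := nn * (wm * (2 * Real.pi)) + nn * δ0 with hB1
  have hB10 : 0 ≤ B1 := by positivity
  obtain ⟨R1, hR1, hz1⟩ := exists_z σ hv hpos hmax i0 hB10 hδ0pos
  -- the angles
  set jk : Fin (d + 1) → Fin (s + (d + 1)) := Fin.natAdd s with hjk
  have hjkinj : Function.Injective jk := fun _ _ h => Fin.natAdd_injective _ _ h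
  -- constants
  obtain ⟨CΨ, hCΨ0, hCΨ⟩ := exists_ge fun q => |Real.log ‖Ψ q 0‖|
  set C2 : ℝ := nn * CΨ + |Real.log ‖σ (W.coeff v)‖| + nn * (wm * Real.log ρ) + nn * δ0 with hC2
  have hC20 : 0 ≤ C2 := by positivity
  have hlogR1 : 0 ≤ Real.log R1 := Real.log_nonneg hR1
  set M : ℝ := k1 * (Real.log R1 + C2) + (Aa * C2 + δ0) / δ0 +
    (2 * (dm * (C1 + k1 * Real.log ρ))) / δ1 + dm * (k1 * Real.log ρ) / δ1 with hM
  have hM1 : 0 ≤ k1 * (Real.log R1 + C2) := by positivity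
  have hM2 : 0 ≤ (Aa * C2 + δ0) / δ0 := by positivity
  have hM3 : 0 ≤ (2 * (dm * (C1 + k1 * Real.log ρ))) / δ1 := by positivity
  have hM4 : 0 ≤ dm * (k1 * Real.log ρ) / δ1 := by positivity
  have hM0 : 0 ≤ M := by positivity
  refine ⟨Real.exp (M + 1), fun lam hlam => ?_⟩
  have hln : 0 < ‖σ lam‖ := (Real.exp_pos _).trans_le hlam
  have hlam0 : σ lam ≠ 0 := norm_pos_iff.1 hln
  set τ : ℝ := Real.log ‖σ lam‖ with hτ
  have hτM : M + 1 ≤ τ := by
    rw [hτ, Real.le_log_iff_exp_le hln]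
    exact hlam
  have hτpos : 0 < τ := by linarith
  have hτ0 : τ ≠ 0 := hτpos.ne'
  -- the parameters
  set S : Fin (d + 1) → (Fin (s + (d + 1)) → ℝ) → ℂ := fun k => sf k1 ρ (jk k) with hS
  have hSg : ∀ k, Good (S k) := fun k => good_sf hρ
  have hSn : ∀ k θ, ‖S k θ‖ = (ρ⁻¹) ^ k1 := fun k θ => norm_sf hρ θ
  have hSlw : ∀ k j θ, ‖lw (S k) j θ‖ ≤ 2 * Real.pi * k1 := fun k j θ => lw_sf_le hρ j θ
  have hSper : ∀ k θ j, S k (θ + Pi.single j 1) = S k θ := fun k θ j => sf_add_single θ j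
  have hSlw' : ∀ k j θ, lw (S k) j θ = 2 * Real.pi * Complex.I *
      (if j = jk k then -(k1 : ℂ) else 0) := by
    intro k j θ
    have e : S k = fun θ => circ ρ (θ (jk k)) ^ (-(k1 : ℤ)) := by
      funext θ
      simp only [hS]
      unfold sf
      rw [zpow_neg, zpow_natCast, inv_pow]
    rw [e, lw_zpow (good_circ hρ (jk k)), lw_circ hρ]
    split_ifs
    · push_cast
      ring
    · ring
  have hballs : ∀ k θ, dist (S k θ) 0 < ρB := fun k θ => by
    rw [dist_zero_right, hSn]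
    exact hinvB
  -- the points
  set P : (∀ k, Fin (D.r k)) → (Fin (s + (d + 1)) → ℝ) → Fin (d + 1) → ℂ × ℂ := fun T θ k =>
    φ ⟨k, T k⟩ (S k θ) with hP
  have hPc : ∀ (T : ∀ k, Fin (D.r k)) k, ContDiff ℝ 2 fun θ => P T θ k := by
    intro T k
    rw [contDiff_iff_contDiffAt]
    intro θ
    exact (((hball ⟨k, T k⟩ _ ((hballs k θ).trans_le (hρBle _))).1).restrict_scalars ℝ).comp θ
      (hSg k).smooth.contDiffAt
  have hPper : ∀ T θ j, P T (θ + Pi.single j 1) = P T θ := by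
    intro T θ j
    funext k
    simp only [hP]
    rw [hSper]
  -- the functions `L_j`
  have hval : ∀ (T : ∀ k, Fin (D.r k)) θ k (j : Fin (D.r k + 1)), ev2 σ (P T θ k).1 (P T θ k).2 (D.L k j) =
      (if j = (T k).succ then S k θ else 1) * A ⟨k, T k⟩ j (S k θ) := fun T θ k j =>
    (hball ⟨k, T k⟩ _ ((hballs k θ).trans_le (hρBle _))).2.2 j
  have hcomp' : ∀ (T : ∀ k, Fin (D.r k)) k (j : Fin (D.r k + 1)), Good (fun θ => A ⟨k, T k⟩ j (S k θ)) ∧
      (∀ θ, |Real.log ‖A ⟨k, T k⟩ j (S k θ)‖| ≤ C1) ∧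
      ∀ i θ, ‖lw (fun θ => A ⟨k, T k⟩ j (S k θ)) i θ‖ ≤ δ0 := by
    intro T k j
    obtain ⟨a1, a2, a3⟩ := hcomp ⟨⟨k, T k⟩, j⟩ (s + (d + 1)) (S k) (hSg k)
      (fun θ => by
        rw [hSn]
        exact hinvA.trans (hρAle ⟨⟨k, T k⟩, j⟩))
      (fun i θ => hSlw k i θ)
    exact ⟨a1, fun θ => (a2 θ).trans (hC1 ⟨⟨k, T k⟩, j⟩), a3⟩
  have hg : ∀ (T : ∀ k, Fin (D.r k)) k (j : Fin (D.r k + 1)),
      Good (fun θ => ev2 σ (P T θ k).1 (P T θ k).2 (D.L k j)) ∧
      (∀ θ, |Real.log ‖ev2 σ (P T θ k).1 (P T θ k).2 (D.L k j)‖ -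
        (if j = (T k).succ then Real.log ‖S k θ‖ else 0)| ≤ C1) ∧
      ∀ i θ, ‖lw (fun θ => ev2 σ (P T θ k).1 (P T θ k).2 (D.L k j)) i θ -
        (if j = (T k).succ then lw (S k) i θ else 0)‖ ≤ δ0 := by
    intro T k j
    have hval' : (fun θ => ev2 σ (P T θ k).1 (P T θ k).2 (D.L k j)) = fun θ =>
        (if j = (T k).succ then S k θ else 1) * A ⟨k, T k⟩ j (S k θ) := by
      funext θ
      exact hval T θ k j
    obtain ⟨a1, a2, a3⟩ := hcomp' T k j
    by_cases hj : j = (T k).succ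
    · simp only [if_pos hj] at hval' ⊢
      rw [hval']
      refine ⟨(hSg k).mul a1, fun θ => ?_, fun i θ => ?_⟩
      · have h1 : ev2 σ (P T θ k).1 (P T θ k).2 (D.L k j) = S k θ * A ⟨k, T k⟩ j (S k θ) :=
          congrFun hval' θ
        rw [h1, norm_mul, Real.log_mul (norm_ne_zero_iff.2 ((hSg k).ne_zero θ))
          (norm_ne_zero_iff.2 (a1.ne_zero θ)), add_sub_cancel_left]
        exact a2 θ
      · rw [lw_mul (hSg k) a1, add_sub_cancel_left]
        exact a3 i θ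
    · simp only [if_neg hj, one_mul] at hval' ⊢
      rw [hval']
      refine ⟨a1, fun θ => ?_, fun i θ => ?_⟩
      · have h1 : ev2 σ (P T θ k).1 (P T θ k).2 (D.L k j) = A ⟨k, T k⟩ j (S k θ) :=
          congrFun hval' θ
        rw [h1, sub_zero]
        exact a2 θ
      · rw [sub_zero]
        exact a3 i θ
  have hOpt : ∀ (T : ∀ k, Fin (D.r k)) θ, OPt σ D (P T θ) := fun T θ =>
    ⟨fun k => (hball ⟨k, T k⟩ _ ((hballs k θ).trans_le (hρBle _))).2.1.1,
      fun k j => (hg T k j).1.ne_zero θ⟩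
  have hPhi : ∀ (T : ∀ k, Fin (D.r k)) θ, (hOpt T θ).ev (D.Phi w lam) = σ lam * ∏ k,
      (S k θ ^ (w k (T k).succ + 1) * Ψ ⟨k, T k⟩ (S k θ)) := by
    intro T θ
    rw [(hOpt T θ).ev_Phi]
    congr 1
    refine Finset.prod_congr rfl fun k _ => ?_
    simp only [hΨ]
    rw [Finset.prod_congr rfl fun j _ => by rw [hval T θ k j, mul_pow], Finset.prod_mul_distrib]
    congr 1
    rw [Finset.prod_eq_single (T k).succ]
    · rw [if_pos rfl]
    · intro j _ hj
      rw [if_neg hj, one_pow]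
    · intro h
      exact absurd (Finset.mem_univ _) h
  -- the roots
  have hg1 : ∀ (T : ∀ k, Fin (D.r k)) k, ∃ g : (Fin (s + (d + 1)) → ℝ) → ℂ, Good g ∧
      (∀ θ θ', Ψ ⟨k, T k⟩ (S k θ) / Ψ ⟨k, T k⟩ 0 - 1 =
        Ψ ⟨k, T k⟩ (S k θ') / Ψ ⟨k, T k⟩ 0 - 1 → g θ = g θ') ∧
      (∀ θ, |Real.log ‖g θ‖| ≤ δ0) ∧ (∀ j θ, ‖lw g j θ‖ ≤ δ0) ∧
      ∀ θ, g θ ^ k1 = 1 + (Ψ ⟨k, T k⟩ (S k θ) / Ψ ⟨k, T k⟩ 0 - 1) := by
    intro T k
    have h1 := hsm ⟨k, T k⟩ ρ ((hρD ⟨k, T k⟩).trans (by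
      have : 0 < 1 / ρA := by positivity
      have : 0 < 2 / ρB := by positivity
      linarith)) (s + (d + 1)) (jk k)
    exact hroot (s + (d + 1)) (fun θ => Ψ ⟨k, T k⟩ (S k θ) / Ψ ⟨k, T k⟩ 0 - 1) h1.1 h1.2.1 h1.2.2
  choose g hgg hgdep hglog hglw hgeq using hg1
  have hκex : ∀ T : (∀ k, Fin (D.r k)), ∃ κ : ℂ,
      κ ^ k1 = σ lam * (∏ k, Ψ ⟨k, T k⟩ 0) / σ (W.coeff v) := fun T =>
    IsAlgClosed.exists_pow_nat_eq _ hk10
  choose κ hκ using hκex
  have hΨp0 : ∀ T : (∀ k, Fin (D.r k)), ∏ k, Ψ ⟨k, T k⟩ 0 ≠ 0 := fun T =>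
    Finset.prod_ne_zero_iff.2 fun k _ => hΨ0 _
  have hκ0 : ∀ (T : ∀ k, Fin (D.r k)), κ T ≠ 0 := by
    intro T h0
    have h1 := hκ T
    rw [h0, zero_pow hk10.ne'] at h1
    exact (div_ne_zero (mul_ne_zero hlam0 (hΨp0 T)) hσv) h1.symm
  set cz : (∀ k, Fin (D.r k)) → Fin (d + 1) → (Fin (s + (d + 1)) → ℝ) → ℂ := fun T k θ =>
    circ ρ (θ (jk k)) ^ (-((w k (T k).succ + 1 : ℕ) : ℤ)) with hcz
  have hczg : ∀ (T : ∀ k, Fin (D.r k)) k, Good (cz T k) := fun T k => good_zpow (good_circ hρ (jk k)) _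
  set Λ : (∀ k, Fin (D.r k)) → (Fin (s + (d + 1)) → ℝ) → ℂ := fun T θ =>
    κ T * (∏ k ∈ Finset.univ, (cz T k θ * g T k θ)) with hΛ
  have hcgg : ∀ (T : ∀ k, Fin (D.r k)) k, Good fun θ => cz T k θ * g T k θ := fun T k => (hczg T k).mul (hgg T k)
  have hpg : ∀ (T : ∀ k, Fin (D.r k)), Good fun θ => ∏ k ∈ Finset.univ, (cz T k θ * g T k θ) := fun T =>
    good_prod Finset.univ fun k => hcgg T k
  have hΛg : ∀ (T : ∀ k, Fin (D.r k)), Good (Λ T) := fun T => (good_const (hκ0 T)).mul (hpg T)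
  have hΛp : ∀ (T : ∀ k, Fin (D.r k)), Per (Λ T) := by
    intro T θ j
    have h1 : ∀ k, g T k (θ + Pi.single j 1) = g T k θ := fun k => hgdep T k _ _ (by
      rw [hSper])
    have h2 : ∀ k, cz T k (θ + Pi.single j 1) = cz T k θ := by
      intro k
      have h3 : circ ρ ((θ + Pi.single j 1 : Fin (s + (d + 1)) → ℝ) (jk k)) =
        circ ρ (θ (jk k)) := per_circ ρ (jk k) θ j
      simp only [hcz]
      rw [h3]
    simp only [hΛ, h1, h2]
  have hlogcz : ∀ (T : ∀ k, Fin (D.r k)) k θ, |Real.log ‖cz T k θ‖| ≤ wm * Real.log ρ := by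
    intro T k θ
    simp only [hcz]
    rw [norm_zpow, norm_circ hρ.le, Real.log_zpow, abs_mul, abs_of_nonneg hlogρ]
    refine mul_le_mul_of_nonneg_right ?_ hlogρ
    have h1 : |((-((w k (T k).succ + 1 : ℕ) : ℤ) : ℤ) : ℝ)| = (w k (T k).succ : ℝ) + 1 := by
      push_cast
      rw [abs_of_nonpos (by
        have : (0 : ℝ) ≤ w k (T k).succ := Nat.cast_nonneg' _
        linarith)]
      ring
    rw [h1]
    exact hwm' k _
  have hΛlog : ∀ (T : ∀ k, Fin (D.r k)) θ, |Real.log ‖Λ T θ‖ - τ / k1| ≤ C2 := by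
    intro T θ
    have h1 : Real.log ‖Λ T θ‖ = Real.log ‖κ T‖ + ∑ k, (Real.log ‖cz T k θ‖ +
        Real.log ‖g T k θ‖) := by
      simp only [hΛ]
      rw [norm_mul, norm_prod, Real.log_mul (norm_ne_zero_iff.2 (hκ0 T))
        (Finset.prod_ne_zero_iff.2 fun k _ => norm_ne_zero_iff.2 ((hcgg T k).ne_zero θ)),
        Real.log_prod fun k _ => norm_ne_zero_iff.2 ((hcgg T k).ne_zero θ)]
      congr 1
      refine Finset.sum_congr rfl fun k _ => ?_
      rw [norm_mul, Real.log_mul (norm_ne_zero_iff.2 ((hczg T k).ne_zero θ))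
        (norm_ne_zero_iff.2 ((hgg T k).ne_zero θ))]
    have h2 : (k1 : ℝ) * Real.log ‖κ T‖ = τ + ∑ k, Real.log ‖Ψ ⟨k, T k⟩ 0‖ -
        Real.log ‖σ (W.coeff v)‖ := by
      rw [← Real.log_pow, ← norm_pow, hκ, norm_div, norm_mul, norm_prod,
        Real.log_div (mul_ne_zero hln.ne' (Finset.prod_ne_zero_iff.2 fun k _ =>
          norm_ne_zero_iff.2 (hΨ0 _))) (norm_ne_zero_iff.2 hσv),
        Real.log_mul hln.ne' (Finset.prod_ne_zero_iff.2 fun k _ => norm_ne_zero_iff.2 (hΨ0 _)),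
        Real.log_prod fun k _ => norm_ne_zero_iff.2 (hΨ0 _)]
    have h3 : |∑ k, Real.log ‖Ψ ⟨k, T k⟩ 0‖| ≤ nn * CΨ := by
      refine (Finset.abs_sum_le_sum_abs _ _).trans ((Finset.sum_le_sum fun k _ =>
        hCΨ ⟨k, T k⟩).trans (le_of_eq ?_))
      rw [Finset.sum_const, Finset.card_univ, Fintype.card_fin, nsmul_eq_mul, hnn]
      push_cast
      ring
    have h4 : |∑ k, (Real.log ‖cz T k θ‖ + Real.log ‖g T k θ‖)| ≤
        nn * (wm * Real.log ρ) + nn * δ0 := by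
      refine (Finset.abs_sum_le_sum_abs _ _).trans ((Finset.sum_le_sum fun k _ =>
        (abs_add_le _ _).trans (add_le_add (hlogcz T k θ) (hglog T k θ))).trans (le_of_eq ?_))
      rw [Finset.sum_const, Finset.card_univ, Fintype.card_fin, nsmul_eq_mul, hnn]
      push_cast
      ring
    have h5 : Real.log ‖κ T‖ - τ / k1 = (∑ k, Real.log ‖Ψ ⟨k, T k⟩ 0‖ -
        Real.log ‖σ (W.coeff v)‖) / k1 := by
      have hk : (k1 : ℝ) ≠ 0 := by linarith
      field_simp
      linarith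
    have h6 : |Real.log ‖κ T‖ - τ / k1| ≤ nn * CΨ + |Real.log ‖σ (W.coeff v)‖| := by
      rw [h5, abs_div, abs_of_pos (by linarith : (0 : ℝ) < k1)]
      exact (div_le_self (abs_nonneg _) hk1R).trans ((abs_sub _ _).trans (add_le_add h3 le_rfl))
    rw [h1]
    have h7 : Real.log ‖κ T‖ + ∑ k, (Real.log ‖cz T k θ‖ + Real.log ‖g T k θ‖) - τ / k1 =
        (Real.log ‖κ T‖ - τ / k1) + ∑ k, (Real.log ‖cz T k θ‖ + Real.log ‖g T k θ‖) := by ring
    rw [h7]
    refine (abs_add_le _ _).trans ((add_le_add h6 h4).trans (le_of_eq ?_))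
    rw [hC2]
    ring
  have hΛR : ∀ (T : ∀ k, Fin (D.r k)) θ, R1 ≤ ‖Λ T θ‖ := by
    intro T θ
    have h1 := (abs_le.1 (hΛlog T θ)).1
    have h2 : Real.log R1 ≤ Real.log ‖Λ T θ‖ := by
      have h3 : Real.log R1 + C2 ≤ τ / k1 := by
        rw [le_div_iff₀ (by linarith)]
        linarith
      linarith
    exact (Real.log_le_log_iff (by linarith) (norm_pos_iff.2 ((hΛg T).ne_zero θ))).1 h2
  have hlwcz : ∀ (T : ∀ k, Fin (D.r k)) k j θ, lw (cz T k) j θ = 2 * Real.pi * Complex.I *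
      (if j = jk k then (cc T k : ℂ) else 0) := by
    intro T k j θ
    simp only [hcz]
    rw [lw_zpow (good_circ hρ (jk k)), lw_circ hρ]
    split_ifs
    · simp only [hcc]
      push_cast
      ring
    · ring
  have hΛlw : ∀ T j θ, ‖lw (Λ T) j θ - 2 * Real.pi * Complex.I *
      ∑ k, (if j = jk k then (cc T k : ℂ) else 0)‖ ≤ nn * δ0 := by
    intro T j θ
    have h1 : lw (Λ T) j θ = ∑ k, (lw (cz T k) j θ + lw (g T k) j θ) := by
      have h2 := lw_mul (good_const (d := s + (d + 1)) (hκ0 T)) (hpg T) j θ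
      rw [lw_const, zero_add, lw_prod Finset.univ (fun k => hcgg T k)] at h2
      refine h2.trans (Finset.sum_congr rfl fun k _ => ?_)
      exact lw_mul (hczg T k) (hgg T k) j θ
    rw [h1, Finset.mul_sum, ← Finset.sum_sub_distrib]
    refine (norm_sum_le _ _).trans
      ((Finset.sum_le_sum (g := fun _ => δ0) fun k _ => ?_).trans (le_of_eq ?_))
    · have h3 : lw (cz T k) j θ + lw (g T k) j θ - 2 * Real.pi * Complex.I *
          (if j = jk k then (cc T k : ℂ) else 0) = lw (g T k) j θ := by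
        rw [hlwcz]
        ring
      rw [h3]
      exact hglw T k j θ
    · rw [Finset.sum_const, Finset.card_univ, Fintype.card_fin, nsmul_eq_mul, hnn]
      push_cast
      rfl
  have hccle : ∀ (T : ∀ k, Fin (D.r k)) k, |cc T k| ≤ wm := by
    intro T k
    simp only [hcc]
    rw [abs_neg, abs_of_nonneg (by
      have : (0 : ℝ) ≤ w k (T k).succ := Nat.cast_nonneg' _
      linarith)]
    exact hwm' k _
  have hΛB : ∀ T j θ, ‖lw (Λ T) j θ‖ ≤ B1 := by
    intro T j θ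
    have h1 := hΛlw T j θ
    have h2 : ‖2 * Real.pi * Complex.I * ∑ k, (if j = jk k then (cc T k : ℂ) else 0)‖ ≤
        nn * (wm * (2 * Real.pi)) := by
      rw [Finset.mul_sum]
      refine (norm_sum_le _ _).trans
        ((Finset.sum_le_sum (g := fun _ => wm * (2 * Real.pi)) fun k _ => ?_).trans (le_of_eq ?_))
      · rw [norm_mul, hnpi, mul_comm]
        refine mul_le_mul_of_nonneg_right ?_ (by positivity)
        split_ifs
        · rw [Complex.norm_real, Real.norm_eq_abs]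
          exact hccle T k
        · rw [norm_zero]
          exact hwm0
      · rw [Finset.sum_const, Finset.card_univ, Fintype.card_fin, nsmul_eq_mul, hnn]
        push_cast
        rfl
    have h3 := norm_sub_norm_le (lw (Λ T) j θ)
      (2 * Real.pi * Complex.I * ∑ k, (if j = jk k then (cc T k : ℂ) else 0))
    rw [hB1]
    linarith
  have hΛk : ∀ (T : ∀ k, Fin (D.r k)) θ, σ (W.coeff v) * Λ T θ ^ k1 = (hOpt T θ).ev (D.Phi w lam) := by
    intro T θ
    rw [hPhi]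
    simp only [hΛ]
    rw [mul_pow, hκ, ← Finset.prod_pow]
    have h1 : ∀ k, (cz T k θ * g T k θ) ^ k1 = S k θ ^ (w k (T k).succ + 1) *
        Ψ ⟨k, T k⟩ (S k θ) / Ψ ⟨k, T k⟩ 0 := by
      intro k
      have h2 : cz T k θ ^ k1 = S k θ ^ (w k (T k).succ + 1) := by
        simp only [hcz, hS]
        unfold sf
        rw [zpow_neg, zpow_natCast, inv_pow, inv_pow, inv_pow, ← pow_mul, ← pow_mul,
          mul_comm k1]
      have h3 := hΨ0 ⟨k, T k⟩
      rw [mul_pow, h2, hgeq]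
      field_simp
      ring
    rw [Finset.prod_congr rfl fun k _ => h1 k, Finset.prod_div_distrib]
    have h4 := hΨp0 T
    field_simp
  choose Z hZg hZp hZlog hZlw hZeq using fun T => hz1 (s + (d + 1)) (Fin.castAdd (d + 1)) (Λ T)
    (hΛg T) (hΛp T) (hΛR T) (hΛB T)
  have hPt : ∀ (T : ∀ k, Fin (D.r k)) θ, GPt σ W (D.Phi w lam) ((hOpt T θ).ev) (fun i => Z T i θ) := fun T θ =>
    { he := (hOpt T θ).ev_cst
      nez := fun i => (hZg T i).ne_zero θ
      eqz := (hZeq T θ).trans (hΛk T θ) }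
  refine ⟨fun T => mkG (W := W) (Φ := D.Phi w lam) (contDiff_opt (hPc T) (hOpt T)) (hZg T)
    (hPt T) (fun θ j => OPt.congr _ _ (hPper T θ j)) (hZp T),
    fun T θ x => (hPt T θ).ev_cst x, fun T T' => ?_⟩
  rw [← hdet]
  set Γ : Torus (GRing W (D.Phi w lam)) (s + (d + 1)) := mkG (W := W) (Φ := D.Phi w lam)
    (contDiff_opt (hPc T) (hOpt T)) (hZg T)
    (hPt T) (fun θ j => OPt.congr _ _ (hPper T θ j)) (hZp T) with hΓ
  set ent : Fin (s + (d + 1) + 1) → (GRing W (D.Phi w lam))ˣ := fun l =>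
    Sum.elim (gz W (D.Phi w lam)) (fun k => Units.map
      (gb W (D.Phi w lam) : D.BRing →* GRing W (D.Phi w lam)) (D.bu k (T' k)))
      ((esum s d).symm l) with hent
  change |Γ.reg (symb ent) / τ - (2 * Real.pi) ^ (s + (d + 1)) *
    (RG al v i0 (cc T) (eo T T')).det| ≤ ε
  rw [Torus.reg_symb]
  have hzfn : ∀ i, Γ.fn (ent (esum s d (Sum.inl i)) : GRing W (D.Phi w lam)) = Z T i := by
    intro i
    funext θ
    simp only [hent, Equiv.symm_apply_apply, Sum.elim_inl]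
    exact (hPt T θ).ev_z i
  have hfn : ∀ k, Γ.fn (ent (esum s d (Sum.inr k)) : GRing W (D.Phi w lam)) = fun θ =>
      ev2 σ (P T θ k).1 (P T θ k).2 (D.L k (T' k).succ) ^ D.d k 0 *
        (ev2 σ (P T θ k).1 (P T θ k).2 (D.L k 0) ^ D.d k (T' k).succ)⁻¹ := by
    intro k
    funext θ
    simp only [hent, Equiv.symm_apply_apply, Sum.elim_inr]
    refine Eq.trans ?_ ((hOpt T θ).ev_u k (T' k))
    exact (hPt T θ).ev_b (D.bu k (T' k) : D.BRing)
  have h0T : ∀ k, (0 : Fin (D.r k + 1)) ≠ (T k).succ := fun k => (Fin.succ_ne_zero _).symm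
  have hcast : ∀ k, ((T' k).succ = (T k).succ) ↔ T k = T' k := fun k => by
    rw [Fin.succ_inj, eq_comm]
  have hlogS : ∀ k θ, |Real.log ‖S k θ‖| ≤ k1 * Real.log ρ := by
    intro k θ
    rw [hSn, Real.log_pow, Real.log_inv, abs_mul, abs_neg, abs_of_nonneg hlogρ, Nat.abs_cast]
  have hlogu : ∀ k θ, |Real.log ‖Γ.fn (ent (esum s d (Sum.inr k)) : GRing W (D.Phi w lam)) θ‖| ≤
      2 * (dm * (C1 + k1 * Real.log ρ)) := by
    intro k θ
    obtain ⟨g1, l1, -⟩ := hg T k (T' k).succ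
    obtain ⟨g2, l2, -⟩ := hg T k 0
    have l1' := l1 θ
    have l2' := l2 θ
    rw [if_neg (h0T k), sub_zero] at l2'
    have l3 : |Real.log ‖ev2 σ (P T θ k).1 (P T θ k).2 (D.L k (T' k).succ)‖| ≤
        C1 + k1 * Real.log ρ := by
      have h1 : Real.log ‖ev2 σ (P T θ k).1 (P T θ k).2 (D.L k (T' k).succ)‖ =
        (Real.log ‖ev2 σ (P T θ k).1 (P T θ k).2 (D.L k (T' k).succ)‖ -
        (if (T' k).succ = (T k).succ then Real.log ‖S k θ‖ else 0)) +
        (if (T' k).succ = (T k).succ then Real.log ‖S k θ‖ else 0) := by ring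
      rw [h1]
      refine (abs_add_le _ _).trans (add_le_add l1' ?_)
      split_ifs
      · exact hlogS k θ
      · rw [abs_zero]
        positivity
    have l4 : |Real.log ‖ev2 σ (P T θ k).1 (P T θ k).2 (D.L k 0)‖| ≤ C1 + k1 * Real.log ρ := by
      have : 0 ≤ k1 * Real.log ρ := by positivity
      linarith
    rw [congrFun (hfn k) θ, norm_mul, norm_inv, norm_pow, norm_pow,
      Real.log_mul (pow_ne_zero _ (norm_ne_zero_iff.2 (g1.ne_zero θ)))
        (inv_ne_zero (pow_ne_zero _ (norm_ne_zero_iff.2 (g2.ne_zero θ)))), Real.log_inv,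
      Real.log_pow, Real.log_pow, ← sub_eq_add_neg]
    refine (abs_sub _ _).trans ?_
    rw [abs_mul, abs_mul, Nat.abs_cast, Nat.abs_cast]
    have b1 := mul_le_mul (hdm' k 0) l3 (abs_nonneg _) hdm0
    have b2 := mul_le_mul (hdm' k (T' k).succ) l4 (abs_nonneg _) hdm0
    linarith
  have hlwu : ∀ k j θ, ‖lw (Γ.fn (ent (esum s d (Sum.inr k)) : GRing W (D.Phi w lam))) j θ -
      2 * Real.pi * Complex.I * (if j = jk k then (eo T T' k : ℂ) else 0)‖ ≤ 2 * (dm * δ0) := by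
    intro k j θ
    obtain ⟨g1, -, l1⟩ := hg T k (T' k).succ
    obtain ⟨g2, -, l2⟩ := hg T k 0
    have l1' := l1 j θ
    have l2' := l2 j θ
    rw [if_neg (h0T k), sub_zero] at l2'
    rw [hfn, lw_mul (good_pow g1 _) (good_inv (good_pow g2 _)), lw_inv (good_pow g2 _), lw_pow g1,
      lw_pow g2]
    set a := lw (fun θ => ev2 σ (P T θ k).1 (P T θ k).2 (D.L k (T' k).succ)) j θ with ha
    set b := lw (fun θ => ev2 σ (P T θ k).1 (P T θ k).2 (D.L k 0)) j θ with hb
    have e1 : (D.d k 0 : ℂ) * a + -((D.d k (T' k).succ : ℂ) * b) -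
        2 * Real.pi * Complex.I * (if j = jk k then (eo T T' k : ℂ) else 0) =
        (D.d k 0 : ℂ) * (a - (if (T' k).succ = (T k).succ then lw (S k) j θ else 0)) -
        (D.d k (T' k).succ : ℂ) * b := by
      rw [hSlw']
      simp only [heo, hcast]
      split_ifs
      · push_cast
        ring
      · push_cast
        ring
      · push_cast
        ring
      · push_cast
        ring
    rw [e1]
    refine (norm_sub_le _ _).trans ?_
    rw [norm_mul, norm_mul, Complex.norm_natCast, Complex.norm_natCast]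
    have b1 := mul_le_mul (hdm' k 0) l1' (norm_nonneg _) hdm0
    have b2 := mul_le_mul (hdm' k (T' k).succ) l2' (norm_nonneg _) hdm0
    linarith
  have hite : ∀ (P : Prop) [Decidable P] (x : ℝ),
      ((if P then x else 0 : ℝ) : ℂ) = if P then (x : ℂ) else 0 := by
    intro P _ x
    split_ifs <;> simp
  refine hclose (T, T') _ _ hτ0 (fun l => Γ.good _) (fun l θ => ?_) (fun l j θ => ?_)
  · obtain ⟨r, rfl⟩ := (esum s d).surjective l
    rcases r with i | k
    · rw [RG_z_zero, congrFun (hzfn i) θ, hk1zR]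
      refine lt_of_lt_of_le ?_ (hδ1le (T, T'))
      refine lt_of_le_of_lt ?_ hδ0le'
      have h1 := hZlog T i θ
      have h2 := hΛlog T θ
      have h3 : Real.log ‖Z T i θ‖ / τ - al i / k1 =
          ((Real.log ‖Z T i θ‖ - al i * Real.log ‖Λ T θ‖) +
            al i * (Real.log ‖Λ T θ‖ - τ / k1)) / τ := by
        field_simp
        ring
      rw [h3, abs_div, abs_of_pos hτpos, div_le_iff₀ hτpos]
      refine (abs_add_le _ _).trans ?_
      rw [abs_mul]
      have h4 : |(al i : ℝ)| * |Real.log ‖Λ T θ‖ - τ / k1| ≤ Aa * C2 :=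
        mul_le_mul (hAi i) h2 (abs_nonneg _) (by linarith)
      have h5 : (Aa * C2 + δ0) / δ0 ≤ τ := by linarith
      rw [div_le_iff₀ hδ0pos] at h5
      have h6 : τ * δ0 ≤ (δ0 + Aa * (nn * δ0)) * τ := by
        have : 0 ≤ Aa * (nn * δ0) * τ := by positivity
        linarith
      linarith
    · rw [RG_u_zero, sub_zero, abs_div, abs_of_pos hτpos, div_lt_iff₀ hτpos]
      have h1 := hlogu k θ
      have h2 : 2 * (dm * (C1 + k1 * Real.log ρ)) / δ1 < τ := by linarith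
      rw [div_lt_iff₀ hδ1] at h2
      have h3 : δ1 * τ ≤ δ (T, T') * τ := mul_le_mul_of_nonneg_right (hδ1le (T, T')) hτpos.le
      linarith
  · obtain ⟨r, rfl⟩ := (esum s d).surjective l
    rcases r with i | k
    · rw [RG_z_succ, hzfn i]
      refine lt_of_lt_of_le ?_ (hδ1le (T, T'))
      refine lt_of_le_of_lt ?_ hδ0le'
      have h1 := hZlw T i j θ
      have h2 := hΛlw T j θ
      simp only [Complex.ofReal_add, Complex.ofReal_mul, Complex.ofReal_sum, hite,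
        Complex.ofReal_intCast]
      have e1 : lw (Z T i) j θ - 2 * Real.pi * Complex.I *
          (al i * (∑ k, if j = Fin.natAdd s k then (cc T k : ℂ) else 0) +
            ∑ l, if j = Fin.castAdd (d + 1) l then (bdir v i0 l i : ℂ) else 0) =
          (lw (Z T i) j θ - (al i * lw (Λ T) j θ + 2 * Real.pi * Complex.I *
            ∑ l, if j = Fin.castAdd (d + 1) l then (bdir v i0 l i : ℂ) else 0)) +
          al i * (lw (Λ T) j θ - 2 * Real.pi * Complex.I *
            ∑ k, (if j = jk k then (cc T k : ℂ) else 0)) := by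
        ring
      rw [e1]
      refine (norm_add_le _ _).trans ?_
      rw [norm_mul, Complex.norm_intCast]
      have h4 : |(al i : ℝ)| * ‖lw (Λ T) j θ - 2 * Real.pi * Complex.I *
          ∑ k, (if j = jk k then (cc T k : ℂ) else 0)‖ ≤ Aa * (nn * δ0) :=
        mul_le_mul (hAi i) h2 (norm_nonneg _) (by linarith)
      linarith
    · rw [RG_u_succ, hite]
      refine lt_of_lt_of_le (lt_of_le_of_lt ?_ hδ0le) (hδ1le (T, T'))
      exact hlwu k j θ

end Pool.Agent.Run7.h954.FP
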