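import Pool.Agent.Run7.h954.FP.Defs
import Pool.Agent.N65.TE.Unram
set_option autoImplicit false

/-!
Valuations of functions on the curves `H(x, w) = 0`.
-/

namespace Pool.Agent.Run7.h954.FP

open scoped WithZero

open Pool.Agent.TH826.MK

open Pool.Agent.N65.TL

open Pool.Agent.N65.TD

open Polynomial

section ev

variable {K : Type*} [Field K] {L : Type*} [CommRing L]

/-- the value at the point `(x, w)` -/
noncomputable def ev2 (φ : K →+* L) (x w : L) : K[X][X] →+* L :=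
  eval₂RingHom (eval₂RingHom φ x) w

/-- the support -/
noncomputable def sup2 (P : K[X][X]) : Finset (ℕ × ℕ) :=
  open Classical in P.support.biUnion fun j => (P.coeff j).support.image fun i => (i, j)

theorem mem_sup2 {P : K[X][X]} {p : ℕ × ℕ} : p ∈ sup2 P ↔ cf P p.1 p.2 ≠ 0 := by
  classical
  unfold sup2 cf
  rw [Finset.mem_biUnion]
  constructor
  · rintro ⟨j, -, h⟩
    obtain ⟨i, hi, rfl⟩ := Finset.mem_image.1 h
    exact mem_support_iff.1 hi
  · intro h
    refine ⟨p.2, mem_support_iff.2 fun h0 => h (by rw [h0, coeff_zero]), ?_⟩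
    exact Finset.mem_image.2 ⟨p.1, mem_support_iff.2 h, rfl⟩

theorem ev2_eq (φ : K →+* L) (x w : L) (P : K[X][X]) :
    ev2 φ x w P = ∑ p ∈ sup2 P, φ (cf P p.1 p.2) * (x ^ p.1 * w ^ p.2) := by
  classical
  unfold sup2
  rw [Finset.sum_biUnion]
  · show eval₂ (eval₂RingHom φ x) w P = _
    rw [eval₂_eq_sum, Polynomial.sum]
    refine Finset.sum_congr rfl fun j _ => ?_
    rw [Finset.sum_image fun i _ i' _ h => (Prod.ext_iff.1 h).1]
    show eval₂ φ x (P.coeff j) * w ^ j = _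
    rw [eval₂_eq_sum, Polynomial.sum, Finset.sum_mul]
    refine Finset.sum_congr rfl fun i _ => ?_
    unfold cf
    ring
  · intro j _ j' _ hjj
    rw [Function.onFun, Finset.disjoint_left]
    intro p hp hp'
    obtain ⟨i, -, rfl⟩ := Finset.mem_image.1 hp
    obtain ⟨i', -, h⟩ := Finset.mem_image.1 hp'
    exact hjj (Prod.ext_iff.1 h).2.symm

theorem ev2_sub (φ : K →+* L) (x w : L) (P : K[X][X]) (a b : ℕ) :
    ev2 φ x w P = φ (cf P a b) * (x ^ a * w ^ b) +
      ∑ p ∈ (sup2 P).erase (a, b), φ (cf P p.1 p.2) * (x ^ p.1 * w ^ p.2) := by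
  classical
  rw [ev2_eq]
  by_cases h : (a, b) ∈ sup2 P
  · rw [← Finset.add_sum_erase _ _ h]
  · rw [Finset.erase_eq_of_notMem h]
    have h1 : cf P a b = 0 := by
      by_contra h2
      exact h (mem_sup2.2 h2)
    rw [h1, map_zero, zero_mul, zero_add]

end ev

section val

variable {K : Type*} [Field K] {L : Type*} [Field L] (φ : K →+* L) (v : Valuation L ℤᵐ⁰)

theorem val_ev_le {P : K[X][X]} (hP : ∀ i j, IsIntegral ℤ (cf P i j)) {x w : L}
    (hx : v x ≤ 1) (hw : v w ≤ 1) : v (ev2 φ x w P) ≤ 1 := by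
  rw [ev2_eq]
  refine Valuation.map_sum_le v fun p _ => ?_
  rw [map_mul, map_mul, map_pow, map_pow]
  exact mul_le_one' (val_le_one_of_integral v (map_isIntegral_int φ (hP _ _)))
    (mul_le_one' (pow_le_one' hx _) (pow_le_one' hw _))

theorem val_rt {x : K} (h : ∃ k : ℕ, k ≠ 0 ∧ x ^ k = 1) : v (φ x) = 1 := by
  obtain ⟨k, hk, h1⟩ := h
  exact val_root v hk (by rw [← map_pow, h1, map_one])

variable {φ v} {n m : ℕ} {H : K[X][X]}

/-- the values at the poles -/
theorem pole (hH : CurveType n m H) {x w : L} (h0 : ev2 φ x w H = 0)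
    (hxw : ¬ (v x ≤ 1 ∧ v w ≤ 1)) :
    1 < v x ∧ 1 < v w ∧ v w ^ n = v x ^ m ∧
      v (w ^ n + φ (cf H m 0) * x ^ m) < v x ^ m := by
  classical
  have hn := hH.npos
  have hm := hH.mpos
  set M := max (v w ^ n) (v x ^ m) with hM
  have hM1 : 1 < M := by
    rw [not_and_or, not_le, not_le] at hxw
    rcases hxw with h | h
    · exact lt_of_lt_of_le (one_lt_pow₀ h hm.ne') (le_max_right _ _)
    · exact lt_of_lt_of_le (one_lt_pow₀ h hn.ne') (le_max_left _ _)
  have hlow : ∀ i j : ℕ, n * i + m * j < n * m → v x ^ i * v w ^ j < M := by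
    intro i j hij
    by_contra hcon
    rw [not_lt] at hcon
    have h1 : M ^ (n * m) ≤ (v x ^ i * v w ^ j) ^ (n * m) := pow_le_pow_left' hcon _
    have h2 : (v x ^ i * v w ^ j) ^ (n * m) = (v x ^ m) ^ (n * i) * (v w ^ n) ^ (m * j) := by
      rw [mul_pow, ← pow_mul, ← pow_mul, ← pow_mul, ← pow_mul]
      congr 2 <;> ring
    have h3 : (v x ^ m) ^ (n * i) * (v w ^ n) ^ (m * j) ≤ M ^ (n * i + m * j) := by
      rw [pow_add]
      exact mul_le_mul' (pow_le_pow_left' (le_max_right _ _) _)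
        (pow_le_pow_left' (le_max_left _ _) _)
    have h4 : M ^ (n * i + m * j) < M ^ (n * m) := pow_lt_pow_right₀ hM1 hij
    rw [h2] at h1
    exact absurd (h1.trans h3) (not_le.2 h4)
  have hε := hH.topx
  have hvε : v (φ (cf H m 0)) = 1 := val_rt φ v hε
  set R : L := ∑ p ∈ ((sup2 H).erase (0, n)).erase (m, 0),
    φ (cf H p.1 p.2) * (x ^ p.1 * w ^ p.2) with hR
  have hRM : v R < M := by
    refine Valuation.map_sum_lt v (zero_lt_one.trans hM1).ne' fun p hp => ?_
    have hp1 := Finset.ne_of_mem_erase hp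
    have hp2 := Finset.ne_of_mem_erase (Finset.mem_of_mem_erase hp)
    have hp3 := mem_sup2.1 (Finset.mem_of_mem_erase (Finset.mem_of_mem_erase hp))
    rw [map_mul, map_mul, map_pow, map_pow]
    calc v (φ (cf H p.1 p.2)) * (v x ^ p.1 * v w ^ p.2) ≤ 1 * (v x ^ p.1 * v w ^ p.2) :=
          mul_le_mul' (val_le_one_of_integral v (map_isIntegral_int φ (hH.int _ _))) le_rfl
      _ < M := by
        rw [one_mul]
        exact hlow _ _ (hH.low p.1 p.2 hp2 hp1 hp3)
  have hmn : (m, 0) ∈ (sup2 H).erase (0, n) := by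
    refine Finset.mem_erase.2 ⟨fun h => hm.ne' (Prod.ext_iff.1 h).1, mem_sup2.2 ?_⟩
    intro h
    obtain ⟨k, hk, h1⟩ := hε
    have h' : cf H m 0 = 0 := h
    rw [h', zero_pow hk] at h1
    exact zero_ne_one h1
  have hsum : w ^ n + φ (cf H m 0) * x ^ m = -R := by
    have h1 := ev2_sub φ x w H 0 n
    rw [h0, ← Finset.add_sum_erase _ _ hmn, hH.topw, map_one, one_mul, pow_zero, one_mul] at h1
    simp only [pow_zero, mul_one] at h1
    rw [eq_neg_iff_add_eq_zero, hR, h1]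
    ring
  have hlt : v (w ^ n + φ (cf H m 0) * x ^ m) < M := by
    rw [hsum, Valuation.map_neg]
    exact hRM
  have hvx : v (φ (cf H m 0) * x ^ m) = v x ^ m := by
    rw [map_mul, hvε, one_mul, map_pow]
  have heq : v w ^ n = v x ^ m := by
    by_contra hne
    have h1 : v (w ^ n + φ (cf H m 0) * x ^ m) = max (v (w ^ n)) (v (φ (cf H m 0) * x ^ m)) :=
      Valuation.map_add_of_distinct_val v (by rw [hvx, map_pow]; exact hne)
    rw [hvx, map_pow] at h1
    rw [h1] at hlt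
    exact lt_irrefl _ hlt
  have hMx : M = v x ^ m := by rw [hM, heq, max_self]
  refine ⟨?_, ?_, heq, by rw [← hMx]; exact hlt⟩
  · by_contra h
    rw [not_lt] at h
    have h1 := pow_le_one' h m
    rw [hMx] at hM1
    exact absurd hM1 (not_lt.2 h1)
  · by_contra h
    rw [not_lt] at h
    have h1 := pow_le_one' h n
    rw [hMx, ← heq] at hM1
    exact absurd hM1 (not_lt.2 h1)

theorem lead_lt {F : K[X][X]} (hint : ∀ i j, IsIntegral ℤ (cf F i j)) {a b : ℕ}
    (hF : IsLead n m F a b) (hn : 0 < n) {x w : L} (hx : 1 < v x) (hxw : v w ^ n = v x ^ m) :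
    v (ev2 φ x w F - φ (cf F a b) * (x ^ a * w ^ b)) < v (x ^ a * w ^ b) := by
  have hx0 : 0 < v x := zero_lt_one.trans hx
  have hw0 : v w ≠ 0 := by
    intro h
    rw [h, zero_pow hn.ne'] at hxw
    exact (pow_ne_zero m hx0.ne') hxw.symm
  rw [ev2_sub φ x w F a b, add_sub_cancel_left]
  have h0 : v (x ^ a * w ^ b) ≠ 0 := by
    rw [map_mul, map_pow, map_pow]
    exact mul_ne_zero (pow_ne_zero _ hx0.ne') (pow_ne_zero _ hw0)
  refine Valuation.map_sum_lt v h0 fun p hp => ?_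
  have hp1 := Finset.ne_of_mem_erase hp
  have hp2 := mem_sup2.1 (Finset.mem_of_mem_erase hp)
  have hpw : ∀ i j : ℕ, (v x ^ i * v w ^ j) ^ n = v x ^ (n * i + m * j) := by
    intro i j
    rw [mul_pow, ← pow_mul, ← pow_mul, mul_comm j n, pow_mul (v w), hxw, ← pow_mul, ← pow_add,
      mul_comm i n]
  rw [map_mul]
  calc v (φ (cf F p.1 p.2)) * v (x ^ p.1 * w ^ p.2) ≤ 1 * v (x ^ p.1 * w ^ p.2) :=
        mul_le_mul' (val_le_one_of_integral v (map_isIntegral_int φ (hint _ _))) le_rfl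
    _ < v (x ^ a * w ^ b) := by
      rw [one_mul, map_mul, map_mul, map_pow, map_pow, map_pow, map_pow]
      by_contra hcon
      rw [not_lt] at hcon
      have h1 := pow_le_pow_left' hcon n
      rw [hpw, hpw] at h1
      exact absurd h1 (not_le.2 (pow_lt_pow_right₀ hx (hF.2.2 p.1 p.2 hp1 hp2)))

theorem lead_val {F : K[X][X]} (hint : ∀ i j, IsIntegral ℤ (cf F i j)) {a b : ℕ}
    (hF : IsLead n m F a b) (hn : 0 < n) {x w : L} (hx : 1 < v x) (hxw : v w ^ n = v x ^ m) :
    v (ev2 φ x w F) = v (x ^ a * w ^ b) ∧ 1 < v (ev2 φ x w F) := by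
  have h1 := lead_lt (φ := φ) hint hF hn hx hxw
  have hvε : v (φ (cf F a b)) = 1 := val_rt φ v hF.2.1
  have h2 : v (φ (cf F a b) * (x ^ a * w ^ b)) = v (x ^ a * w ^ b) := by
    rw [map_mul, hvε, one_mul]
  have h3 : v (ev2 φ x w F) = v (x ^ a * w ^ b) := by
    rw [← h2] at h1 ⊢
    have h4 := Valuation.map_add_eq_of_lt_left v h1
    rwa [add_sub_cancel] at h4
  refine ⟨h3, ?_⟩
  rw [h3, map_mul, map_pow, map_pow]
  by_contra hcon
  rw [not_lt] at hcon
  have h4 := pow_le_one' hcon n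
  have hpw : (v x ^ a * v w ^ b) ^ n = v x ^ (n * a + m * b) := by
    rw [mul_pow, ← pow_mul, ← pow_mul, mul_comm b n, pow_mul (v w), hxw, ← pow_mul, ← pow_add,
      mul_comm a n]
  rw [hpw] at h4
  exact absurd h4 (not_le.2 (one_lt_pow₀ hx hF.1.ne'))

end val

end Pool.Agent.Run7.h954.FP
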