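import Pool.Agent.Run7.h954.FP.Sm
import Pool.Agent.Run7.h954.FP.Val
set_option autoImplicit false

/-!
Local parametrisations of plane curves at transversal zeros of functions.
-/

namespace Pool.Agent.Run7.h954.FP

open Filter Topology

open Pool.Agent.TH826.MK

open Pool.Agent.TH826.SX (exists_nice)

open Pool.Agent.N65.TL

open Polynomial

/-- The partial derivative with respect to `x` of a polynomial in `w` whose coefficients are
polynomials in `x`. -/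
noncomputable def dX {K : Type*} [Field K] (P : K[X][X]) : K[X][X] :=
  P.sum fun j a => monomial j (derivative a)

section deriv

variable {K : Type*} [Field K] (σ : K →+* ℂ)

theorem dX_add (P Q : K[X][X]) : dX (P + Q) = dX P + dX Q := by
  unfold dX
  rw [Polynomial.sum_add_index]
  · intro i
    rw [derivative_zero, monomial_zero_right]
  · intro i a b
    rw [derivative_add, map_add]

theorem dX_monomial (j : ℕ) (a : K[X]) : dX (monomial j a) = monomial j (derivative a) := by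
  unfold dX
  rw [Polynomial.sum_monomial_index]
  rw [derivative_zero, monomial_zero_right]

theorem ev2_monomial (x w : ℂ) (j : ℕ) (a : K[X]) :
    ev2 σ x w (monomial j a) = a.eval₂ σ x * w ^ j := by
  unfold ev2
  rw [coe_eval₂RingHom, eval₂_monomial]
  rfl

theorem contDiff_ev2 (P : K[X][X]) : ContDiff ℂ 2 fun p : ℂ × ℂ => ev2 σ p.1 p.2 P := by
  simp only [ev2_eq]
  exact ContDiff.sum fun q _ => contDiff_const.mul ((contDiff_fst.pow _).mul (contDiff_snd.pow _))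

theorem hasFDerivAt_ev2 (P : K[X][X]) (p : ℂ × ℂ) :
    HasFDerivAt (fun p : ℂ × ℂ => ev2 σ p.1 p.2 P)
      (ev2 σ p.1 p.2 (dX P) • ContinuousLinearMap.fst ℂ ℂ ℂ +
        ev2 σ p.1 p.2 (derivative P) • ContinuousLinearMap.snd ℂ ℂ ℂ) p := by
  induction P using Polynomial.induction_on' with
  | add P Q hP hQ =>
    have h := hP.add hQ
    have e : (fun p : ℂ × ℂ => ev2 σ p.1 p.2 (P + Q)) =
        (fun p : ℂ × ℂ => ev2 σ p.1 p.2 P) + fun p : ℂ × ℂ => ev2 σ p.1 p.2 Q := by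
      funext p
      exact map_add (ev2 σ p.1 p.2) P Q
    rw [e]
    refine h.congr_fderiv ?_
    rw [dX_add, derivative_add, map_add, map_add]
    module
  | monomial j a =>
    have e : (fun p : ℂ × ℂ => ev2 σ p.1 p.2 (monomial j a)) =
        fun p : ℂ × ℂ => (a.map σ).eval p.1 * p.2 ^ j := by
      funext p
      rw [ev2_monomial, eval_map]
    rw [e]
    have h1 : HasFDerivAt (fun p : ℂ × ℂ => (a.map σ).eval p.1)
        ((derivative (a.map σ)).eval p.1 • ContinuousLinearMap.fst ℂ ℂ ℂ) p :=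
      ((a.map σ).hasDerivAt p.1).comp_hasFDerivAt p hasFDerivAt_fst
    have h2 : HasFDerivAt (fun p : ℂ × ℂ => p.2 ^ j)
        (((j : ℂ) * p.2 ^ (j - 1)) • ContinuousLinearMap.snd ℂ ℂ ℂ) p :=
      (hasDerivAt_pow j p.2).comp_hasFDerivAt p hasFDerivAt_snd
    refine (h1.mul h2).congr_fderiv ?_
    rw [dX_monomial, ev2_monomial, derivative_monomial, ev2_monomial, derivative_map, eval_map,
      eval_map, eval₂_mul, eval₂_natCast]
    refine ContinuousLinearMap.ext fun q => ?_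
    simp only [add_apply, smul_apply, smul_eq_mul, ContinuousLinearMap.coe_fst',
      ContinuousLinearMap.coe_snd']
    ring

end deriv

/-- The inverse function theorem in the plane. -/
theorem exists_germ2 {f g : ℂ × ℂ → ℂ} (hf : ContDiff ℂ 2 f) (hg : ContDiff ℂ 2 g) {p : ℂ × ℂ}
    (hf0 : f p = 0) (hg0 : g p = 0) {a b c d : ℂ}
    (hfd : HasFDerivAt f (a • ContinuousLinearMap.fst ℂ ℂ ℂ +
      b • ContinuousLinearMap.snd ℂ ℂ ℂ) p)
    (hgd : HasFDerivAt g (c • ContinuousLinearMap.fst ℂ ℂ ℂ +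
      d • ContinuousLinearMap.snd ℂ ℂ ℂ) p) (hdet : a * d - b * c ≠ 0) :
    ∃ φ : ℂ → ℂ × ℂ, ContDiffAt ℂ 2 φ 0 ∧ φ 0 = p ∧
      ∀ᶠ s in 𝓝 (0 : ℂ), f (φ s) = 0 ∧ g (φ s) = s := by
  set Φ : ℂ × ℂ → ℂ × ℂ := fun u => (f u, g u) with hΦ
  have hΦc : ContDiffAt ℂ 2 Φ p := (hf.prodMk hg).contDiffAt
  have hΦ0 : Φ p = 0 := by
    simp only [hΦ]
    rw [hf0, hg0]
    rfl
  set f1 : (ℂ × ℂ) →L[ℂ] (ℂ × ℂ) :=
    (a • ContinuousLinearMap.fst ℂ ℂ ℂ + b • ContinuousLinearMap.snd ℂ ℂ ℂ).prod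
      (c • ContinuousLinearMap.fst ℂ ℂ ℂ + d • ContinuousLinearMap.snd ℂ ℂ ℂ) with hf1
  set D := a * d - b * c with hD
  set f2 : (ℂ × ℂ) →L[ℂ] (ℂ × ℂ) :=
    ((d / D) • ContinuousLinearMap.fst ℂ ℂ ℂ - (b / D) • ContinuousLinearMap.snd ℂ ℂ ℂ).prod
      ((a / D) • ContinuousLinearMap.snd ℂ ℂ ℂ - (c / D) • ContinuousLinearMap.fst ℂ ℂ ℂ) with hf2
  let E : (ℂ × ℂ) ≃L[ℂ] (ℂ × ℂ) := ContinuousLinearEquiv.equivOfInverse f1 f2
    (fun u => by
      refine Prod.ext ?_ ?_ <;>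
      · simp only [hf1, hf2, ContinuousLinearMap.prod_apply, smul_apply, sub_apply,
          add_apply, ContinuousLinearMap.coe_fst', ContinuousLinearMap.coe_snd', smul_eq_mul]
        field_simp
        rw [hD]
        ring)
    (fun u => by
      refine Prod.ext ?_ ?_ <;>
      · simp only [hf1, hf2, ContinuousLinearMap.prod_apply, smul_apply, sub_apply,
          add_apply, ContinuousLinearMap.coe_fst', ContinuousLinearMap.coe_snd', smul_eq_mul]
        field_simp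
        rw [hD]
        ring)
  have hΦd : HasFDerivAt Φ (E : (ℂ × ℂ) →L[ℂ] (ℂ × ℂ)) p := hfd.prodMk hgd
  have hn : (2 : WithTop ℕ∞) ≠ 0 := by norm_num
  set Ψ := hΦc.localInverse hΦd hn with hΨ
  have hΨc : ContDiffAt ℂ 2 Ψ 0 := by
    have := hΦc.to_localInverse hΦd hn
    rwa [hΦ0] at this
  have hΨ0 : Ψ 0 = p := by
    have := hΦc.localInverse_apply_image hΦd hn
    rwa [hΦ0] at this
  have hright : ∀ᶠ ζ in 𝓝 (0 : ℂ × ℂ), Φ (Ψ ζ) = ζ := by
    have := (hΦc.hasStrictFDerivAt' hΦd hn).eventually_right_inverse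
    rwa [hΦ0] at this
  have hin : ContDiff ℂ 2 (fun s : ℂ => ((0, s) : ℂ × ℂ)) := contDiff_const.prodMk contDiff_id
  have hin0 : Tendsto (fun s : ℂ => ((0, s) : ℂ × ℂ)) (𝓝 0) (𝓝 0) :=
    hin.continuous.tendsto' 0 0 rfl
  refine ⟨fun s => Ψ (0, s), ?_, hΨ0, ?_⟩
  · exact ContDiffAt.comp (g := Ψ) (0 : ℂ) hΨc hin.contDiffAt
  · filter_upwards [hin0.eventually hright] with s hs
    exact Prod.ext_iff.1 hs

/-- Parametrisation of a curve at a transversal zero of one of the functions `L_j` by their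
product. -/
theorem exists_zero_germ {K : Type*} [Field K] (σ : K →+* ℂ) {H : K[X][X]} {r : ℕ}
    (L : Fin (r + 1) → K[X][X]) (t : Fin (r + 1)) {x0 w0 : ℂ} (hH : ev2 σ x0 w0 H = 0)
    (hL : ev2 σ x0 w0 (L t) = 0)
    (hJ : ev2 σ x0 w0 (dX H) * ev2 σ x0 w0 (derivative (L t)) -
      ev2 σ x0 w0 (derivative H) * ev2 σ x0 w0 (dX (L t)) ≠ 0)
    (hne : ∀ j, j ≠ t → ev2 σ x0 w0 (L j) ≠ 0) :
    ∃ φ : ℂ → ℂ × ℂ, ContDiffAt ℂ 2 φ 0 ∧
      (∀ᶠ s in 𝓝 (0 : ℂ), ev2 σ (φ s).1 (φ s).2 H = 0 ∧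
        ∏ j, ev2 σ (φ s).1 (φ s).2 (L j) = s) ∧
      ∃ A : Fin (r + 1) → ℂ → ℂ, (∀ j, ContDiffAt ℂ 2 (A j) 0) ∧ (∀ j, A j 0 ≠ 0) ∧
        ∀ᶠ s in 𝓝 (0 : ℂ), ∀ j, ev2 σ (φ s).1 (φ s).2 (L j) = (if j = t then s else 1) * A j s := by
  classical
  set G : ℂ × ℂ → ℂ := fun p => ∏ j ∈ Finset.univ.erase t, ev2 σ p.1 p.2 (L j) with hG
  have hGc : ContDiff ℂ 2 G := contDiff_prod fun j _ => contDiff_ev2 σ (L j)
  have hG0 : G (x0, w0) ≠ 0 := Finset.prod_ne_zero_iff.2 fun j hj =>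
    hne j (Finset.ne_of_mem_erase hj)
  have hprod : ∀ p : ℂ × ℂ, ∏ j, ev2 σ p.1 p.2 (L j) = ev2 σ p.1 p.2 (L t) * G p := fun p =>
    (Finset.mul_prod_erase Finset.univ _ (Finset.mem_univ t)).symm
  have hgd : HasFDerivAt (fun p : ℂ × ℂ => ev2 σ p.1 p.2 (L t) * G p)
      ((G (x0, w0) * ev2 σ x0 w0 (dX (L t))) • ContinuousLinearMap.fst ℂ ℂ ℂ +
        (G (x0, w0) * ev2 σ x0 w0 (derivative (L t))) • ContinuousLinearMap.snd ℂ ℂ ℂ)
      (x0, w0) := by
    have h1 := hasFDerivAt_ev2 σ (L t) (x0, w0)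
    have h2 : HasFDerivAt G (fderiv ℂ G (x0, w0)) (x0, w0) :=
      (hGc.differentiable (by norm_num) _).hasFDerivAt
    refine (h1.mul h2).congr_fderiv ?_
    refine ContinuousLinearMap.ext fun q => ?_
    simp only [add_apply, smul_apply, smul_eq_mul, ContinuousLinearMap.coe_fst',
      ContinuousLinearMap.coe_snd']
    rw [hL]
    ring
  obtain ⟨φ, hφc, hφ0, hφ⟩ := exists_germ2 (contDiff_ev2 σ H)
    ((contDiff_ev2 σ (L t)).mul hGc) (p := (x0, w0)) hH (by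
      show ev2 σ x0 w0 (L t) * G (x0, w0) = 0
      rw [hL, zero_mul]) (hasFDerivAt_ev2 σ H (x0, w0)) hgd (by
      have e : ev2 σ x0 w0 (dX H) * (G (x0, w0) * ev2 σ x0 w0 (derivative (L t))) -
          ev2 σ x0 w0 (derivative H) * (G (x0, w0) * ev2 σ x0 w0 (dX (L t))) =
          G (x0, w0) * (ev2 σ x0 w0 (dX H) * ev2 σ x0 w0 (derivative (L t)) -
          ev2 σ x0 w0 (derivative H) * ev2 σ x0 w0 (dX (L t))) := by ring
      rw [e]
      exact mul_ne_zero hG0 hJ)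
  have hAc : ∀ P : K[X][X], ContDiffAt ℂ 2 (fun s => ev2 σ (φ s).1 (φ s).2 P) 0 := fun P =>
    ContDiffAt.comp (g := fun p : ℂ × ℂ => ev2 σ p.1 p.2 P) (0 : ℂ)
      (contDiff_ev2 σ P).contDiffAt hφc
  have hGφ : ContDiffAt ℂ 2 (fun s => G (φ s)) 0 :=
    ContDiffAt.comp (g := G) (0 : ℂ) hGc.contDiffAt hφc
  have hGφ0 : G (φ 0) ≠ 0 := by rw [hφ0]; exact hG0
  refine ⟨φ, hφc, ?_, fun j s => if j = t then (G (φ s))⁻¹ else ev2 σ (φ s).1 (φ s).2 (L j),
    fun j => ?_, fun j => ?_, ?_⟩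
  · filter_upwards [hφ] with s hs
    refine ⟨hs.1, ?_⟩
    rw [hprod (φ s)]
    exact hs.2
  · by_cases h : j = t
    · simp only [if_pos h]
      exact hGφ.inv hGφ0
    · simp only [if_neg h]
      exact hAc (L j)
  · by_cases h : j = t
    · simp only [if_pos h]
      exact inv_ne_zero hGφ0
    · simp only [if_neg h, hφ0]
      exact hne j h
  · filter_upwards [hφ, hGφ.continuousAt.eventually_ne hGφ0] with s hs hs0 j
    by_cases h : j = t
    · simp only [if_pos h]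
      rw [h, eq_mul_inv_iff_mul_eq₀ hs0]
      exact hs.2
    · simp only [if_neg h]
      rw [one_mul]

/-- Compositions with nonvanishing functions. -/
theorem exists_comp {A : ℂ → ℂ} (hA : ContDiffAt ℂ 2 A 0) (hA0 : A 0 ≠ 0) {B δ : ℝ} (hB : 0 ≤ B)
    (hδ : 0 < δ) : ∃ r C : ℝ, 0 < r ∧ 0 ≤ C ∧ ∀ (D : ℕ) (s : (Fin D → ℝ) → ℂ), Good s →
      (∀ θ, ‖s θ‖ ≤ r) → (∀ j θ, ‖lw s j θ‖ ≤ B) →
      Good (fun θ => A (s θ)) ∧ (∀ θ, |Real.log ‖A (s θ)‖| ≤ C) ∧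
        ∀ j θ, ‖lw (fun θ => A (s θ)) j θ‖ ≤ δ := by
  obtain ⟨C, hC⟩ := exists_nice hA hA0
  obtain ⟨r, hr, hball⟩ := Metric.eventually_nhds_iff.1 hC
  set r' : ℝ := min (r / 2) (δ / (|C| * B + 1)) with hr'
  have hCB : 0 ≤ |C| * B := by positivity
  have hr'0 : 0 < r' := lt_min (by linarith) (div_pos hδ (by linarith))
  refine ⟨r', |C|, hr'0, abs_nonneg _, fun D s hs hsr hsB => ?_⟩
  have hlt : ∀ θ, dist (s θ) 0 < r := fun θ => by
    rw [dist_zero_right]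
    have h1 := (hsr θ).trans (min_le_left _ _)
    linarith
  have hgood : Good (fun θ => A (s θ)) := by
    refine ⟨?_, fun θ => (hball (hlt θ)).2.1⟩
    rw [contDiff_iff_contDiffAt]
    intro θ
    exact ((hball (hlt θ)).1.restrict_scalars ℝ).comp θ hs.smooth.contDiffAt
  refine ⟨hgood, fun θ => (hball (hlt θ)).2.2.1.trans (le_abs_self C), fun j θ => ?_⟩
  obtain ⟨h1, h2, -, h3⟩ := hball (hlt θ)
  have hd : HasFDerivAt s (fderiv ℝ s θ) θ :=
    ((hs.smooth.differentiable (by norm_num)) θ).hasFDerivAt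
  have h4 : HasFDerivAt A ((fderiv ℂ A (s θ)).restrictScalars ℝ) (s θ) :=
    ((h1.differentiableAt (by norm_num)).hasFDerivAt).restrictScalars ℝ
  have h5 := (h4.comp θ hd).fderiv
  have h6 : fderiv ℝ (fun θ => A (s θ)) θ (Pi.single j 1) =
      fderiv ℂ A (s θ) (fderiv ℝ s θ (Pi.single j 1)) :=
    DFunLike.congr_fun h5 (Pi.single j 1)
  have h7 : fderiv ℝ s θ (Pi.single j 1) = s θ * lw s j θ := by
    unfold lw
    rw [mul_div_cancel₀ _ (hs.ne_zero θ)]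
  unfold lw
  rw [h6, norm_div]
  have hpos : 0 < ‖A (s θ)‖ := norm_pos_iff.2 h2
  have h8 : ‖fderiv ℂ A (s θ) (fderiv ℝ s θ (Pi.single j 1))‖ ≤ ‖fderiv ℂ A (s θ)‖ * (r' * B) := by
    refine (ContinuousLinearMap.le_opNorm _ _).trans
      (mul_le_mul_of_nonneg_left ?_ (norm_nonneg _))
    rw [h7, norm_mul]
    exact mul_le_mul (hsr θ) (hsB j θ) (norm_nonneg _) hr'0.le
  calc _ ≤ ‖fderiv ℂ A (s θ)‖ * (r' * B) / ‖A (s θ)‖ := div_le_div_of_nonneg_right h8 hpos.le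
    _ = ‖fderiv ℂ A (s θ)‖ / ‖A (s θ)‖ * (r' * B) := by ring
    _ ≤ |C| * (r' * B) := mul_le_mul_of_nonneg_right (h3.trans (le_abs_self C)) (by positivity)
    _ = r' * (|C| * B) := by ring
    _ ≤ δ / (|C| * B + 1) * (|C| * B) :=
        mul_le_mul_of_nonneg_right (min_le_right _ _) hCB
    _ ≤ δ := by
      rw [div_mul_eq_mul_div, div_le_iff₀ (by linarith)]
      nlinarith

end Pool.Agent.Run7.h954.FP
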