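import Pool.Agent.Run7.h954.FP.Sm
import Pool.Agent.Run7.h954.FP.Reg
set_option autoImplicit false

/-!
Loops around the points at infinity of the curves `H(x, w) = 0`.
-/

namespace Pool.Agent.Run7.h954.FP

open Filter Topology

open Pool.Agent.TH826.MK

open Pool.Agent.TH826.SX (good_circ lw_circ circ_ne_zero)

open Pool.Agent.N65.TL

open Pool.Agent.N65.TE (exists_small_root)

open Polynomial

variable {K : Type*} [Field K] {n m : ℕ} {H : K[X][X]}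

/-- A branch of the curve at infinity: `x = s^(-n)`, `w = κ s^(-m) h(s)`. -/
theorem exists_germ (hH : CurveType n m H) (σ : K →+* ℂ) {κ : ℂ}
    (hκ : κ ^ n = -σ (cf H m 0)) :
    ∃ h : ℂ → ℂ, ContDiffAt ℂ 2 h 0 ∧ h 0 = 1 ∧
      ∀ᶠ s in 𝓝 (0 : ℂ), s ≠ 0 → ev2 σ (s⁻¹ ^ n) (κ * (s⁻¹ ^ m * h s)) H = 0 := by
  classical
  have hn := hH.npos
  have hm := hH.mpos
  have hε0 : cf H m 0 ≠ 0 := by
    intro h
    obtain ⟨k, hk, h1⟩ := hH.topx
    rw [h, zero_pow hk] at h1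
    exact zero_ne_one h1
  have hκn : κ ^ n ≠ 0 := by
    rw [hκ]
    exact neg_ne_zero.2 ((map_ne_zero σ).2 hε0)
  set S := ((sup2 H).erase (0, n)).erase (m, 0) with hS
  obtain ⟨H0, hc, h1, he⟩ := exists_implicit (ι := S) (fun p => (p.1.2 : ℤ)) hn
  have hlow : ∀ p : S, n * p.1.1 + m * p.1.2 < n * m := by
    intro p
    have hp := p.2
    exact hH.low _ _ (Finset.ne_of_mem_erase (Finset.mem_of_mem_erase hp))
      (Finset.ne_of_mem_erase hp) (mem_sup2.1 (Finset.mem_of_mem_erase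
        (Finset.mem_of_mem_erase hp)))
  set x : ℂ → S → ℂ := fun s p => σ (cf H p.1.1 p.1.2) * κ ^ p.1.2 / κ ^ n *
    s ^ (n * m - (n * p.1.1 + m * p.1.2)) with hx
  have hxc : ContDiff ℂ 2 x := contDiff_pi.2 fun p => contDiff_const.mul (contDiff_id.pow _)
  have hx0 : x 0 = 0 := by
    funext p
    simp only [hx]
    rw [zero_pow (by have := hlow p; omega), mul_zero]
    rfl
  refine ⟨fun s => H0 (x s), ?_, ?_, ?_⟩
  · refine ContDiffAt.comp (0 : ℂ) ?_ hxc.contDiffAt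
    rw [hx0]
    exact hc
  · show H0 (x 0) = 1
    rw [hx0, h1]
  · have hcont : Tendsto x (𝓝 0) (𝓝 (0 : S → ℂ)) := by
      have := hxc.continuous.tendsto 0
      rwa [hx0] at this
    filter_upwards [hcont.eventually he] with s hs hs0
    have hmn : (m, 0) ∈ (sup2 H).erase (0, n) :=
      Finset.mem_erase.2 ⟨fun h => hm.ne' (Prod.ext_iff.1 h).1, mem_sup2.2 hε0⟩
    rw [ev2_sub σ _ _ H 0 n, ← Finset.add_sum_erase _ _ hmn, hH.topw, map_one, one_mul, pow_zero,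
      one_mul]
    simp only [pow_zero, mul_one]
    have hsum : ∑ p ∈ S, σ (cf H p.1 p.2) * ((s⁻¹ ^ n) ^ p.1 *
        (κ * (s⁻¹ ^ m * H0 (x s))) ^ p.2) =
        κ ^ n * s⁻¹ ^ (n * m) * ∑ p : S, x s p * H0 (x s) ^ ((p.1.2 : ℕ) : ℤ) := by
      rw [Finset.mul_sum, ← Finset.sum_coe_sort S]
      refine Finset.sum_congr rfl fun p _ => ?_
      have h2 := hlow p
      have h3 : s⁻¹ ^ (n * m) * s ^ (n * m - (n * p.1.1 + m * p.1.2)) =
          s⁻¹ ^ (n * p.1.1) * s⁻¹ ^ (m * p.1.2) := by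
        rw [← pow_add]
        obtain ⟨q, hq⟩ : ∃ q, n * m = n * p.1.1 + m * p.1.2 + q := ⟨_, (Nat.add_sub_of_le h2.le).symm⟩
        rw [hq, Nat.add_sub_cancel_left, pow_add, mul_assoc, ← mul_pow, inv_mul_cancel₀ hs0,
          one_pow, mul_one]
      have hxs : x s p = σ (cf H p.1.1 p.1.2) * κ ^ p.1.2 / κ ^ n *
        s ^ (n * m - (n * p.1.1 + m * p.1.2)) := rfl
      rw [hxs]
      generalize H0 (x s) = y
      have h4 : κ ^ n * (κ ^ n)⁻¹ = 1 := mul_inv_cancel₀ hκn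
      rw [zpow_natCast, mul_pow, mul_pow, ← pow_mul, ← pow_mul, div_eq_mul_inv]
      linear_combination (-(σ (cf H p.1.1 p.1.2) * κ ^ p.1.2 * y ^ p.1.2)) * h3 -
        (σ (cf H p.1.1 p.1.2) * κ ^ p.1.2 * y ^ p.1.2 * s⁻¹ ^ (n * m) *
          s ^ (n * m - (n * p.1.1 + m * p.1.2))) * h4
    have hsum' : ∑ p ∈ ((sup2 H).erase (0, n)).erase (m, 0), σ (cf H p.1 p.2) *
        ((s⁻¹ ^ n) ^ p.1 * (κ * (s⁻¹ ^ m * H0 (x s))) ^ p.2) = _ := hsum
    rw [hsum']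
    have e1 : (s⁻¹ ^ n) ^ m = s⁻¹ ^ (n * m) := (pow_mul _ _ _).symm
    have e2 : (κ * (s⁻¹ ^ m * H0 (x s))) ^ n = κ ^ n * s⁻¹ ^ (n * m) * H0 (x s) ^ n := by
      rw [mul_pow, mul_pow, ← pow_mul, mul_comm m n]
      ring
    have e3 : σ (cf H m 0) = -κ ^ n := by rw [hκ, neg_neg]
    rw [e1, e2, e3]
    linear_combination (κ ^ n * s⁻¹ ^ (n * m)) * hs

/-- The values of `F` near infinity. -/
theorem exists_valF (σ : K →+* ℂ) {κ : ℂ} (hκ : κ ≠ 0) {h : ℂ → ℂ} (hc : ContDiffAt ℂ 2 h 0)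
    (h1 : h 0 = 1) {F : K[X][X]} {a b : ℕ} (hF : IsLead n m F a b) :
    ∃ Φ : ℂ → ℂ, ContDiffAt ℂ 2 Φ 0 ∧ Φ 0 ≠ 0 ∧ ∀ s : ℂ, s ≠ 0 →
      ev2 σ (s⁻¹ ^ n) (κ * (s⁻¹ ^ m * h s)) F = s⁻¹ ^ (n * a + m * b) * Φ s := by
  classical
  have hle : ∀ p ∈ sup2 F, n * p.1 + m * p.2 ≤ n * a + m * b := by
    intro p hp
    by_cases hp1 : (p.1, p.2) = (a, b)
    · rw [(Prod.ext_iff.1 hp1).1, (Prod.ext_iff.1 hp1).2]
    · exact (hF.2.2 p.1 p.2 hp1 (mem_sup2.1 hp)).le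
  refine ⟨fun s => ∑ p ∈ sup2 F, σ (cf F p.1 p.2) * κ ^ p.2 *
    (s ^ ((n * a + m * b) - (n * p.1 + m * p.2)) * h s ^ p.2), ?_, ?_, fun s hs => ?_⟩
  · exact ContDiffAt.sum fun p _ => contDiffAt_const.mul
      ((contDiffAt_id.pow _).mul (hc.pow _))
  · have hab : (a, b) ∈ sup2 F := mem_sup2.2 (by
      intro h0
      obtain ⟨k, hk, h2⟩ := hF.2.1
      have h0' : cf F a b = 0 := h0
      rw [h0', zero_pow hk] at h2
      exact zero_ne_one h2)
    simp only [h1, one_pow, mul_one]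
    rw [Finset.sum_eq_single (a, b)]
    · rw [Nat.sub_self, pow_zero, mul_one]
      exact mul_ne_zero ((map_ne_zero σ).2 (mem_sup2.1 hab)) (pow_ne_zero _ hκ)
    · intro p hp hne
      have h2 := hF.2.2 p.1 p.2 (by simpa using hne) (mem_sup2.1 hp)
      rw [zero_pow (by omega), mul_zero]
    · intro h2
      exact absurd hab h2
  · rw [ev2_eq, Finset.mul_sum]
    refine Finset.sum_congr rfl fun p hp => ?_
    have h2 := hle p hp
    have h3 : s⁻¹ ^ (n * a + m * b) * s ^ ((n * a + m * b) - (n * p.1 + m * p.2)) =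
        s⁻¹ ^ (n * p.1) * s⁻¹ ^ (m * p.2) := by
      rw [← pow_add (s⁻¹) (n * p.1)]
      obtain ⟨q, hq⟩ : ∃ q, n * a + m * b = n * p.1 + m * p.2 + q :=
        ⟨_, (Nat.add_sub_of_le h2).symm⟩
      rw [hq, Nat.add_sub_cancel_left, pow_add, mul_assoc, ← mul_pow, inv_mul_cancel₀ hs,
        one_pow, mul_one]
    rw [mul_pow, mul_pow, ← pow_mul, ← pow_mul]
    linear_combination (-(σ (cf F p.1 p.2) * κ ^ p.2 * h s ^ p.2)) * h3

/-- The loops around infinity. -/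
theorem poleLoops (hH : CurveType n m H) (σ : K →+* ℂ) {F : K[X][X]} {a b : ℕ}
    (hF : IsLead n m F a b) : PoleLoops σ (AdjoinRoot.mk H F) (n * a + m * b) := by
  classical
  intro k hk α hα R η hη
  have hn := hH.npos
  have hpi := Real.pi_pos
  obtain ⟨κ, hκ⟩ := IsAlgClosed.exists_pow_nat_eq (-σ (cf H m 0)) hn
  have hε0 : cf H m 0 ≠ 0 := by
    intro h
    obtain ⟨k, hk, h1⟩ := hH.topx
    rw [h, zero_pow hk] at h1
    exact zero_ne_one h1
  have hκ0 : κ ≠ 0 := by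
    rintro rfl
    rw [zero_pow hn.ne'] at hκ
    exact (neg_ne_zero.2 ((map_ne_zero σ).2 hε0)) hκ.symm
  obtain ⟨h, hc, h1, heq⟩ := exists_germ hH σ hκ
  obtain ⟨Φ, hΦc, hΦ0, hΦ⟩ := exists_valF (n := n) (m := m) σ hκ0 hc h1 hF
  set N := n * a + m * b with hN
  set Φ1 : ℂ → ℂ := fun s => Φ s / Φ 0 - 1 with hΦ1
  have hΦ1c : ContDiffAt ℂ 2 Φ1 0 := (hΦc.div_const _).sub contDiffAt_const
  have hΦ10 : Φ1 0 = 0 := by
    simp only [hΦ1]
    rw [div_self hΦ0, sub_self]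
  obtain ⟨η1, hη1, hroot⟩ := exists_small_root hk hη
  obtain ⟨ρ1, hρ11, hsm⟩ := exists_sm hΦ1c hΦ10 hk hη1
  obtain ⟨κ1, hκ1⟩ := IsAlgClosed.exists_pow_nat_eq (Φ 0 / α) hk
  have hκ10 : κ1 ≠ 0 := by
    rintro rfl
    rw [zero_pow hk.ne'] at hκ1
    exact (div_ne_zero hΦ0 hα) hκ1.symm
  obtain ⟨r, C, hr, hC, hball⟩ := exists_ball hc
  obtain ⟨r', hr', hball'⟩ := Metric.eventually_nhds_iff.1 heq
  set L1 : ℝ := Real.log (max R 1) + |Real.log ‖κ1‖| + η with hL1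
  set ρ : ℝ := ρ1 + 1 / r + 1 / r' + Real.exp L1 with hρdef
  have a2 : 0 < 1 / r := by positivity
  have a3 : 0 < 1 / r' := by positivity
  have a4 := Real.exp_pos L1
  have hρ1 : 1 ≤ ρ := by linarith
  have hρ0 : 0 < ρ := by linarith
  have hkk := inv_pow_le hk hρ1
  have b1 : (ρ⁻¹) ^ k < r := by
    refine hkk.trans_lt ?_
    rw [inv_lt_comm₀ hρ0 hr, ← one_div]
    linarith
  have b2 : (ρ⁻¹) ^ k < r' := by
    refine hkk.trans_lt ?_
    rw [inv_lt_comm₀ hρ0 hr', ← one_div]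
    linarith
  have hlogρ : 0 ≤ Real.log ρ := Real.log_nonneg hρ1
  have hρL : L1 ≤ Real.log ρ := by
    rw [Real.le_log_iff_exp_le hρ0]
    linarith
  -- bounds for `x` and `w`
  set M0 : ℝ := (ρ ^ k) ^ n * (1 + n * (2 * Real.pi * k)) with hM0
  set M1 : ℝ := (ρ ^ k) ^ m * (1 + m * (2 * Real.pi * k)) with hM1
  set M2 : ℝ := C * (1 + 2 * Real.pi * k) with hM2
  set M3 : ℝ := 2 * (‖κ‖ * (2 * (M1 * M2))) with hM3
  set M : ℝ := 1 + M0 + M3 with hM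
  have hρk : 0 < ρ ^ k := by positivity
  have hM00 : 0 ≤ M0 := by positivity
  have hM10 : 0 ≤ M1 := by positivity
  have hM20 : 0 ≤ M2 := by positivity
  have hM30 : 0 ≤ M3 := by positivity
  have hM01 : 1 ≤ M := by linarith
  set MP : K[X][X] → ℝ := fun P => ∑ p ∈ sup2 P, 2 * (‖σ (cf P p.1 p.2)‖ *
    (2 * ((2 * M) ^ p.1 * (2 * M) ^ p.2))) with hMP
  have hMP0 : ∀ P, 0 ≤ MP P := fun P => Finset.sum_nonneg fun p _ => by positivity
  refine ⟨|Real.log ‖κ1‖| + N * Real.log ρ + η,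
    fun c => MP (Function.surjInv AdjoinRoot.mk_surjective c), by positivity, fun c => hMP0 _,
    fun D j0 => ?_⟩
  have hsg := good_sf (k := k) (j0 := j0) hρ0
  set s := sf k ρ j0 with hs
  have hsn : ∀ θ, ‖s θ‖ = (ρ⁻¹) ^ k := fun θ => norm_sf hρ0 θ
  obtain ⟨c1, c2⟩ := sm_comp (j0 := j0) hC hball hρ0 b1
  -- the functions `x` and `w`
  have hinv : Good fun θ => (s θ)⁻¹ := good_inv hsg
  have hX : Sm M0 (fun θ => (s θ)⁻¹ ^ n) := by
    have h2 : Good fun θ => (s θ)⁻¹ ^ n := Pool.Agent.TH577.UA.good_pow hinv n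
    refine sm_good h2 (fun θ => ?_) (by positivity) fun j θ => ?_
    · rw [norm_pow, norm_inv, hsn, ← inv_pow, inv_inv]
    · rw [Pool.Agent.TH577.UA.lw_pow hinv n, lw_inv hsg, norm_mul, norm_neg, Complex.norm_natCast]
      exact mul_le_mul_of_nonneg_left (lw_sf_le hρ0 j θ) (by positivity)
  have hX1 : Sm M1 (fun θ => (s θ)⁻¹ ^ m) := by
    have h2 : Good fun θ => (s θ)⁻¹ ^ m := Pool.Agent.TH577.UA.good_pow hinv m
    refine sm_good h2 (fun θ => ?_) (by positivity) fun j θ => ?_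
    · rw [norm_pow, norm_inv, hsn, ← inv_pow, inv_inv]
    · rw [Pool.Agent.TH577.UA.lw_pow hinv m, lw_inv hsg, norm_mul, norm_neg, Complex.norm_natCast]
      exact mul_le_mul_of_nonneg_left (lw_sf_le hρ0 j θ) (by positivity)
  have hh : Sm M2 (fun θ => h (s θ)) := by
    refine ⟨c1, fun θ => ?_, fun θ j => (c2 θ j).trans ?_⟩
    · have h2 := (hball (s θ) (by rw [hsn]; exact b1)).2.1
      refine h2.trans (le_mul_of_one_le_right hC ?_)
      have : 0 ≤ 2 * Real.pi * k := by positivity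
      linarith
    · refine mul_le_mul_of_nonneg_left ?_ hC
      have h2 : (ρ⁻¹) ^ k ≤ 1 := pow_le_one₀ (by positivity) (inv_le_one_of_one_le₀ hρ1)
      have h3 : 0 ≤ 2 * Real.pi * k := by positivity
      nlinarith
  have hW : Sm M3 (fun θ => κ * ((s θ)⁻¹ ^ m * h (s θ))) := (sm_const κ).mul (hX1.mul hh)
  have hXM : Sm M (fun θ => (s θ)⁻¹ ^ n) := hX.mono (by linarith)
  have hWM : Sm M (fun θ => κ * ((s θ)⁻¹ ^ m * h (s θ))) := hW.mono (by linarith)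
  have hev : ∀ P : K[X][X], Sm (MP P) (fun θ => ev2 σ ((s θ)⁻¹ ^ n)
      (κ * ((s θ)⁻¹ ^ m * h (s θ))) P) := by
    intro P
    simp only [ev2_eq]
    refine sm_sum _ fun p _ => (sm_const _).mul ((hXM.pow hM01 _).mul (hWM.pow hM01 _))
  -- the points
  have h0 : ∀ θ, ev2 σ ((s θ)⁻¹ ^ n) (κ * ((s θ)⁻¹ ^ m * h (s θ))) H = 0 := fun θ =>
    hball' (by rw [dist_zero_right, hsn]; exact b2) (hsg.ne_zero θ)
  set E : (Fin D → ℝ) → AdjoinRoot H →+* ℂ := fun θ =>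
    AdjoinRoot.lift (eval₂RingHom σ ((s θ)⁻¹ ^ n)) (κ * ((s θ)⁻¹ ^ m * h (s θ))) (h0 θ) with hE
  have hEmk : ∀ θ (P : K[X][X]), E θ (AdjoinRoot.mk H P) =
      ev2 σ ((s θ)⁻¹ ^ n) (κ * ((s θ)⁻¹ ^ m * h (s θ))) P := fun θ P =>
    AdjoinRoot.lift_mk (h0 θ) P
  have hEb : ∀ b, (fun θ => E θ b) = fun θ => ev2 σ ((s θ)⁻¹ ^ n)
      (κ * ((s θ)⁻¹ ^ m * h (s θ))) (Function.surjInv AdjoinRoot.mk_surjective b) := by
    intro b
    funext θ
    rw [← hEmk, Function.surjInv_eq AdjoinRoot.mk_surjective b]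
  have hNc : Good fun θ : Fin D → ℝ => circ ρ (θ j0) ^ (N : ℤ) := good_zpow (good_circ hρ0 j0) _
  obtain ⟨g1, hg1, hdep1, hlog1, hlw1, heq1⟩ := hroot D (fun θ => Φ1 (s θ))
    (hsm ρ (by linarith) D j0).1 (hsm ρ (by linarith) D j0).2.1 (hsm ρ (by linarith) D j0).2.2
  set Λ : (Fin D → ℝ) → ℂ := fun θ => κ1 * (circ ρ (θ j0) ^ (N : ℤ) * g1 θ) with hΛ
  have hΛg : Good Λ := (good_const hκ10).mul (hNc.mul hg1)
  have hΛlog : ∀ θ, Real.log ‖Λ θ‖ = Real.log ‖κ1‖ + (N * Real.log ρ + Real.log ‖g1 θ‖) := by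
    intro θ
    simp only [hΛ]
    rw [norm_mul, norm_mul, Real.log_mul (norm_ne_zero_iff.2 hκ10)
      (mul_ne_zero (norm_ne_zero_iff.2 (hNc.ne_zero θ)) (norm_ne_zero_iff.2 (hg1.ne_zero θ))),
      Real.log_mul (norm_ne_zero_iff.2 (hNc.ne_zero θ)) (norm_ne_zero_iff.2 (hg1.ne_zero θ)),
      norm_zpow, norm_circ hρ0.le, Real.log_zpow]
    push_cast
    ring
  have hN1 : (1 : ℝ) ≤ N := by
    have := hF.1
    exact_mod_cast this
  refine ⟨E, Λ, fun θ => ?_, fun b => ?_, fun θ j => ?_, hΛg, fun θ j => ?_, fun θ => ?_,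
    fun θ => ?_, fun j θ => ?_, fun θ => ?_, fun b => ?_⟩
  · refine RingHom.ext fun c => ?_
    have h2 : algebraMap K (AdjoinRoot H) c = AdjoinRoot.mk H (Polynomial.C (Polynomial.C c)) := rfl
    rw [RingHom.comp_apply, h2, hEmk]
    unfold ev2
    rw [coe_eval₂RingHom, eval₂_C, coe_eval₂RingHom, eval₂_C]
  · rw [hEb]
    exact (hev _).1
  · have h2 : s (θ + Pi.single j 1) = s θ := sf_add_single θ j
    simp only [hE, h2]
  · have h2 : s (θ + Pi.single j 1) = s θ := sf_add_single θ j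
    have h3 : g1 (θ + Pi.single j 1) = g1 θ := hdep1 _ _ (by rw [h2])
    have h4 : circ ρ ((θ + Pi.single j 1 : Fin D → ℝ) j0) = circ ρ (θ j0) := per_circ ρ j0 θ j
    simp only [hΛ]
    rw [h3, h4]
  · have h2 := (abs_le.1 (hlog1 θ)).1
    have h3 := neg_abs_le (Real.log ‖κ1‖)
    have h4 : Real.log ρ ≤ N * Real.log ρ := le_mul_of_one_le_left hlogρ hN1
    have h5 : Real.log (max R 1) ≤ Real.log ‖Λ θ‖ := by
      rw [hΛlog θ]
      linarith
    have h6 : (0 : ℝ) < max R 1 := lt_of_lt_of_le one_pos (le_max_right _ _)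
    exact (le_max_left _ _).trans
      ((Real.log_le_log_iff h6 (norm_pos_iff.2 (hΛg.ne_zero θ))).1 h5)
  · rw [hΛlog θ, add_assoc]
    refine (abs_add_le _ _).trans (add_le_add le_rfl ((abs_add_le _ _).trans
      (add_le_add (le_of_eq (abs_of_nonneg (by positivity))) (hlog1 θ))))
  · have h2 := lw_mul (good_const (d := D) hκ10) (hNc.mul hg1) j θ
    rw [lw_const, zero_add, lw_mul hNc hg1, lw_zpow (good_circ hρ0 j0), lw_circ hρ0] at h2
    have h3 : lw Λ j θ = _ := h2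
    rw [h3]
    have h4 : ((N : ℤ) : ℂ) * (if j = j0 then 2 * Real.pi * Complex.I else 0) + lw g1 j θ -
        2 * Real.pi * Complex.I * (if j = j0 then (N : ℂ) else 0) = lw g1 j θ := by
      split_ifs
      · push_cast
        ring
      · ring
    rw [h4]
    exact hlw1 j θ
  · have h2 := heq1 θ
    simp only [hΛ]
    rw [hEmk, hΦ _ (hsg.ne_zero θ), mul_pow, mul_pow, hκ1, h2]
    have h3 : (circ ρ (θ j0) ^ (N : ℤ)) ^ k = (s θ)⁻¹ ^ N := by
      rw [hs]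
      unfold sf
      rw [zpow_natCast, ← pow_mul, ← inv_pow, inv_inv, ← pow_mul, mul_comm N k]
    rw [h3]
    simp only [hΦ1]
    field_simp
    ring
  · have h2 := hev (Function.surjInv AdjoinRoot.mk_surjective b)
    rw [← hEb] at h2
    exact h2.2

end Pool.Agent.Run7.h954.FP
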