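import Pool.Agent.Run7.h954.FP.Val
set_option autoImplicit false

/-!
The symbols `{z_0, ..., z_s, y_0, ..., y_t}` on the fibre products over curves are unramified.
-/

namespace Pool.Agent.Run7.h954.FP

open scoped WithZero

open Pool.Agent.TH826.MK

open Pool.Agent.N65.TL

open Pool.Agent.N65.TD

open Pool.Agent.N65.TE (SimplexFaces ProductFaces mem_unitPart_of_product mem_unitPart_of_generic
  linIndep_of_affine generic_or symb_upd_tors)

open Polynomial

section close

variable {L : Type*} [Field L] {N : ℕ} (v : Valuation L ℤᵐ⁰)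

/-- two entries which agree up to roots of unity and one-units -/
theorem upd_close (c : Fin N → Lˣ) (l : Fin N) {X Y : Lˣ} {e : L}
    (he : ∃ k : ℕ, k ≠ 0 ∧ e ^ k = 1) (h : v ((X : L) - e * Y) < v (Y : L)) :
    symb (Function.update c l X) - symb (Function.update c l Y) ∈ unitPart v N := by
  obtain ⟨k, hk, hk1⟩ := he
  have he0 : e ≠ 0 := by
    rintro rfl
    rw [zero_pow hk] at hk1
    exact zero_ne_one hk1
  have hve : v e = 1 := val_root v hk hk1
  set u : Lˣ := Units.mk0 e he0 with hu
  have hu1 : ∃ k : ℕ, k ≠ 0 ∧ u ^ k = 1 := by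
    refine ⟨k, hk, Units.ext ?_⟩
    rw [Units.val_pow_eq_pow_val, hu, Units.val_mk0, hk1, Units.val_one]
  set w : Lˣ := X / (u * Y) with hw
  have hX : X = u * Y * w := by rw [hw, mul_div_cancel]
  have hw1 : v ((w : L) - 1) < 1 := by
    have h0 : e * (Y : L) ≠ 0 := mul_ne_zero he0 Y.ne_zero
    rw [hw, Units.val_div_eq_div_val, Units.val_mul, hu, Units.val_mk0, div_sub_one h0, map_div₀,
      map_mul, hve, one_mul, div_lt_one₀]
    · exact h
    · rw [Valuation.pos_iff]
      exact Y.ne_zero
  rw [hX, symb_update_mul, symb_update_mul, symb_upd_tors c l hu1, zero_add, add_sub_cancel_left]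
  refine mem_unitPart_of_oneUnit' v l _ ?_
  rw [Function.update_self]
  exact hw1

end close

section transfer

variable {K : Type*} [Field K] {L : Type*} [Field L] {N : ℕ} {φ : K →+* L} {v : Valuation L ℤᵐ⁰}
  {n m : ℕ} {H F G : K[X][X]}

theorem symb_update_npow (c : Fin N → Lˣ) (l : Fin N) (x : Lˣ) (k : ℕ) :
    symb (Function.update c l (x ^ k)) = (k : ℚ) • symb (Function.update c l x) := by
  have h := symb_update_zpow c l x (k : ℤ)
  rwa [zpow_natCast, Int.cast_natCast] at h

theorem lead_rel (hH : CurveType n m H) {x w : Lˣ} (h0 : ev2 φ (x : L) w H = 0)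
    (hx : ¬ (v (x : L) ≤ 1 ∧ v (w : L) ≤ 1)) (hint : ∀ i j, IsIntegral ℤ (cf F i j)) {a b : ℕ}
    (hF : IsLead n m F a b) (c : Fin N → Lˣ) (l : Fin N) {X : Lˣ}
    (hX : (X : L) = ev2 φ (x : L) w F) :
    (n : ℚ) • symb (Function.update c l X) -
      ((n * a + m * b : ℕ) : ℚ) • symb (Function.update c l x) ∈ unitPart v N := by
  obtain ⟨h1, h2, h3, h4⟩ := pole (φ := φ) (v := v) hH h0 hx
  have r1 : symb (Function.update c l (w ^ n)) - symb (Function.update c l (x ^ m)) ∈
      unitPart v N := by
    obtain ⟨k, hk, hk1⟩ := hH.topx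
    refine upd_close v c l (e := -φ (cf H m 0)) ⟨2 * k, by omega, ?_⟩ ?_
    · rw [pow_mul, neg_sq, ← pow_mul, mul_comm 2 k, pow_mul, ← map_pow, hk1, map_one, one_pow]
    · rw [Units.val_pow_eq_pow_val, Units.val_pow_eq_pow_val, neg_mul, sub_neg_eq_add, map_pow]
      exact h4
  have r2 : symb (Function.update c l X) - symb (Function.update c l (x ^ a * w ^ b)) ∈
      unitPart v N := by
    obtain ⟨k, hk, hk1⟩ := hF.2.1
    refine upd_close v c l (e := φ (cf F a b)) ⟨k, hk, by rw [← map_pow, hk1, map_one]⟩ ?_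
    rw [Units.val_mul, Units.val_pow_eq_pow_val, Units.val_pow_eq_pow_val, hX]
    exact lead_lt hint hF hH.npos h1 h3
  rw [symb_update_npow, symb_update_npow] at r1
  rw [symb_update_mul, symb_update_npow, symb_update_npow] at r2
  have r3 := (unitPart v N).add_mem ((unitPart v N).smul_mem (n : ℚ) r2)
    ((unitPart v N).smul_mem (b : ℚ) r1)
  have e : (n : ℚ) • (symb (Function.update c l X) - ((a : ℚ) • symb (Function.update c l x) +
      (b : ℚ) • symb (Function.update c l w))) + (b : ℚ) • ((n : ℚ) •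
      symb (Function.update c l w) - (m : ℚ) • symb (Function.update c l x)) =
      (n : ℚ) • symb (Function.update c l X) -
      ((n * a + m * b : ℕ) : ℚ) • symb (Function.update c l x) := by
    push_cast
    module
  rwa [e] at r3

/-- the transfer from `G` to `F` -/
theorem transfer (hH : CurveType n m H) {x w : Lˣ} (h0 : ev2 φ (x : L) w H = 0)
    (hx : ¬ (v (x : L) ≤ 1 ∧ v (w : L) ≤ 1)) (hF : MonicFn n m F) (hG : MonicFn n m G)
    (c : Fin N → Lˣ) (l : Fin N) {X Y : Lˣ} (hX : (X : L) = ev2 φ (x : L) w F)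
    (hY : (Y : L) = ev2 φ (x : L) w G) (h : symb (Function.update c l Y) ∈ unitPart v N) :
    symb (Function.update c l X) ∈ unitPart v N := by
  obtain ⟨a, b, hl⟩ := hF.lead
  obtain ⟨a', b', hl'⟩ := hG.lead
  have h1 := lead_rel (v := v) hH h0 hx hF.int hl c l hX
  have h2 := lead_rel (v := v) hH h0 hx hG.int hl' c l hY
  have h3 := (unitPart v N).sub_mem ((unitPart v N).smul_mem (n : ℚ) h) h2
  rw [sub_sub_cancel] at h3
  have hG0 : ((n * a' + m * b' : ℕ) : ℚ) ≠ 0 := by exact_mod_cast hl'.1.ne'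
  have hn0 : (n : ℚ) ≠ 0 := by exact_mod_cast hH.npos.ne'
  have h4 := (unitPart v N).smul_mem (((n * a' + m * b' : ℕ) : ℚ)⁻¹) h3
  rw [smul_smul, inv_mul_cancel₀ hG0, one_smul] at h4
  have h5 := (unitPart v N).add_mem h1 ((unitPart v N).smul_mem ((n * a + m * b : ℕ) : ℚ) h4)
  rw [sub_add_cancel] at h5
  have h6 := (unitPart v N).smul_mem ((n : ℚ)⁻¹) h5
  rwa [smul_smul, inv_mul_cancel₀ hn0, one_smul] at h6

end transfer

section main

variable {K : Type*} [Field K] {n n' N : ℕ} {L : Type*} [Field L]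

/-- the symbols of two blocks with the values `f` and `g` -/
theorem mem_unitPart_pair (φ : K →+* L) (v : Valuation L ℤᵐ⁰) (a : Fin N → Lˣ)
    {p : Fin n → Fin N} (hp : Function.Injective p) {p' : Fin n' → Fin N}
    (hp' : Function.Injective p') (hdisj : ∀ i j, p i ≠ p' j)
    (hall : ∀ l, (∃ i, p i = l) ∨ ∃ j, p' j = l) {W : LP K n} (hW : SimplexFaces W)
    {V : LP K n'} (hV : ProductFaces V) {f g : L} (h1 : lev φ (fun j => a (p j)) W = f)
    (h2 : lev φ (fun j => a (p' j)) V = g)
    (hc : (v f ≤ 1 ∧ v g ≤ 1) ∨ (1 < v f ∧ 1 < v g ∧ ∀ (c : Fin N → Lˣ) (l : Fin N) (X Y : Lˣ),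
      (X : L) = f → (Y : L) = g → symb (Function.update c l Y) ∈ unitPart v N →
        symb (Function.update c l X) ∈ unitPart v N)) : symb a ∈ unitPart v N := by
  classical
  have hWt : ∀ a : Fin n → ℤ, a ≠ 0 → Tame (face W a) := fun a ha =>
    Pool.Agent.N65.TE.SimplexType.tame (hW.faces a ha)
  have hVt : ∀ a : Fin n' → ℤ, a ≠ 0 → Tame (face V a) := fun a ha => (hV.faces a ha).tame
  rcases hc with ⟨hf, hg⟩ | ⟨hFb, hGb, htr⟩
  · by_cases hz : ∃ j, v (a (p j) : L) ≠ 1
    · refine mem_unitPart_of_tempered φ v a hp hW.int hW.interior hWt ?_ hz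
      rw [h1]
      exact hf
    · by_cases hy : ∃ j, v (a (p' j) : L) ≠ 1
      · refine mem_unitPart_of_tempered φ v a hp' hV.int hV.interior hVt ?_ hy
        rw [h2]
        exact hg
      · push Not at hz hy
        refine Submodule.subset_span ⟨a, fun l => ?_, rfl⟩
        rcases hall l with ⟨i, rfl⟩ | ⟨j, rfl⟩
        · exact hz i
        · exact hy j
  · rcases generic_or φ v a hp hW.int hWt (by rw [h1]; exact hFb) with hd | ⟨k, m0, hk0, hk, hm0,
      hmax, hM, heq, hsub⟩
    · exact hd
    rcases generic_or φ v a hp' hV.int hVt (by rw [h2]; exact hGb) with hd | ⟨k', m0', hk0', hk',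
      hm0', hmax', hM', heq', hsub'⟩
    · exact hd
    set z : Fin n → Lˣ := fun j => a (p j) with hz
    have hFne : f ≠ 0 := by
      intro h0
      rw [h0, map_zero] at hFb
      exact absurd hFb (not_lt.2 zero_le_one)
    have hGne : g ≠ 0 := by
      intro h0
      rw [h0, map_zero] at hGb
      exact absurd hGb (not_lt.2 zero_le_one)
    set X : Lˣ := Units.mk0 _ hFne with hXdef
    set Y : Lˣ := Units.mk0 _ hGne with hYdef
    have hXv : (X : L) = f := rfl
    have hYv : (Y : L) = g := rfl
    obtain ⟨d, m, ε, hm, hε, hface⟩ := hW.faces k hk0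
    have hε0 : ∀ i, ε i ≠ 0 := by
      intro i h0
      obtain ⟨k', hk', hk1⟩ := hε i
      rw [h0, zero_pow hk'] at hk1
      exact zero_ne_one hk1
    set u : Fin (d + 1) → Lˣ := fun i => Units.mk0 (φ (ε i)) ((map_ne_zero φ).2 (hε0 i)) with hu
    have hu1 : ∀ i, ∃ k : ℕ, k ≠ 0 ∧ u i ^ k = 1 := by
      intro i
      obtain ⟨k, hk, hk1⟩ := hε i
      refine ⟨k, hk, Units.ext ?_⟩
      rw [Units.val_pow_eq_pow_val, hu, Units.val_mk0, ← map_pow, hk1, map_one, Units.val_one]
    have huv : ∀ i, v (u i : L) = 1 := by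
      intro i
      obtain ⟨k, hk, hk1⟩ := hε i
      refine val_root v hk ?_
      rw [hu, Units.val_mk0, ← map_pow, hk1, map_one]
    have hdot : ∀ i, ∑ j, k j * m i j = ∑ j, k j * m0 j := by
      intro i
      have h3 : (face W k).coeff (m i) ≠ 0 := by
        rw [hface, AddMonoidAlgebra.coeff_sum, Finsupp.finsetSum_apply, Finset.sum_eq_single i]
        · rw [AddMonoidAlgebra.coeff_single, Finsupp.single_eq_same]
          exact hε0 i
        · intro j _ hj
          rw [AddMonoidAlgebra.coeff_single]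
          exact Finsupp.single_eq_of_ne fun h => hj (hm.injective h).symm
        · intro h
          exact absurd (Finset.mem_univ _) h
      have h4 : ∀ m', W.coeff m' ≠ 0 → ∑ j, k j * m' j ≤ ∑ j, k j * m i j := by
        by_contra h5
        exact h3 (coeff_face_of_not W k (m i) h5)
      have h6 : W.coeff (m i) ≠ 0 := by
        rw [← coeff_face_of W k (m i) h4]
        exact h3
      exact le_antisymm (hmax _ h6) (h4 _ hm0)
    have hlevf : lev φ z (face W k) = ∑ i, ((u i * mon z (m i) : Lˣ) : L) := by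
      rw [hface, map_sum]
      refine Finset.sum_congr rfl fun i _ => ?_
      rw [lev_single, Units.val_mul]
      rfl
    have hvX : v (X : L) = v ((mon z m0 : Lˣ) : L) := by
      rw [hXv, ← h1]
      exact heq
    refine mem_unitPart_of_generic v a hp m (linIndep_of_affine hm hM.ne' hdot) u hu1 X
      (fun i => ?_) ?_ fun c hc hcX => ?_
    · rw [Units.val_mul, map_mul, huv, one_mul, hvX, val_mon v z hk, val_mon v z hk, hdot]
    · rw [← hlevf, hvX, hXv, ← h1]
      exact hsub
    · obtain ⟨j0, hj0⟩ := hcX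
      have hcu : c = Function.update c (p j0) X := by
        rw [← hj0, Function.update_eq_self]
      rw [hcu]
      refine htr c (p j0) X Y hXv hYv ?_
      refine mem_unitPart_of_product φ v _ hp' (hV.faces k' hk0') (l0 := p j0)
        (fun j => (hdisj j0 j).symm) ?_
      have h4 : (fun j => Function.update c (p j0) Y (p' j)) = fun j => a (p' j) := by
        funext j
        rw [Function.update_of_ne (hdisj j0 j).symm]
        exact hc _ fun i => hdisj i j
      rw [h4, Function.update_self, hYv, ← h2, heq']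
      exact hsub'

end main

section ring

variable {K : Type*} [Field K] {B : Type*} [CommRing B] [Algebra K B] {s t : ℕ}
  (W : LP K (s + 1)) (V : LP K (t + 1)) (F G : B)

theorem pmk_fst : pmk W V F G (inz B s t W) = px W V F G F := by
  have h : pmk W V F G (inz B s t W - yx B s t F) = 0 :=
    Ideal.Quotient.eq_zero_iff_mem.2 (Ideal.subset_span (Set.mem_insert _ _))
  rw [map_sub, sub_eq_zero] at h
  exact h

theorem pmk_snd : pmk W V F G (iny B s t V) = px W V F G G := by
  have h : pmk W V F G (iny B s t V - yx B s t G) = 0 :=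
    Ideal.Quotient.eq_zero_iff_mem.2 (Ideal.subset_span
      (Set.mem_insert_of_mem _ (Set.mem_singleton _)))
  rw [map_sub, sub_eq_zero] at h
  exact h

variable {L : Type*} [CommRing L] (f : PRing W V F G →+* L)

theorem lev_pz : lev (f.comp (pcst W V F G))
    (fun i => Units.map (f : PRing W V F G →* L) (pz W V F G i)) W = f (px W V F G F) := by
  rw [← pmk_fst]
  have h3 : f (pmk W V F G (inz B s t W)) = _ := hom_eq_lev (R := B)
    ((f.comp (pmk W V F G)).comp (yz B s t))
    (AddMonoidAlgebra.mapRingHom (Fin (s + 1) → ℤ) (algebraMap K B) W)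
  rw [h3, lev_map]
  rfl

theorem lev_py : lev (f.comp (pcst W V F G))
    (fun i => Units.map (f : PRing W V F G →* L) (py W V F G i)) V = f (px W V F G G) := by
  rw [← pmk_snd]
  have h3 : f (pmk W V F G (iny B s t V)) = _ := hom_eq_lev (R := ZRing B s)
    (f.comp (pmk W V F G))
    (AddMonoidAlgebra.mapRingHom (Fin (t + 1) → ℤ) ((zx B s).comp (algebraMap K B)) V)
  rw [h3, lev_map]
  rfl

end ring

/-- The symbol is unramified, if it is at the values of `F` and `G`. -/
theorem unram_of {K : Type*} [Field K] {B : Type*} [CommRing B] [Algebra K B] {s t : ℕ}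
    {W : LP K (s + 1)} {V : LP K (t + 1)} {F G : B} (hW : SimplexFaces W) (hV : ProductFaces V)
    {L : Type*} [Field L] (f : PRing W V F G →+* L)
    (hc : ∀ v : Valuation L ℤᵐ⁰, (v (f (px W V F G F)) ≤ 1 ∧ v (f (px W V F G G)) ≤ 1) ∨
      (1 < v (f (px W V F G F)) ∧ 1 < v (f (px W V F G G)) ∧
      ∀ (c : Fin (s + (t + 1) + 1) → Lˣ) (l : Fin (s + (t + 1) + 1)) (X Y : Lˣ),
        (X : L) = f (px W V F G F) → (Y : L) = f (px W V F G G) →
        symb (Function.update c l Y) ∈ unitPart v _ →
        symb (Function.update c l X) ∈ unitPart v _)) :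
    KQ.map _ f (psym W V F G) ∈ Unramified L _ := by
  classical
  unfold psym
  rw [KQ.map_symb]
  unfold Unramified
  simp only [Submodule.mem_iInf]
  intro v _
  set a : Fin (s + (t + 1) + 1) → Lˣ := fun l => Units.map (f : PRing W V F G →* L)
    (Sum.elim (pz W V F G) (py W V F G) ((esum s t).symm l)) with ha
  have haz : (fun i => a (esum s t (Sum.inl i))) = fun i =>
      Units.map (f : PRing W V F G →* L) (pz W V F G i) := by
    funext i
    rw [ha]
    simp only [Equiv.symm_apply_apply, Sum.elim_inl]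
  have hay : (fun i => a (esum s t (Sum.inr i))) = fun i =>
      Units.map (f : PRing W V F G →* L) (py W V F G i) := by
    funext i
    rw [ha]
    simp only [Equiv.symm_apply_apply, Sum.elim_inr]
  refine mem_unitPart_pair (f.comp (pcst W V F G)) v a (p := fun i => esum s t (Sum.inl i))
    (fun i j h => Sum.inl_injective ((esum s t).injective h))
    (p' := fun i => esum s t (Sum.inr i))
    (fun i j h => Sum.inr_injective ((esum s t).injective h))
    (fun i j h => Sum.inl_ne_inr ((esum s t).injective h)) (fun l => ?_) hW hV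
    (f := f (px W V F G F)) (g := f (px W V F G G)) ?_ ?_ (hc v)
  · obtain ⟨r, rfl⟩ := (esum s t).surjective l
    rcases r with i | j
    · exact Or.inl ⟨i, rfl⟩
    · exact Or.inr ⟨j, rfl⟩
  · rw [haz]
    exact lev_pz W V F G f
  · rw [hay]
    exact lev_py W V F G f

/-- The symbol is unramified on the fibre products over curves. -/
theorem unram {K : Type*} [Field K] {s t n m : ℕ} {W : LP K (s + 1)} {V : LP K (t + 1)}
    {H F G : K[X][X]} (hH : CurveType n m H) (hW : SimplexFaces W) (hV : ProductFaces V)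
    (hF : MonicFn n m F) (hG : MonicFn n m G) {L : Type*} [Field L]
    (f : PRing W V (AdjoinRoot.mk H F) (AdjoinRoot.mk H G) →+* L) :
    KQ.map _ f (psym W V (AdjoinRoot.mk H F) (AdjoinRoot.mk H G)) ∈ Unramified L _ := by
  refine unram_of hW hV f fun v => ?_
  set ψ : AdjoinRoot H →+* L := f.comp (px W V (AdjoinRoot.mk H F) (AdjoinRoot.mk H G)) with hψ
  set φ : K →+* L := ψ.comp (algebraMap K (AdjoinRoot H)) with hφ
  set x : L := ψ (AdjoinRoot.mk H (C X)) with hx
  set w : L := ψ (AdjoinRoot.mk H X) with hw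
  have hev : ∀ P : K[X][X], ψ (AdjoinRoot.mk H P) = ev2 φ x w P := by
    intro P
    have h1 : ψ.comp (AdjoinRoot.mk H) = ev2 φ x w := by
      unfold ev2
      refine Polynomial.ringHom_ext' (Polynomial.ringHom_ext' ?_ ?_) ?_
      · ext c
        simp only [RingHom.comp_apply, coe_eval₂RingHom, eval₂_C]
        rfl
      · simp only [RingHom.comp_apply, coe_eval₂RingHom, eval₂_C, eval₂_X]
        rfl
      · simp only [RingHom.comp_apply, coe_eval₂RingHom, eval₂_X]
        rfl
    exact RingHom.congr_fun h1 P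
  have h0 : ev2 φ x w H = 0 := by
    rw [← hev, AdjoinRoot.mk_self, map_zero]
  have eF : f (px W V (AdjoinRoot.mk H F) (AdjoinRoot.mk H G) (AdjoinRoot.mk H F)) =
    ev2 φ x w F := hev F
  have eG : f (px W V (AdjoinRoot.mk H F) (AdjoinRoot.mk H G) (AdjoinRoot.mk H G)) =
    ev2 φ x w G := hev G
  rw [eF, eG]
  by_cases hxw : v x ≤ 1 ∧ v w ≤ 1
  · exact Or.inl ⟨val_ev_le φ v hF.int hxw.1 hxw.2, val_ev_le φ v hG.int hxw.1 hxw.2⟩
  · right
    obtain ⟨h1, h2, h3, h4⟩ := pole hH h0 hxw
    have hx0 : x ≠ 0 := by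
      intro h
      rw [h, map_zero] at h1
      exact absurd h1 (not_lt.2 zero_le_one)
    have hw0 : w ≠ 0 := by
      intro h
      rw [h, map_zero] at h2
      exact absurd h2 (not_lt.2 zero_le_one)
    obtain ⟨a, b, hl⟩ := hF.lead
    obtain ⟨a', b', hl'⟩ := hG.lead
    refine ⟨(lead_val hF.int hl hH.npos h1 h3).2, (lead_val hG.int hl' hH.npos h1 h3).2,
      fun c l X Y hX hY h => ?_⟩
    exact transfer hH (x := Units.mk0 x hx0) (w := Units.mk0 w hw0) h0 hxw hF hG c l hX hY h

end Pool.Agent.Run7.h954.FP
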