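import Pool.Agent.Run7.h954.FP.Germ
import Pool.Agent.Run7.h954.FP.Sym
set_option autoImplicit false

/-!
Hypersurfaces in products of plane curves: definitions.
-/

namespace Pool.Agent.Run7.h954.FP

open Pool.Agent.TH826.MK (KQ symb Unramified Torus)

open Polynomial

/-- The data of `N` plane curves `H_k(x, w) = 0` with weights `n_k`, `m_k`, and of functions
`L_{k,0}, ..., L_{k,r_k}` on them, of degrees `d_{k,i}`. -/
structure Data (K : Type*) [Field K] (N : ℕ) where
  /-- the weight of `x` -/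
  n : Fin N → ℕ
  /-- the weight of `w` -/
  m : Fin N → ℕ
  /-- the equations of the curves -/
  H : Fin N → K[X][X]
  /-- the numbers of functions minus one -/
  r : Fin N → ℕ
  /-- the functions -/
  L : ∀ k, Fin (r k + 1) → K[X][X]
  /-- the degrees of the functions -/
  d : ∀ k, Fin (r k + 1) → ℕ

variable {K : Type*} [Field K] {N : ℕ}

/-- The curves are given by `w^n + ε x^m + ...`, the functions have integral coefficients and the
leading terms `ε x^a w^b` of weight `n a + m b = d > 0`, with roots of unity `ε`. -/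
structure Data.Adm (D : Data K N) : Prop where
  /-- the equations of the curves -/
  curve : ∀ k, CurveType (D.n k) (D.m k) (D.H k)
  /-- integral coefficients -/
  int : ∀ k i a b, IsIntegral ℤ (cf (D.L k i) a b)
  /-- the leading terms -/
  lead : ∀ k i, ∃ a b, D.n k * a + D.m k * b = D.d k i ∧ IsLead (D.n k) (D.m k) (D.L k i) a b

/-- At each of the functions `L_{k,i}`, `1 ≤ i ≤ r_k`, there is a complex point (over `σ`) of the
curve which is a transversal zero of this function (the Jacobian determinant of `H_k` and `L_{k,i}`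
does not vanish), and not a zero of the other functions `L_{k,j}`. -/
def Data.Zeros (D : Data K N) (σ : K →+* ℂ) : Prop :=
  ∀ k (i : Fin (D.r k)), ∃ x w : ℂ, ev2 σ x w (D.H k) = 0 ∧ ev2 σ x w (D.L k i.succ) = 0 ∧
    ev2 σ x w (dX (D.H k)) * ev2 σ x w (derivative (D.L k i.succ)) -
      ev2 σ x w (derivative (D.H k)) * ev2 σ x w (dX (D.L k i.succ)) ≠ 0 ∧
    ∀ j, j ≠ i.succ → ev2 σ x w (D.L k j) ≠ 0

/-- The polynomial `P(x_k, w_k)` in the coordinates `x_k`, `w_k` of the product of `N` planes. -/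
noncomputable def emb (k : Fin N) : K[X][X] →+* MvPolynomial (Fin N × Bool) K :=
  eval₂RingHom (eval₂RingHom MvPolynomial.C (MvPolynomial.X (k, false)))
    (MvPolynomial.X (k, true))

/-- The polynomials `H_k(x_k, w_k)` and `λ ∏_k ∏_i L_{k,i}(x_k, w_k) - 1`. -/
def Data.gens (D : Data K N) (lam : K) : Set (MvPolynomial (Fin N × Bool) K) :=
  insert (MvPolynomial.C lam * ∏ k, ∏ i, emb k (D.L k i) - 1) (Set.range fun k => emb k (D.H k))

/-- The coordinate ring of the hypersurface `λ ∏_k ∏_i L_{k,i}(P_k) = 1` in the product of the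
curves. -/
def Data.XRing (D : Data K N) (lam : K) : Type _ :=
  MvPolynomial (Fin N × Bool) K ⧸ Ideal.span (D.gens lam)

noncomputable instance (D : Data K N) (lam : K) : CommRing (D.XRing lam) :=
  Ideal.Quotient.commRing (Ideal.span (D.gens lam))

/-- The restriction of polynomials to the hypersurface. -/
noncomputable def Data.xmk (D : Data K N) (lam : K) :
    MvPolynomial (Fin N × Bool) K →+* D.XRing lam := Ideal.Quotient.mk (Ideal.span (D.gens lam))

/-- The constants. -/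
noncomputable def Data.xcst (D : Data K N) (lam : K) : K →+* D.XRing lam :=
  (D.xmk lam).comp MvPolynomial.C

theorem Data.xmk_eqn (D : Data K N) (lam : K) :
    D.xcst lam lam * ∏ k, ∏ i, D.xmk lam (emb k (D.L k i)) = 1 := by
  have h : D.xmk lam (MvPolynomial.C lam * ∏ k, ∏ i, emb k (D.L k i) - 1) = 0 :=
    Ideal.Quotient.eq_zero_iff_mem.2 (Ideal.subset_span (Set.mem_insert _ _))
  rw [map_sub, map_one, sub_eq_zero, map_mul, map_prod] at h
  simp only [map_prod] at h
  exact h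

theorem Data.xmk_H (D : Data K N) (lam : K) (k : Fin N) : D.xmk lam (emb k (D.H k)) = 0 :=
  Ideal.Quotient.eq_zero_iff_mem.2 (Ideal.subset_span (Set.mem_insert_of_mem _ ⟨k, rfl⟩))

theorem Data.isUnit_L (D : Data K N) (lam : K) (k : Fin N) (i : Fin (D.r k + 1)) :
    IsUnit (D.xmk lam (emb k (D.L k i))) := by
  refine isUnit_of_dvd_one ?_
  rw [← D.xmk_eqn lam]
  refine Dvd.dvd.mul_left ?_ _
  exact (Finset.dvd_prod_of_mem (fun i => D.xmk lam (emb k (D.L k i))) (Finset.mem_univ i)).trans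
    (Finset.dvd_prod_of_mem (fun k => ∏ i, D.xmk lam (emb k (D.L k i))) (Finset.mem_univ k))

/-- The units `L_{k,i}`. -/
noncomputable def Data.Lu (D : Data K N) (lam : K) (k : Fin N) (i : Fin (D.r k + 1)) :
    (D.XRing lam)ˣ := (D.isUnit_L lam k i).unit

/-- The units `u_{k,i} = L_{k,i}^{d_{k,0}} / L_{k,0}^{d_{k,i}}`, `1 ≤ i ≤ r_k`. -/
noncomputable def Data.u (D : Data K N) (lam : K) (k : Fin N) (i : Fin (D.r k)) :
    (D.XRing lam)ˣ := D.Lu lam k i.succ ^ D.d k 0 / D.Lu lam k 0 ^ D.d k i.succ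

/-- The symbols `{u_{1,i_1}, ..., u_{N,i_N}}`. -/
noncomputable def Data.sym (D : Data K N) (lam : K) (T : ∀ k, Fin (D.r k)) :
    KQ (D.XRing lam) N := symb fun k => D.u lam k (T k)

section unram

open scoped WithZero

open Pool.Agent.TH826.MK

open Pool.Agent.N65.TL

/-- a unit, a power of which is a root of unity times a one-unit -/
theorem mem_of_pow {L : Type*} [Field L] {N : ℕ} (v : Valuation L ℤᵐ⁰) (c : Fin N → Lˣ)
    (l : Fin N) {n : ℕ} (hn : 0 < n) {e : L} (he : ∃ k : ℕ, k ≠ 0 ∧ e ^ k = 1)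
    (h : v ((c l : L) ^ n - e) < 1) : symb c ∈ unitPart v N := by
  have h1 := upd_close v c l (X := c l ^ n) (Y := 1) (e := e) he (by
    rw [Units.val_pow_eq_pow_val, Units.val_one, mul_one, map_one]
    exact h)
  rw [Pool.Agent.TH826.SX.symb_upd_one, sub_zero, symb_update_npow, Function.update_eq_self] at h1
  have h2 := (unitPart v N).smul_mem ((n : ℚ)⁻¹) h1
  have hn0 : (n : ℚ) ≠ 0 := by exact_mod_cast hn.ne'
  rwa [smul_smul, inv_mul_cancel₀ hn0, one_smul] at h2

/-- products of elements congruent to roots of unity -/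
theorem close_mul {L : Type*} [Field L] {v : Valuation L ℤᵐ⁰} {x y e f : L} (hx : v (x - e) < 1)
    (hy : v (y - f) < 1) (he : v e = 1) (hf : v f = 1) : v (x * y - e * f) < 1 := by
  have h1 : x * y - e * f = (x - e) * y + e * (y - f) := by ring
  have hvy : v y = 1 := by
    have h2 := Valuation.map_add_eq_of_lt_left v (x := f) (y := y - f) (by rwa [hf])
    rw [add_sub_cancel, hf] at h2
    exact h2
  rw [h1]
  refine Valuation.map_add_lt v ?_ ?_
  · rwa [map_mul, hvy, mul_one]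
  · rwa [map_mul, he, one_mul]

theorem close_pow {L : Type*} [Field L] {v : Valuation L ℤᵐ⁰} {x e : L} (hx : v (x - e) < 1)
    (he : v e = 1) (n : ℕ) : v (x ^ n - e ^ n) < 1 := by
  induction n with
  | zero =>
    rw [pow_zero, pow_zero, sub_self, map_zero]
    exact zero_lt_one
  | succ n ih =>
    rw [pow_succ, pow_succ]
    exact close_mul ih hx (by rw [map_pow, he, one_pow]) he

/-- the powers of a function near a pole -/
theorem pole_pow {K : Type*} [Field K] {L : Type*} [Field L] {φ : K →+* L} {v : Valuation L ℤᵐ⁰}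
    {n m : ℕ} {H F : K[X][X]} (hH : CurveType n m H) {x w : L} (h0 : ev2 φ x w H = 0)
    (hx : ¬ (v x ≤ 1 ∧ v w ≤ 1)) (hint : ∀ i j, IsIntegral ℤ (cf F i j)) {a b : ℕ}
    (hF : IsLead n m F a b) :
    ∃ e : L, (∃ k : ℕ, k ≠ 0 ∧ e ^ k = 1) ∧
      v (ev2 φ x w F ^ n / x ^ (n * a + m * b) - e) < 1 := by
  obtain ⟨h1, h2, h3, h4⟩ := pole (φ := φ) (v := v) hH h0 hx
  have hx0 : x ≠ 0 := by
    rintro rfl
    rw [map_zero] at h1
    exact absurd h1 (not_lt.2 zero_le_one)
  have hw0 : w ≠ 0 := by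
    rintro rfl
    rw [map_zero] at h2
    exact absurd h2 (not_lt.2 zero_le_one)
  have hvx : 0 < v x := zero_lt_one.trans h1
  -- `w^n / x^m` is close to `- ε`
  have r1 : v (w ^ n / x ^ m - -φ (cf H m 0)) < 1 := by
    have e1 : w ^ n / x ^ m - -φ (cf H m 0) = (w ^ n + φ (cf H m 0) * x ^ m) / x ^ m := by
      field_simp
      ring
    rw [e1, map_div₀, map_pow, div_lt_one₀ (pow_pos hvx m)]
    exact h4
  -- `F / (x^a w^b)` is close to `ε'`
  have r2 : v (ev2 φ x w F / (x ^ a * w ^ b) - φ (cf F a b)) < 1 := by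
    have hne : x ^ a * w ^ b ≠ 0 := mul_ne_zero (pow_ne_zero _ hx0) (pow_ne_zero _ hw0)
    have e1 : ev2 φ x w F / (x ^ a * w ^ b) - φ (cf F a b) =
        (ev2 φ x w F - φ (cf F a b) * (x ^ a * w ^ b)) / (x ^ a * w ^ b) := by
      rw [sub_div, mul_div_cancel_right₀ _ hne]
    rw [e1, map_div₀, div_lt_one₀ ((Valuation.pos_iff v).2 hne)]
    exact lead_lt hint hF hH.npos h1 h3
  obtain ⟨k, hk, hk1⟩ := hH.topx
  obtain ⟨k', hk', hk1'⟩ := hF.2.1
  have hε : (-φ (cf H m 0)) ^ (2 * k) = 1 := by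
    rw [pow_mul, neg_sq, ← pow_mul, mul_comm 2 k, pow_mul, ← map_pow, hk1, map_one, one_pow]
  have hvε : v (-φ (cf H m 0)) = 1 := val_root v (by omega) hε
  have hε' : (φ (cf F a b)) ^ k' = 1 := by rw [← map_pow, hk1', map_one]
  have hvε' : v (φ (cf F a b)) = 1 := val_root v hk' hε'
  refine ⟨(φ (cf F a b)) ^ n * (-φ (cf H m 0)) ^ b, ⟨k' * (2 * k), by positivity, ?_⟩, ?_⟩
  · rw [mul_pow, ← pow_mul, ← pow_mul, mul_comm n, mul_comm b, mul_assoc k', pow_mul _ k', hε',
      one_pow, one_mul, mul_comm k', mul_assoc, pow_mul, hε, one_pow]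
  · have e1 : ev2 φ x w F ^ n / x ^ (n * a + m * b) =
        (ev2 φ x w F / (x ^ a * w ^ b)) ^ n * (w ^ n / x ^ m) ^ b := by
      rw [div_pow, div_pow, mul_pow, ← pow_mul, ← pow_mul, ← pow_mul, ← pow_mul, mul_comm b n,
        mul_comm a n, pow_add]
      have : w ^ (n * b) ≠ 0 := pow_ne_zero _ hw0
      field_simp
    rw [e1]
    exact close_mul (close_pow r2 hvε' n) (close_pow r1 hvε b) (by rw [map_pow, hvε', one_pow])
      (by rw [map_pow, hvε, one_pow])

theorem ev_emb {L : Type*} [CommRing L] (f : MvPolynomial (Fin N × Bool) K →+* L) (k : Fin N)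
    (P : K[X][X]) : f (emb k P) = ev2 (f.comp MvPolynomial.C) (f (MvPolynomial.X (k, false)))
      (f (MvPolynomial.X (k, true))) P := by
  have h : f.comp (emb k) = ev2 (f.comp MvPolynomial.C) (f (MvPolynomial.X (k, false)))
      (f (MvPolynomial.X (k, true))) := by
    unfold ev2 emb
    refine Polynomial.ringHom_ext' (Polynomial.ringHom_ext' ?_ ?_) ?_
    · ext c
      simp only [RingHom.comp_apply, coe_eval₂RingHom, eval₂_C]
    · simp only [RingHom.comp_apply, coe_eval₂RingHom, eval₂_C, eval₂_X]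
    · simp only [RingHom.comp_apply, coe_eval₂RingHom, eval₂_X]
  exact RingHom.congr_fun h P

/-- quotients of functions near a pole -/
theorem quot_close {L : Type*} [Field L] {v : Valuation L ℤᵐ⁰} {F G x : L} {n d d' : ℕ} {e e' : L}
    (hF : v (F ^ n / x ^ d - e) < 1) (hG : v (G ^ n / x ^ d' - e') < 1)
    (he : ∃ k : ℕ, k ≠ 0 ∧ e ^ k = 1) (he' : ∃ k : ℕ, k ≠ 0 ∧ e' ^ k = 1) (hx : x ≠ 0)
    (hG0 : G ≠ 0) :
    ∃ e'' : L, (∃ k : ℕ, k ≠ 0 ∧ e'' ^ k = 1) ∧ v ((F ^ d' / G ^ d) ^ n - e'') < 1 := by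
  obtain ⟨k, hk, hk1⟩ := he
  obtain ⟨k', hk', hk1'⟩ := he'
  have hve : v e = 1 := val_root v hk hk1
  have hve' : v e' = 1 := val_root v hk' hk1'
  have he0 : e' ≠ 0 := by
    rintro rfl
    rw [zero_pow hk'] at hk1'
    exact zero_ne_one hk1'
  have h1 := close_pow hF hve d'
  have h2 := close_pow hG hve' d
  -- the inverse
  have hy0 : (G ^ n / x ^ d') ^ d ≠ 0 :=
    pow_ne_zero _ (div_ne_zero (pow_ne_zero _ hG0) (pow_ne_zero _ hx))
  have hvy : v ((G ^ n / x ^ d') ^ d) = 1 := by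
    have h3 := Valuation.map_add_eq_of_lt_left v (x := e' ^ d)
      (y := (G ^ n / x ^ d') ^ d - e' ^ d) (by rwa [map_pow v e', hve', one_pow])
    rw [add_sub_cancel, map_pow v e', hve', one_pow] at h3
    exact h3
  have h3 : v (((G ^ n / x ^ d') ^ d)⁻¹ - (e' ^ d)⁻¹) < 1 := by
    have e1 : ((G ^ n / x ^ d') ^ d)⁻¹ - (e' ^ d)⁻¹ =
        -((G ^ n / x ^ d') ^ d - e' ^ d) / ((G ^ n / x ^ d') ^ d * e' ^ d) := by
      have := pow_ne_zero d he0
      field_simp
      ring
    rw [e1, map_div₀, Valuation.map_neg, map_mul, hvy, map_pow v e', hve', one_pow, mul_one,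
      div_one]
    exact h2
  refine ⟨e ^ d' * (e' ^ d)⁻¹, ⟨k * k', mul_ne_zero hk hk', ?_⟩, ?_⟩
  · rw [mul_pow, inv_pow, ← pow_mul, ← pow_mul, mul_comm d', mul_comm d, mul_assoc k,
      pow_mul e, hk1, one_pow, mul_comm k k', mul_assoc k', pow_mul e', hk1', one_pow, inv_one,
      mul_one]
  · have e1 : (F ^ d' / G ^ d) ^ n = (F ^ n / x ^ d) ^ d' * ((G ^ n / x ^ d') ^ d)⁻¹ := by
      rw [div_pow, div_pow, div_pow, ← pow_mul, ← pow_mul, ← pow_mul, ← pow_mul, ← pow_mul,
        ← pow_mul, mul_comm d' n, mul_comm d n, mul_comm d' d]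
      have := pow_ne_zero (n * d) hG0
      have := pow_ne_zero (d * d') hx
      field_simp
    rw [e1]
    exact close_mul h1 h3 (by rw [map_pow, hve, one_pow]) (by
      rw [map_inv₀, map_pow, hve', one_pow, inv_one])

/-- the quotients `F^(deg G) / G^(deg F)` near a pole -/
theorem pole_quot {K : Type*} [Field K] {L : Type*} [Field L] {φ : K →+* L} {v : Valuation L ℤᵐ⁰}
    {n m : ℕ} {H F G : K[X][X]} (hH : CurveType n m H) {x w : L} (h0 : ev2 φ x w H = 0)
    (hx : ¬ (v x ≤ 1 ∧ v w ≤ 1)) (hint : ∀ i j, IsIntegral ℤ (cf F i j))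
    (hint' : ∀ i j, IsIntegral ℤ (cf G i j)) {d d' : ℕ}
    (hF : ∃ a b, n * a + m * b = d ∧ IsLead n m F a b)
    (hG : ∃ a b, n * a + m * b = d' ∧ IsLead n m G a b) (hG0 : ev2 φ x w G ≠ 0) :
    ∃ e : L, (∃ k : ℕ, k ≠ 0 ∧ e ^ k = 1) ∧
      v ((ev2 φ x w F ^ d' / ev2 φ x w G ^ d) ^ n - e) < 1 := by
  obtain ⟨a, b, rfl, hl⟩ := hF
  obtain ⟨a', b', rfl, hl'⟩ := hG
  obtain ⟨h1, -⟩ := pole (φ := φ) (v := v) hH h0 hx
  have hx0 : x ≠ 0 := by
    rintro rfl
    rw [map_zero] at h1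
    exact absurd h1 (not_lt.2 zero_le_one)
  obtain ⟨e, he, h2⟩ := pole_pow (v := v) hH h0 hx hint hl
  obtain ⟨e', he', h3⟩ := pole_pow (v := v) hH h0 hx hint' hl'
  exact quot_close h2 h3 he he' hx0 hG0

/-- The symbols are unramified. -/
theorem Data.unram {D : Data K N} (hD : D.Adm) {lam : K} (hlam : IsIntegral ℤ lam)
    {L : Type*} [Field L] (f : D.XRing lam →+* L) (T : ∀ k, Fin (D.r k)) :
    KQ.map _ f (D.sym lam T) ∈ Unramified L _ := by
  classical
  unfold Data.sym
  rw [KQ.map_symb]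
  unfold Unramified
  simp only [Submodule.mem_iInf]
  intro v _
  set φ : K →+* L := f.comp (D.xcst lam) with hφ
  set x : Fin N → L := fun k => f (D.xmk lam (MvPolynomial.X (k, false))) with hx
  set w : Fin N → L := fun k => f (D.xmk lam (MvPolynomial.X (k, true))) with hw
  have hev : ∀ k (P : K[X][X]), f (D.xmk lam (emb k P)) = ev2 φ (x k) (w k) P := fun k P =>
    ev_emb (f.comp (D.xmk lam)) k P
  have h0 : ∀ k, ev2 φ (x k) (w k) (D.H k) = 0 := fun k => by
    rw [← hev, D.xmk_H, map_zero]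
  have hLu : ∀ k i, ((Units.map (f : D.XRing lam →* L) (D.Lu lam k i) : Lˣ) : L) =
      ev2 φ (x k) (w k) (D.L k i) := fun k i => hev k _
  have hu : ∀ k i, ((Units.map (f : D.XRing lam →* L) (D.u lam k i) : Lˣ) : L) =
      ev2 φ (x k) (w k) (D.L k i.succ) ^ D.d k 0 /
        ev2 φ (x k) (w k) (D.L k 0) ^ D.d k i.succ := by
    intro k i
    unfold Data.u
    rw [_root_.map_div, map_pow, map_pow, Units.val_div_eq_div_val, Units.val_pow_eq_pow_val,
      Units.val_pow_eq_pow_val, hLu, hLu]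
  by_cases hp : ∃ k, ¬ (v (x k) ≤ 1 ∧ v (w k) ≤ 1)
  · obtain ⟨k, hk⟩ := hp
    obtain ⟨e, he, h1⟩ := pole_quot (v := v) (hD.curve k) (h0 k) hk (hD.int k (T k).succ)
      (hD.int k 0) (hD.lead k (T k).succ) (hD.lead k 0) (by
        rw [← hLu]
        exact Units.ne_zero _)
    refine mem_of_pow v _ k (hD.curve k).npos he ?_
    rw [hu]
    exact h1
  · push Not at hp
    have hle : ∀ k i, v (ev2 φ (x k) (w k) (D.L k i)) ≤ 1 := fun k i =>
      val_ev_le φ v (hD.int k i) (hp k).1 (hp k).2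
    have hpr : ∀ k, v (∏ i, ev2 φ (x k) (w k) (D.L k i)) ≤ 1 := fun k => by
      rw [map_prod]
      exact Finset.prod_le_one' fun i _ => hle k i
    have hlamv : v (φ lam) ≤ 1 := val_le_one_of_integral v (map_isIntegral_int φ hlam)
    have heq : v (φ lam) * ∏ k, v (∏ i, ev2 φ (x k) (w k) (D.L k i)) = 1 := by
      have h1 := congrArg f (D.xmk_eqn lam)
      rw [map_one, map_mul, map_prod] at h1
      simp only [map_prod f, hev] at h1
      rw [← map_prod, ← map_mul, ← map_one v]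
      exact congrArg v h1
    have hone : ∀ k i, v (ev2 φ (x k) (w k) (D.L k i)) = 1 := by
      intro k i
      refine le_antisymm (hle k i) ?_
      have h1 : ∏ k, v (∏ i, ev2 φ (x k) (w k) (D.L k i)) ≤
          v (∏ i, ev2 φ (x k) (w k) (D.L k i)) := by
        rw [← Finset.mul_prod_erase Finset.univ _ (Finset.mem_univ k)]
        exact mul_le_of_le_one_right' (Finset.prod_le_one' fun k' _ => hpr k')
      have h2 : v (∏ i, ev2 φ (x k) (w k) (D.L k i)) ≤ v (ev2 φ (x k) (w k) (D.L k i)) := by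
        rw [map_prod, ← Finset.mul_prod_erase Finset.univ _ (Finset.mem_univ i)]
        exact mul_le_of_le_one_right' (Finset.prod_le_one' fun i' _ => hle k i')
      calc (1 : ℤᵐ⁰) = v (φ lam) * ∏ k, v (∏ i, ev2 φ (x k) (w k) (D.L k i)) := heq.symm
        _ ≤ 1 * v (ev2 φ (x k) (w k) (D.L k i)) := mul_le_mul' hlamv (h1.trans h2)
        _ = _ := one_mul _
    refine Submodule.subset_span ⟨_, fun k => ?_, rfl⟩
    rw [hu, map_div₀, map_pow, map_pow, hone, hone, one_pow, one_pow, div_one]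

end unram

end Pool.Agent.Run7.h954.FP
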