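import Pool.Agent.Run7.h954.FP.Sym
import Pool.Agent.N65.TE.Points
set_option autoImplicit false

/-!
The complex points of the fibre products over a base.
-/

namespace Pool.Agent.Run7.h954.FP

open Pool.Agent.TH826.MK

open Pool.Agent.N65.TL

open Pool.Agent.N65.TD

variable {K : Type*} [Field K] {B : Type*} [CommRing B] [Algebra K B] {s t : ℕ}
  {W : LP K (s + 1)} {V : LP K (t + 1)} {F G : B} {σ : K →+* ℂ}

/-- The complex points of the fibre product. -/
structure PPt (σ : K →+* ℂ) (W : LP K (s + 1)) (V : LP K (t + 1)) (F G : B) (e : B →+* ℂ)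
    (z : Fin (s + 1) → ℂ) (y : Fin (t + 1) → ℂ) : Prop where
  he : e.comp (algebraMap K B) = σ
  nez : ∀ i, z i ≠ 0
  ney : ∀ i, y i ≠ 0
  eqz : ∑ m ∈ W.coeff.support, σ (W.coeff m) * ∏ i, z i ^ (m i) = e F
  eqy : ∑ m ∈ V.coeff.support, σ (V.coeff m) * ∏ i, y i ^ (m i) = e G

variable {e : B →+* ℂ} {z : Fin (s + 1) → ℂ} {y : Fin (t + 1) → ℂ}

/-- evaluation on the Laurent polynomials in `z` -/
noncomputable def PPt.evZ (h : PPt σ W V F G e z y) : ZRing B s →+* ℂ :=
  lev e fun i => Units.mk0 (z i) (h.nez i)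

/-- evaluation on the Laurent polynomials -/
noncomputable def PPt.evY (h : PPt σ W V F G e z y) : YRing B s t →+* ℂ :=
  lev h.evZ fun i => Units.mk0 (y i) (h.ney i)

theorem PPt.evY_yz (h : PPt σ W V F G e z y) (P : ZRing B s) : h.evY (yz B s t P) = h.evZ P := by
  refine (lev_single _ _ 0 P).trans ?_
  rw [mon_zero, Units.val_one, mul_one]

theorem PPt.evZ_zx (h : PPt σ W V F G e z y) (P : B) :
    h.evZ (zx B s P) = e P := by
  refine (lev_single _ _ 0 P).trans ?_
  rw [mon_zero, Units.val_one, mul_one]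

theorem PPt.evY_yx (h : PPt σ W V F G e z y) (P : B) :
    h.evY (yx B s t P) = e P := by
  unfold yx
  rw [RingHom.comp_apply, h.evY_yz, h.evZ_zx]

theorem PPt.evY_inz (h : PPt σ W V F G e z y) : h.evY (inz B s t W) = e F := by
  unfold inz
  rw [h.evY_yz, ← h.eqz]
  refine (lev_map e _ (algebraMap K B) W).trans ?_
  rw [h.he]
  exact lev_mk0 h.nez W

theorem PPt.evY_iny (h : PPt σ W V F G e z y) : h.evY (iny B s t V) = e G := by
  rw [← h.eqy]
  refine (lev_map h.evZ _ ((zx B s).comp (algebraMap K B)) V).trans ?_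
  have h1 : h.evZ.comp ((zx B s).comp (algebraMap K B)) = σ := by
    refine RingHom.ext fun c => ?_
    rw [RingHom.comp_apply, RingHom.comp_apply, h.evZ_zx]
    exact RingHom.congr_fun h.he c
  rw [h1]
  exact lev_mk0 h.ney V

/-- evaluation on the fibre product -/
noncomputable def PPt.ev (h : PPt σ W V F G e z y) : PRing W V F G →+* ℂ :=
  Ideal.Quotient.lift (pideal W V F G) h.evY (by
    intro p hp
    have hle : pideal W V F G ≤ RingHom.ker h.evY := by
      unfold pideal
      rw [Ideal.span_le]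
      intro q hq
      rcases hq with rfl | rfl
      · show h.evY _ = 0
        rw [map_sub, h.evY_inz, h.evY_yx, sub_self]
      · show h.evY _ = 0
        rw [map_sub, h.evY_iny, h.evY_yx, sub_self]
    exact hle hp)

theorem PPt.ev_mk (h : PPt σ W V F G e z y) (P : YRing B s t) :
    h.ev (pmk W V F G P) = h.evY P :=
  Ideal.Quotient.lift_mk _ _ _

theorem PPt.ev_cst (h : PPt σ W V F G e z y) (c : K) : h.ev (pcst W V F G c) = σ c := by
  unfold pcst px
  rw [RingHom.comp_apply, RingHom.comp_apply, h.ev_mk, h.evY_yx]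
  exact RingHom.congr_fun h.he c

theorem PPt.ev_z (h : PPt σ W V F G e z y) (i : Fin (s + 1)) :
    h.ev (pz W V F G i : PRing W V F G) = z i := by
  show h.ev (pmk W V F G (yz B s t
    (((zlau i : (LP B (s + 1))ˣ) : LP B (s + 1)) : ZRing B s))) = _
  rw [h.ev_mk, h.evY_yz]
  refine (lev_single _ _ (Pi.single i 1) 1).trans ?_
  rw [map_one, one_mul, mon_single, Units.val_mk0]

theorem PPt.ev_y (h : PPt σ W V F G e z y) (i : Fin (t + 1)) :
    h.ev (py W V F G i : PRing W V F G) = y i := by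
  show h.ev (pmk W V F G
    (((zlau i : (LP (ZRing B s) (t + 1))ˣ) : LP (ZRing B s) (t + 1)) : YRing B s t)) = _
  rw [h.ev_mk]
  refine (lev_single _ _ (Pi.single i 1) 1).trans ?_
  rw [map_one, one_mul, mon_single, Units.val_mk0]

theorem PPt.congr {e' : B →+* ℂ} {z' : Fin (s + 1) → ℂ} {y' : Fin (t + 1) → ℂ}
    (h : PPt σ W V F G e z y) (h' : PPt σ W V F G e' z' y') (hx : e = e') (hz : z = z')
    (hy : y = y') : h.ev = h'.ev := by
  subst hx
  subst hz
  subst hy
  rfl

variable {D : ℕ} {E : (Fin D → ℝ) → B →+* ℂ} {Z : Fin (s + 1) → (Fin D → ℝ) → ℂ}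
  {Y : Fin (t + 1) → (Fin D → ℝ) → ℂ}

theorem contDiff_ev (hX : ∀ b, ContDiff ℝ 2 fun θ => E θ b) (hZ : ∀ i, Good (Z i))
    (hY : ∀ i, Good (Y i))
    (h : ∀ θ, PPt σ W V F G (E θ) (fun i => Z i θ) fun i => Y i θ) (b : PRing W V F G) :
    ContDiff ℝ 2 fun θ => (h θ).ev b := by
  have hZr : ∀ P : LP B (s + 1), ContDiff ℝ 2 fun θ => (h θ).evZ (P : ZRing B s) := by
    intro P
    have e : (fun θ => (h θ).evZ (P : ZRing B s)) = fun θ =>
        ∑ m ∈ P.coeff.support, E θ (P.coeff m) * ∏ i, Z i θ ^ (m i) := by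
      funext θ
      refine (lev_eq _ _ P).trans (Finset.sum_congr rfl fun m _ => ?_)
      congr 1
      unfold mon
      rw [Units.coe_prod]
      exact Finset.prod_congr rfl fun i _ => by rw [Units.val_zpow_eq_zpow_val, Units.val_mk0]
    rw [e]
    exact ContDiff.sum fun m _ => (hX _).mul
      (contDiff_prod fun i _ => contDiff_zpow' (hZ i) _)
  obtain ⟨P, rfl⟩ : ∃ P : LP (ZRing B s) (t + 1), pmk W V F G (P : YRing B s t) = b :=
    Ideal.Quotient.mk_surjective b
  have e : (fun θ => (h θ).ev (pmk W V F G (P : YRing B s t))) = fun θ =>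
      ∑ m ∈ P.coeff.support, (h θ).evZ (P.coeff m) * ∏ i, Y i θ ^ (m i) := by
    funext θ
    refine ((h θ).ev_mk _).trans ((lev_eq _ _ P).trans (Finset.sum_congr rfl fun m _ => ?_))
    congr 1
    unfold mon
    rw [Units.coe_prod]
    exact Finset.prod_congr rfl fun i _ => by rw [Units.val_zpow_eq_zpow_val, Units.val_mk0]
  rw [e]
  exact ContDiff.sum fun m _ => (hZr _).mul (contDiff_prod fun i _ => contDiff_zpow' (hY i) _)

/-- a torus in the fibre product -/
noncomputable def mkP (hX : ∀ b, ContDiff ℝ 2 fun θ => E θ b) (hZ : ∀ i, Good (Z i))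
    (hY : ∀ i, Good (Y i))
    (h : ∀ θ, PPt σ W V F G (E θ) (fun i => Z i θ) fun i => Y i θ)
    (hXp : ∀ θ j, E (θ + Pi.single j 1) = E θ) (hZp : ∀ i, Per (Z i)) (hYp : ∀ i, Per (Y i)) :
    Torus (PRing W V F G) D where
  e θ := (h θ).ev
  smooth b := contDiff_ev hX hZ hY h b
  periodic θ j := PPt.congr _ _ (hXp θ j) (funext fun i => hZp i θ j)
    (funext fun i => hYp i θ j)

end Pool.Agent.Run7.h954.FP
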