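import Pool.Agent.N65.TE.Root
set_option autoImplicit false

/-!
Functions on tori which are small together with their derivatives.
-/

namespace Pool.Agent.Run7.h954.FP

open Filter Topology

open Pool.Agent.TH826.MK

open Pool.Agent.TH826.SX (good_circ lw_circ circ_ne_zero exists_nice)

open Pool.Agent.N65.TL

/-- The function and its derivatives in the coordinate directions are bounded by `η`. -/
def Sm (η : ℝ) {D : ℕ} (u : (Fin D → ℝ) → ℂ) : Prop :=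
  ContDiff ℝ 2 u ∧ (∀ θ, ‖u θ‖ ≤ η) ∧ ∀ θ j, ‖fderiv ℝ u θ (Pi.single j 1)‖ ≤ η

variable {D : ℕ} {u u' : (Fin D → ℝ) → ℂ} {η η' : ℝ}

theorem Sm.nonneg (h : Sm η u) : 0 ≤ η := (norm_nonneg (u 0)).trans (h.2.1 0)

theorem Sm.mono (h : Sm η u) (hle : η ≤ η') : Sm η' u :=
  ⟨h.1, fun θ => (h.2.1 θ).trans hle, fun θ j => (h.2.2 θ j).trans hle⟩

theorem sm_const (c : ℂ) : Sm ‖c‖ (fun _ : Fin D → ℝ => c) := by
  refine ⟨contDiff_const, fun θ => le_rfl, fun θ j => ?_⟩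
  rw [fderiv_fun_const]
  simp

theorem Sm.add (h : Sm η u) (h' : Sm η' u') : Sm (η + η') (fun θ => u θ + u' θ) := by
  refine ⟨h.1.add h'.1, fun θ => norm_add_le_of_le (h.2.1 θ) (h'.2.1 θ), fun θ j => ?_⟩
  have h1 : DifferentiableAt ℝ u θ := h.1.differentiable (by norm_num) θ
  have h2 : DifferentiableAt ℝ u' θ := h'.1.differentiable (by norm_num) θ
  rw [fderiv_fun_add h1 h2]
  exact norm_add_le_of_le (h.2.2 θ j) (h'.2.2 θ j)

theorem Sm.mul (h : Sm η u) (h' : Sm η' u') : Sm (2 * (η * η')) (fun θ => u θ * u' θ) := by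
  have e1 := h.nonneg
  have e2 := h'.nonneg
  have e3 : 0 ≤ η * η' := mul_nonneg e1 e2
  refine ⟨h.1.mul h'.1, fun θ => ?_, fun θ j => ?_⟩
  · rw [norm_mul]
    have := mul_le_mul (h.2.1 θ) (h'.2.1 θ) (norm_nonneg _) e1
    linarith
  · have h1 : DifferentiableAt ℝ u θ := h.1.differentiable (by norm_num) θ
    have h2 : DifferentiableAt ℝ u' θ := h'.1.differentiable (by norm_num) θ
    rw [fderiv_fun_mul h1 h2]
    have h3 : ‖u θ * fderiv ℝ u' θ (Pi.single j 1)‖ ≤ η * η' := by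
      rw [norm_mul]
      exact mul_le_mul (h.2.1 θ) (h'.2.2 θ j) (norm_nonneg _) e1
    have h4 : ‖u' θ * fderiv ℝ u θ (Pi.single j 1)‖ ≤ η' * η := by
      rw [norm_mul]
      exact mul_le_mul (h'.2.1 θ) (h.2.2 θ j) (norm_nonneg _) e2
    have h5 := norm_add_le_of_le h3 h4
    refine le_trans (le_of_eq ?_) (h5.trans (by linarith))
    rfl

theorem Sm.pow {M : ℝ} (hM : 1 ≤ M) (h : Sm M u) (i : ℕ) :
    Sm ((2 * M) ^ i) (fun θ => u θ ^ i) := by
  induction i with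
  | zero =>
    simp only [pow_zero]
    have := sm_const (D := D) 1
    rwa [norm_one] at this
  | succ i ih =>
    have h1 := ih.mul h
    have e : (fun θ => u θ ^ (i + 1)) = fun θ => u θ ^ i * u θ := by
      funext θ
      rw [pow_succ]
    rw [e]
    exact h1.mono (le_of_eq (by ring))

theorem sm_sum {ι : Type*} (s : Finset ι) {f : ι → (Fin D → ℝ) → ℂ} {M : ι → ℝ}
    (h : ∀ i ∈ s, Sm (M i) (f i)) : Sm (∑ i ∈ s, M i) (fun θ => ∑ i ∈ s, f i θ) := by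
  classical
  induction s using Finset.induction_on with
  | empty =>
    simp only [Finset.sum_empty]
    have := sm_const (D := D) 0
    rwa [norm_zero] at this
  | insert a s ha ih =>
    simp only [Finset.sum_insert ha]
    exact (h a (Finset.mem_insert_self _ _)).add (ih fun i hi => h i (Finset.mem_insert_of_mem hi))

/-- Good functions with bounded logarithmic derivatives. -/
theorem sm_good {g : (Fin D → ℝ) → ℂ} (hg : Good g) {M B : ℝ} (hM : ∀ θ, ‖g θ‖ ≤ M) (hB : 0 ≤ B)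
    (hlw : ∀ j θ, ‖lw g j θ‖ ≤ B) : Sm (M * (1 + B)) g := by
  have hM0 : 0 ≤ M := (norm_nonneg (g 0)).trans (hM 0)
  refine ⟨hg.smooth, fun θ => (hM θ).trans (le_mul_of_one_le_right hM0 (by linarith)),
    fun θ j => ?_⟩
  have h1 : fderiv ℝ g θ (Pi.single j 1) = g θ * lw g j θ := by
    unfold lw
    rw [mul_div_cancel₀ _ (hg.ne_zero θ)]
  rw [h1, norm_mul]
  exact mul_le_mul (hM θ) ((hlw j θ).trans (by linarith)) (norm_nonneg _) hM0

/-- the inverse of the `k`-th power of the coordinate of a circle -/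
noncomputable def sf (k : ℕ) (ρ : ℝ) {D : ℕ} (j0 : Fin D) (θ : Fin D → ℝ) : ℂ :=
  (circ ρ (θ j0))⁻¹ ^ k

variable {k : ℕ} {ρ : ℝ} {j0 : Fin D}

theorem good_sf (hρ : 0 < ρ) : Good (sf k ρ j0) := by
  have h := good_zpow (good_circ hρ j0) (-(k : ℤ))
  have e : sf k ρ j0 = fun θ => circ ρ (θ j0) ^ (-(k : ℤ)) := by
    funext θ
    unfold sf
    rw [zpow_neg, zpow_natCast, inv_pow]
  rw [e]
  exact h

theorem norm_sf (hρ : 0 < ρ) (θ : Fin D → ℝ) : ‖sf k ρ j0 θ‖ = (ρ⁻¹) ^ k := by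
  unfold sf
  rw [norm_pow, norm_inv, norm_circ hρ.le]

theorem lw_sf_le (hρ : 0 < ρ) (j : Fin D) (θ : Fin D → ℝ) :
    ‖lw (sf k ρ j0) j θ‖ ≤ 2 * Real.pi * k := by
  have e : sf k ρ j0 = fun θ => circ ρ (θ j0) ^ (-(k : ℤ)) := by
    funext θ
    unfold sf
    rw [zpow_neg, zpow_natCast, inv_pow]
  rw [e, lw_zpow (good_circ hρ j0), lw_circ hρ, norm_mul, Complex.norm_intCast]
  have h1 : |((-(k : ℤ) : ℤ) : ℝ)| = k := by
    push_cast
    rw [abs_neg]
    exact abs_of_nonneg (by positivity)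
  rw [h1]
  have h2 : ‖(if j = j0 then 2 * Real.pi * Complex.I else 0 : ℂ)‖ ≤ 2 * Real.pi := by
    split_ifs
    · rw [norm_mul, norm_mul, Complex.norm_I, Complex.norm_real, Complex.norm_ofNat, mul_one,
        Real.norm_eq_abs, abs_of_pos Real.pi_pos]
    · rw [norm_zero]
      have := Real.pi_pos
      positivity
  calc (k : ℝ) * _ ≤ k * (2 * Real.pi) := mul_le_mul_of_nonneg_left h2 (by positivity)
    _ = _ := by ring

theorem sf_add_single (θ : Fin D → ℝ) (j : Fin D) :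
    sf k ρ j0 (θ + Pi.single j 1) = sf k ρ j0 θ := by
  have h : circ ρ ((θ + Pi.single j 1 : Fin D → ℝ) j0) = circ ρ (θ j0) := per_circ ρ j0 θ j
  unfold sf
  rw [h]

/-- The composition with a function which is smooth near `0`. -/
theorem sm_comp {E : ℂ → ℂ} {r C : ℝ} (hC : 0 ≤ C)
    (hE : ∀ x : ℂ, ‖x‖ < r → ContDiffAt ℂ 2 E x ∧ ‖E x‖ ≤ C ∧ ‖fderiv ℂ E x‖ ≤ C)
    (hρ : 0 < ρ) (hr : (ρ⁻¹) ^ k < r) :
    ContDiff ℝ 2 (fun θ => E (sf k ρ j0 θ)) ∧ ∀ θ j,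
      ‖fderiv ℝ (fun θ => E (sf k ρ j0 θ)) θ (Pi.single j 1)‖ ≤
        C * ((ρ⁻¹) ^ k * (2 * Real.pi * k)) := by
  have hg := good_sf (k := k) (j0 := j0) hρ
  have hlt : ∀ θ, ‖sf k ρ j0 θ‖ < r := fun θ => by rwa [norm_sf hρ]
  refine ⟨?_, fun θ j => ?_⟩
  · rw [contDiff_iff_contDiffAt]
    intro θ
    exact ((hE _ (hlt θ)).1.restrict_scalars ℝ).comp θ hg.smooth.contDiffAt
  · have hd : HasFDerivAt (sf k ρ j0) (fderiv ℝ (sf k ρ j0) θ) θ :=
      ((hg.smooth.differentiable (by norm_num)) θ).hasFDerivAt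
    obtain ⟨h1, h2, h3⟩ := hE _ (hlt θ)
    have h4 : HasFDerivAt E ((fderiv ℂ E (sf k ρ j0 θ)).restrictScalars ℝ) (sf k ρ j0 θ) :=
      ((h1.differentiableAt (by norm_num)).hasFDerivAt).restrictScalars ℝ
    have h5 := (h4.comp θ hd).fderiv
    have h6 : fderiv ℝ (fun θ => E (sf k ρ j0 θ)) θ (Pi.single j 1) =
        fderiv ℂ E (sf k ρ j0 θ) (fderiv ℝ (sf k ρ j0) θ (Pi.single j 1)) :=
      DFunLike.congr_fun h5 (Pi.single j 1)
    rw [h6]
    refine (ContinuousLinearMap.le_opNorm _ _).trans (mul_le_mul h3 ?_ (norm_nonneg _) hC)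
    have h7 : fderiv ℝ (sf k ρ j0) θ (Pi.single j 1) = sf k ρ j0 θ * lw (sf k ρ j0) j θ := by
      unfold lw
      rw [mul_div_cancel₀ _ (hg.ne_zero θ)]
    rw [h7, norm_mul, norm_sf hρ]
    exact mul_le_mul_of_nonneg_left (lw_sf_le hρ j θ) (by positivity)

/-- functions which are smooth near `0` -/
theorem exists_ball {E : ℂ → ℂ} (h : ContDiffAt ℂ 2 E 0) :
    ∃ r C : ℝ, 0 < r ∧ 0 ≤ C ∧ ∀ x : ℂ, ‖x‖ < r →
      ContDiffAt ℂ 2 E x ∧ ‖E x‖ ≤ C ∧ ‖fderiv ℂ E x‖ ≤ C := by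
  have hd : ContinuousAt (fderiv ℂ E) 0 := (h.fderiv_right (m := 1) (by norm_num)).continuousAt
  have e1 := h.continuousAt.norm.eventually_lt continuousAt_const (lt_add_one ‖E 0‖)
  have e2 := hd.norm.eventually_lt continuousAt_const (lt_add_one ‖fderiv ℂ E 0‖)
  have e3 : ∀ᶠ ζ in 𝓝 (0 : ℂ), ContDiffAt ℂ 2 E ζ := h.eventually (by norm_num)
  obtain ⟨r, hr, hball⟩ := Metric.eventually_nhds_iff.1 (e1.and (e2.and e3))
  refine ⟨r, max (‖E 0‖ + 1) (‖fderiv ℂ E 0‖ + 1), hr,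
    le_trans (by positivity) (le_max_left _ _), fun x hx => ?_⟩
  obtain ⟨a1, a2, a3⟩ := hball (by rwa [dist_zero_right])
  exact ⟨a3, a1.le.trans (le_max_left _ _), a2.le.trans (le_max_right _ _)⟩

theorem inv_pow_le (hk : 0 < k) (hρ : 1 ≤ ρ) : (ρ⁻¹) ^ k ≤ ρ⁻¹ := by
  have h1 : ρ⁻¹ ≤ 1 := inv_le_one_of_one_le₀ hρ
  have h0 : 0 ≤ ρ⁻¹ := by positivity
  exact pow_le_of_le_one h0 h1 hk.ne'

/-- Functions which vanish at `0` are small on large circles. -/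
theorem exists_sm {E : ℂ → ℂ} (h : ContDiffAt ℂ 2 E 0) (h0 : E 0 = 0) {k : ℕ} (hk : 0 < k)
    {η : ℝ} (hη : 0 < η) : ∃ ρ0 : ℝ, 1 ≤ ρ0 ∧ ∀ ρ : ℝ, ρ0 ≤ ρ → ∀ (D : ℕ) (j0 : Fin D),
      Sm η (fun θ => E (sf k ρ j0 θ)) := by
  obtain ⟨r, C, hr, hC, hball⟩ := exists_ball h
  have hcont : ∀ᶠ x in 𝓝 (0 : ℂ), ‖E x‖ < η := by
    refine h.continuousAt.norm.eventually_lt continuousAt_const ?_
    rwa [h0, norm_zero]
  obtain ⟨r', hr', hball'⟩ := Metric.eventually_nhds_iff.1 hcont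
  have hpi := Real.pi_pos
  refine ⟨1 + 1 / r + 1 / r' + C * (2 * Real.pi * k) / η, ?_, fun ρ hρ D j0 => ?_⟩
  · have : 0 ≤ C * (2 * Real.pi * k) / η := by positivity
    have : 0 < 1 / r := by positivity
    have : 0 < 1 / r' := by positivity
    linarith
  · have a1 : 0 ≤ C * (2 * Real.pi * k) / η := by positivity
    have a2 : 0 < 1 / r := by positivity
    have a3 : 0 < 1 / r' := by positivity
    have hρ1 : 1 ≤ ρ := by linarith
    have hρ0 : 0 < ρ := by linarith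
    have hk1 := inv_pow_le hk hρ1
    have b1 : (ρ⁻¹) ^ k < r := by
      refine hk1.trans_lt ?_
      rw [inv_lt_comm₀ hρ0 hr, ← one_div]
      linarith
    have b2 : (ρ⁻¹) ^ k < r' := by
      refine hk1.trans_lt ?_
      rw [inv_lt_comm₀ hρ0 hr', ← one_div]
      linarith
    obtain ⟨c1, c2⟩ := sm_comp (j0 := j0) hC hball hρ0 b1
    refine ⟨c1, fun θ => ?_, fun θ j => (c2 θ j).trans ?_⟩
    · refine (hball' ?_).le
      rw [dist_zero_right, norm_sf hρ0]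
      exact b2
    · calc C * ((ρ⁻¹) ^ k * (2 * Real.pi * k)) ≤ C * (ρ⁻¹ * (2 * Real.pi * k)) :=
            mul_le_mul_of_nonneg_left (mul_le_mul_of_nonneg_right hk1 (by positivity)) hC
        _ = C * (2 * Real.pi * k) / ρ := by ring
        _ ≤ η := by
          rw [div_le_iff₀ hρ0]
          have h1 : C * (2 * Real.pi * k) / η ≤ ρ := by linarith
          rw [div_le_iff₀ hη] at h1
          linarith [mul_comm ρ η]

end Pool.Agent.Run7.h954.FP
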